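import Pool.Agent.Lib.MP_895a4b_co.Swap

namespace Pool.Agent.Lib.MP_895a4b_co

open Finset

variable {V : Type} [Fintype V] [DecidableEq V]
variable (R B : SimpleGraph V) [DecidableRel R.Adj] [DecidableRel B.Adj] (θ : ℕ)

/-- The base of the powers. -/
def KK (V : Type) [Fintype V] : ℤ := (Fintype.card V : ℤ) + 1

/-- The large constant. -/
def MM (V : Type) [Fintype V] (θ : ℕ) : ℤ := (Fintype.card V : ℤ) * KK V ^ θ + KK V ^ θ + 1

/-- The cost of a common edge. -/
def cst (x y : V) : ℤ := MM V θ - KK V ^ max (R.degree x) (R.degree y)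

/-- The level of a vertex. -/
def TT (x : V) : ℕ := max (R.degree x) (θ - R.degree x)

/-- The vertex `h` can be removed with a gain of about `j` common edges. -/
def Gain (P : ℤ) (σ : Equiv.Perm V) (h : V) (j : ℕ) : Prop :=
  off (wt R B (cst R θ) σ) {h} ≤ P - 2 * j * MM V θ + 2 * (Fintype.card V : ℤ) * KK V ^ TT R θ h

lemma KK_one : (1 : ℤ) ≤ KK V := by unfold KK; omega

lemma KK_pow_le {a b : ℕ} (h : a ≤ b) : KK V ^ a ≤ KK V ^ b := pow_le_pow_right₀ KK_one h

lemma KK_pow_pos (a : ℕ) : 0 < KK V ^ a := pow_pos (lt_of_lt_of_le one_pos KK_one) a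

lemma cst_symm (x y : V) : cst R θ x y = cst R θ y x := by unfold cst; rw [max_comm]

lemma cst_le (x y : V) : cst R θ x y ≤ MM V θ := by
  have := KK_pow_pos (V := V) (max (R.degree x) (R.degree y))
  unfold cst; linarith

variable {R θ}

lemma deg_le (hθ : ∀ x y, R.Adj x y → R.degree x + R.degree y ≤ θ) (x : V) : R.degree x ≤ θ := by
  rcases Nat.eq_zero_or_pos (R.degree x) with h | h
  · omega
  · obtain ⟨y, hy⟩ := (R.degree_pos_iff_exists_adj x).1 h
    have := hθ x y hy; omega

lemma TT_le (hθ : ∀ x y, R.Adj x y → R.degree x + R.degree y ≤ θ) (x : V) : TT R θ x ≤ θ := by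
  have := deg_le hθ x
  unfold TT; omega

lemma cst_nonneg (hθ : ∀ x y, R.Adj x y → R.degree x + R.degree y ≤ θ) (x y : V) :
    0 ≤ cst R θ x y := by
  have h1 := deg_le hθ x
  have h2 := deg_le hθ y
  have h3 : KK V ^ max (R.degree x) (R.degree y) ≤ KK V ^ θ := KK_pow_le (by omega)
  have h4 := KK_pow_pos (V := V) θ
  have h5 : (0 : ℤ) ≤ (Fintype.card V : ℤ) * KK V ^ θ := by positivity
  unfold cst MM; linarith

lemma MM_gt (hθ : ∀ x y, R.Adj x y → R.degree x + R.degree y ≤ θ) (x : V) :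
    (Fintype.card V : ℤ) * KK V ^ TT R θ x < MM V θ := by
  have h3 : KK V ^ TT R θ x ≤ KK V ^ θ := KK_pow_le (TT_le hθ x)
  have h4 := KK_pow_pos (V := V) θ
  have h5 : (Fintype.card V : ℤ) * KK V ^ TT R θ x ≤ (Fintype.card V : ℤ) * KK V ^ θ :=
    mul_le_mul_of_nonneg_left h3 (by positivity)
  unfold MM; linarith

lemma MM_pos : 0 < MM V θ := by
  have h4 := KK_pow_pos (V := V) θ
  have h5 : (0 : ℤ) ≤ (Fintype.card V : ℤ) * KK V ^ θ := by positivity
  unfold MM; linarith

lemma sum_cst_le (x : V) (S : Finset V) : ∑ w ∈ S, cst R θ x w ≤ S.card * MM V θ := by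
  have := sum_le_card_nsmul S (fun w => cst R θ x w) (MM V θ) fun w _ => cst_le R θ x w
  simpa using this

lemma count_ge {a j : ℕ} {M E : ℤ} (hM : E < M) (hM0 : 0 < M) (h : j * M ≤ E + a * M) : j ≤ a := by
  by_contra hc
  have h1 : (a : ℤ) + 1 ≤ j := by exact_mod_cast Nat.lt_of_not_le hc
  nlinarith

/-- The removal gain at a vertex of a placement of least total weight. -/
lemma gain_base (hθ : ∀ x y, R.Adj x y → R.degree x + R.degree y ≤ θ) (σ : Equiv.Perm V) (u : V) :
    Gain R B θ (off (wt R B (cst R θ) σ) ∅) σ u (lk R B σ u u).card := by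
  unfold Gain
  have e := tot_split R B (cst R θ) (cst_symm R θ) σ u
  have h1 : ((lk R B σ u u).card : ℤ) * (MM V θ - KK V ^ TT R θ u)
      ≤ ∑ w ∈ lk R B σ u u, cst R θ u w := by
    have := card_nsmul_le_sum (lk R B σ u u) (fun w => cst R θ u w) (MM V θ - KK V ^ TT R θ u) (by
      intro w hw
      have h2 := hθ u w ((mem_lk R B).1 hw).1
      have h3 : KK V ^ max (R.degree u) (R.degree w) ≤ KK V ^ TT R θ u :=
        KK_pow_le (by unfold TT; omega)
      unfold cst; linarith)
    simpa using this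
  have h2 : ((lk R B σ u u).card : ℤ) ≤ Fintype.card V := by exact_mod_cast card_le_univ _
  have h3 := KK_pow_pos (V := V) (TT R θ u)
  nlinarith

lemma gain_mono {P : ℤ} {σ : Equiv.Perm V} {h : V} {i j : ℕ} (hij : i ≤ j)
    (hg : Gain R B θ P σ h j) : Gain R B θ P σ h i := by
  unfold Gain at *
  have h1 : (i : ℤ) ≤ j := by exact_mod_cast hij
  have h2 := MM_pos (V := V) (θ := θ)
  nlinarith

/-- The weight of a link in a column. -/
def mu (R : SimpleGraph V) [DecidableRel R.Adj] (T : ℕ) (z : V) : ℕ :=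
  if R.degree z ≤ T then 2 else 1

/-- The lower bound for the weight of the links between `h` and one vertex `y`. -/
lemma link_bound (hθ : ∀ x y, R.Adj x y → R.degree x + R.degree y ≤ θ) (P : ℤ)
    (hP : ∀ τ : Equiv.Perm V, P ≤ off (wt R B (cst R θ) τ) ∅)
    (σ : Equiv.Perm V) (h : V) (j : ℕ) (hg : Gain R B θ P σ h j)
    (hno : ∀ (τ : Equiv.Perm V) (y : V), 2 * R.degree y ≤ θ → TT R θ h < TT R θ y →
      ¬ Gain R B θ P τ y 2) (y : V) (hy : y ≠ h) :
    2 * j ≤ 2 * (lk R B σ h y).card + ∑ z ∈ lk R B σ y h, mu R (TT R θ h) z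
      + 2 * (if y ∈ lk R B σ h h then 1 else 0) := by
  set τ := σ * Equiv.swap h y with hτ
  have hM := MM_gt hθ h
  have hM0 := MM_pos (V := V) (θ := θ)
  have e1 := off_swap R B (cst R θ) (cst_symm R θ) (fun x y _ => cst_nonneg hθ x y) σ h y hy
  have e2 := tot_split R B (cst R θ) (cst_symm R θ) τ y
  have e3 := hP τ
  have e4 := sum_cst_le (R := R) (θ := θ) h (lk R B σ h y)
  have e5 := lk_swap R B σ h y
  rw [← hτ] at e1 e5
  simp only [← mem_lk R B] at e5
  unfold Gain at hg
  have e6 : ∑ w ∈ lk R B τ y y, cst R θ y w ≤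
      ∑ w ∈ lk R B σ y h ∪ (if y ∈ lk R B σ h h then {h} else ∅), cst R θ y w :=
    sum_le_sum_of_subset_of_nonneg e5 fun w _ _ => cst_nonneg hθ y w
  by_cases hall : ∀ z ∈ lk R B σ y h, R.degree z ≤ TT R θ h
  · have f1 : ∑ z ∈ lk R B σ y h, mu R (TT R θ h) z = 2 * (lk R B σ y h).card := by
      rw [sum_congr rfl (g := fun _ => 2) fun z hz => by simp [mu, hall z hz]]
      simp [mul_comm]
    have f2 := sum_cst_le (R := R) (θ := θ) y
      (lk R B σ y h ∪ (if y ∈ lk R B σ h h then {h} else ∅))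
    have f3 : (lk R B σ y h ∪ (if y ∈ lk R B σ h h then {h} else ∅)).card
        ≤ (lk R B σ y h).card + (if y ∈ lk R B σ h h then 1 else 0) := by
      refine (card_union_le _ _).trans ?_
      split_ifs <;> simp
    have f4 : j ≤ (lk R B σ h y).card +
        (lk R B σ y h ∪ (if y ∈ lk R B σ h h then {h} else ∅)).card := by
      apply count_ge hM hM0
      push_cast
      nlinarith
    rw [f1]; omega
  · push Not at hall
    obtain ⟨z, hz, hzT⟩ := hall
    have hyz := hθ y z ((mem_lk R B).1 hz).1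
    have hl : 2 * R.degree y ≤ θ := by unfold TT at hzT; omega
    have hT : TT R θ h < TT R θ y := by
      refine lt_of_lt_of_le hzT ?_
      unfold TT; omega
    have g1 := hno τ y hl hT
    unfold Gain at g1
    push Not at g1
    have g2 : (Fintype.card V : ℤ) * KK V ^ TT R θ h ≤ (Fintype.card V : ℤ) * KK V ^ TT R θ y :=
      mul_le_mul_of_nonneg_left (KK_pow_le hT.le) (by positivity)
    have g3 : j ≤ (lk R B σ h y).card + 1 := by
      by_contra hc
      have h1 : ((lk R B σ h y).card : ℤ) + 2 ≤ j := by exact_mod_cast (by omega)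
      push_cast at g1
      nlinarith
    have g4 : (lk R B σ y h).card ≤ ∑ z ∈ lk R B σ y h, mu R (TT R θ h) z := by
      rw [card_eq_sum_ones]
      exact sum_le_sum fun w _ => by unfold mu; split_ifs <;> omega
    by_contra hc
    have g5 : 0 < (lk R B σ y h).card := card_pos.2 ⟨z, hz⟩
    have hk : y ∉ lk R B σ h h := by
      intro hk
      rw [if_pos hk] at hc; omega
    rw [if_neg hk] at hc e6
    have g6 : (lk R B σ y h).card = 1 := by omega
    have g7 : j = (lk R B σ h y).card + 1 := by omega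
    obtain ⟨z', hz'⟩ := card_eq_one.1 g6
    have : z = z' := by rw [hz'] at hz; simpa using hz
    subst this
    rw [hz'] at e6
    simp only [union_empty, sum_singleton] at e6
    have g8 : KK V ^ (TT R θ h + 1) ≤ KK V ^ max (R.degree y) (R.degree z) := KK_pow_le (by omega)
    have g9 : KK V ^ (TT R θ h + 1) = (Fintype.card V : ℤ) * KK V ^ TT R θ h + KK V ^ TT R θ h := by
      rw [pow_succ]; unfold KK; ring
    have g10 := KK_pow_pos (V := V) (TT R θ h)
    have g11 : cst R θ y z = MM V θ - KK V ^ max (R.degree y) (R.degree z) := rfl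
    have g12 : (j : ℤ) = (lk R B σ h y).card + 1 := by exact_mod_cast g7
    rw [g12] at hg
    nlinarith

/-- The counting step. -/
lemma core (hθ : ∀ x y, R.Adj x y → R.degree x + R.degree y ≤ θ) (P : ℤ)
    (hP : ∀ τ : Equiv.Perm V, P ≤ off (wt R B (cst R θ) τ) ∅)
    (σ : Equiv.Perm V) (h : V) (j : ℕ) (hg : Gain R B θ P σ h j)
    (hno : ∀ (τ : Equiv.Perm V) (y : V), 2 * R.degree y ≤ θ → TT R θ h < TT R θ y →
      ¬ Gain R B θ P τ y 2) :
    j * Fintype.card V ≤ (R.degree h + TT R θ h) * B.maxDegree := by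
  have hM := MM_gt hθ h
  have hM0 := MM_pos (V := V) (θ := θ)
  have hc : j ≤ (lk R B σ h h).card := by
    have e2 := tot_split R B (cst R θ) (cst_symm R θ) σ h
    have e3 := hP σ
    have e4 := sum_cst_le (R := R) (θ := θ) h (lk R B σ h h)
    unfold Gain at hg
    apply count_ge hM hM0
    nlinarith
  have hh : ∑ z ∈ lk R B σ h h, mu R (TT R θ h) z = 2 * (lk R B σ h h).card := by
    rw [sum_congr rfl (g := fun _ => 2) fun z hz => by
      have := hθ h z ((mem_lk R B).1 hz).1
      have h2 : R.degree z ≤ TT R θ h := by unfold TT; omega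
      simp [mu, h2]]
    simp [mul_comm]
  have hall : ∀ y, 2 * j + (if y = h then 2 * (lk R B σ h h).card else 0) ≤
      2 * (lk R B σ h y).card + ∑ z ∈ lk R B σ y h, mu R (TT R θ h) z
      + 2 * (if y ∈ lk R B σ h h then 1 else 0) := by
    intro y
    by_cases hy : y = h
    · subst hy
      rw [if_pos rfl, hh]; omega
    · rw [if_neg hy]
      exact link_bound B hθ P hP σ h j hg hno y hy
  have hs := sum_le_sum (s := univ) fun y _ => hall y
  simp only [sum_add_distrib, sum_const, card_univ, smul_eq_mul, sum_ite_eq', mem_univ, if_true,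
    ← mul_sum] at hs
  have h1 : ∑ y, (if y ∈ lk R B σ h h then 1 else 0) = (lk R B σ h h).card := by
    simp
  have h2 := sum_card_row R B σ h
  have h3 := sum_col R B σ h (mu R (TT R θ h)) (2 * TT R θ h) (by
    intro z
    have := deg_le hθ z
    unfold mu
    split_ifs with hz
    · omega
    · unfold TT; omega)
  rw [h1] at hs
  nlinarith

theorem main (hθ : ∀ x y, R.Adj x y → R.degree x + R.degree y ≤ θ)
    (hn : θ * B.maxDegree < 2 * Fintype.card V) :
    ∃ σ : Equiv.Perm V, ∀ u, (lk R B σ u u).card ≤ 1 ∨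
      (θ < 2 * R.degree u ∧
        (lk R B σ u u).card * Fintype.card V ≤ 2 * R.degree u * B.maxDegree) := by
  obtain ⟨σ, -, hσ⟩ := exists_min_image (univ : Finset (Equiv.Perm V))
    (fun τ => off (wt R B (cst R θ) τ) ∅) univ_nonempty
  set P := off (wt R B (cst R θ) σ) ∅ with hPdef
  have hP : ∀ τ : Equiv.Perm V, P ≤ off (wt R B (cst R θ) τ) ∅ := fun τ => hσ τ (mem_univ _)
  have step1 : ∀ (τ : Equiv.Perm V) (y : V), 2 * R.degree y ≤ θ → ¬ Gain R B θ P τ y 2 := by
    classical
    by_contra hc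
    push Not at hc
    obtain ⟨τ, y, hy1, hy2⟩ := hc
    obtain ⟨x, hx, hmax⟩ := exists_max_image
      (univ.filter fun x : V => 2 * R.degree x ≤ θ ∧ ∃ ρ, Gain R B θ P ρ x 2) (TT R θ)
      ⟨y, by simp only [mem_filter, mem_univ, true_and]; exact ⟨hy1, τ, hy2⟩⟩
    simp only [mem_filter, mem_univ, true_and] at hx hmax
    obtain ⟨hx1, ρ, hx2⟩ := hx
    have := core B hθ P hP ρ x 2 hx2 (by
      intro ρ' z hz1 hz2 hz3
      exact absurd (hmax z ⟨hz1, ρ', hz3⟩) (not_le.2 hz2))
    have e : R.degree x + TT R θ x = θ := by unfold TT; omega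
    rw [e] at this
    omega
  refine ⟨σ, fun u => ?_⟩
  by_cases hu : (lk R B σ u u).card ≤ 1
  · exact Or.inl hu
  right
  have hg := gain_base B hθ σ u
  have hheavy : θ < 2 * R.degree u := by
    by_contra hc
    exact step1 σ u (not_lt.1 hc) (gain_mono B (by omega) hg)
  refine ⟨hheavy, ?_⟩
  have := core B hθ P hP σ u _ hg fun τ y hy _ => step1 τ y hy
  have e : R.degree u + TT R θ u = 2 * R.degree u := by unfold TT; omega
  rwa [e] at this

end Pool.Agent.Lib.MP_895a4b_co
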