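import Pool.Agent.Lib.MP_895a4b_co.NibDefs

/-! Consequences of the invariants in one state. -/

set_option linter.unusedSectionVars false

namespace Nib67

open Finset

variable {V P : Type} [Fintype V] [Fintype P] [DecidableEq V] [DecidableEq P]

theorem sum_ite_le (S A : Finset V) (x : V → ℝ) {b : ℝ} (hb : 0 ≤ b) (h : ∀ w, x w ≤ b) :
    ∑ w ∈ S, (if w ∈ A then x w else 0) ≤ b * #A := by
  rw [← sum_filter]
  refine (sum_le_sum fun w _ => h w).trans ?_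
  rw [sum_const, nsmul_eq_mul, mul_comm]
  exact mul_le_mul_of_nonneg_left
    (by exact_mod_cast card_le_card fun w hw => (mem_filter.1 hw).2) hb

theorem exp_le_one_sub {x : ℝ} (h0 : 0 ≤ x) (h1 : x ≤ 1 / 2) : Real.exp (-(2 * x)) ≤ 1 - x := by
  rw [Real.exp_neg, inv_le_comm₀ (Real.exp_pos _) (by linarith), inv_eq_one_div,
    div_le_iff₀ (by linarith)]
  nlinarith [Real.add_one_le_exp (2 * x)]

namespace Dat

variable {d : Dat V P} {t : St V P}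

theorem Hyp.loss (H : d.Hyp) (A A' : Finset V) (w : V) :
    0 ≤ (if w ∈ A then d.β / d.s w else 0) + (if w ∈ A' then d.r * d.β / d.s w else 0) ∧
    (if w ∈ A then d.β / d.s w else 0) + (if w ∈ A' then d.r * d.β / d.s w else 0) ≤ 1 / 4 := by
  have h1 := H.βs w
  have h2 := H.βs0 w
  have h3 := mul_le_mul_of_nonneg_right H.r1 h2
  have h4 := mul_nonneg H.r0 h2
  have h5 := H.b1
  rw [mul_div_assoc]
  constructor <;> split_ifs <;> linarith

theorem Hyp.B1_ge (H : d.Hyp) (S : Finset V) (i : Row V P) (y : V) :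
    Real.exp (-(6 * d.B)) ≤ d.B1 S i y := by
  have h1 : ∑ w ∈ S, ((if w ∈ d.Nr i then d.β / d.s w else 0) +
      if w ∈ d.N y then d.r * d.β / d.s w else 0) ≤ 3 * d.B := by
    rw [sum_add_distrib]
    have a1 := sum_ite_le S (d.Nr i) (fun w => d.β / d.s w) H.b0 H.βs
    have a2 := sum_ite_le S (d.N y) (fun w => d.r * d.β / d.s w) H.b0 fun w => by
      rw [mul_div_assoc]
      nlinarith [H.βs w, H.βs0 w, H.r1, H.r0]
    have a3 := mul_le_mul_of_nonneg_left (H.dNr i) H.b0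
    have a4 := mul_le_mul_of_nonneg_left (H.dN y) H.b0
    nlinarith [H.bB]
  refine le_trans (Real.exp_le_exp.2 (show _ ≤ ∑ w ∈ S, -(2 * ((if w ∈ d.Nr i then d.β / d.s w
    else 0) + if w ∈ d.N y then d.r * d.β / d.s w else 0)) from ?_)) ?_
  · rw [sum_neg_distrib, ← mul_sum]; linarith
  · rw [Real.exp_sum]
    exact prod_le_prod (fun w _ => (Real.exp_pos _).le) fun w _ =>
      exp_le_one_sub (H.loss _ _ w).1 (by linarith [(H.loss (d.Nr i) (d.N y) w).2])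

theorem Hyp.B1_pos (H : d.Hyp) (S : Finset V) (i : Row V P) (y : V) : 0 < d.B1 S i y :=
  lt_of_lt_of_le (Real.exp_pos _) (H.B1_ge S i y)

theorem Hyp.B1_le (H : d.Hyp) (S : Finset V) (i : Row V P) (y : V) : d.B1 S i y ≤ d.B0 S i := by
  refine prod_le_prod (fun w _ => by linarith [(H.loss (d.Nr i) (d.N y) w).2]) fun w _ => ?_
  have h2 := H.βs0 w
  have h3 := mul_nonneg (H.gr0 i) h2
  have h4 := mul_nonneg H.r0 h2
  rw [mul_div_assoc, mul_div_assoc]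
  split_ifs <;> nlinarith

theorem Hyp.le_W (H : d.Hyp) {x e : ℝ} (h0 : 0 ≤ x) (he : Real.exp (-(6 * d.B)) ≤ e)
    (h : x * e ≤ 1) : x ≤ d.W := by
  have h1 : x * Real.exp (-(6 * d.B)) ≤ 1 := (mul_le_mul_of_nonneg_left he h0).trans h
  rw [Real.exp_neg, mul_inv_le_iff₀ (Real.exp_pos _), one_mul] at h1
  exact h1.trans H.hW

theorem Hyp.neV (H : d.Hyp) : Nonempty V := by
  have := H.n0
  rw [H.hn] at this
  exact Fintype.card_pos_iff.1 (by exact_mod_cast this)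

theorem Inv.vW (I : d.Inv t) (H : d.Hyp) (i : Row V P) {p : P} (hp : p ∈ t.F) : t.v i p ≤ d.W := by
  by_cases h : t.v i p = 0
  · linarith [H.W1]
  rcases I.ent i p hp h with ⟨-, h1⟩ | ⟨y, -, -, h1⟩
  · obtain ⟨y⟩ := H.neV
    exact H.le_W (I.v0 i p hp) ((H.B1_ge _ i y).trans (H.B1_le _ i y)) h1
  · exact H.le_W (I.v0 i p hp) (H.B1_ge _ i y) (h1.trans (H.gr1 i))

theorem Inv.lk0 (I : d.Inv t) (H : d.Hyp) {i : Row V P} (hi : d.gr i = 0) {p : P} (hp : p ∈ t.F)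
    (h : t.v i p ≠ 0) : d.lk t (d.Nr i) p = ∅ := by
  rcases I.ent i p hp h with ⟨h1, -⟩ | ⟨y, -, -, h1⟩
  · exact h1
  · have := mul_pos (lt_of_le_of_ne (I.v0 i p hp) h.symm) (H.B1_pos t.S i y)
    linarith

theorem Hyp.cardS (H : d.Hyp) (S : Finset V) : (#S : ℝ) ≤ d.n := by
  rw [H.hn]; exact_mod_cast card_le_univ S

theorem Hyp.Gr_le (H : d.Hyp) (S : Finset V) (i : Row V P) : d.Gr S i ≤ d.C := by
  have hW := H.W1
  have hκ := H.κ0
  have hn := H.n0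
  have hb := H.b0
  have hΔ := H.Δ0
  have hθ := H.θ0
  have a1 : ∑ _w ∈ S, 8 * d.W * d.κ / d.n ≤ 8 * d.W * d.κ := by
    rw [sum_const, nsmul_eq_mul]
    refine (mul_le_mul_of_nonneg_right (H.cardS S) (by positivity)).trans (le_of_eq ?_)
    field_simp
  have a2 : ∑ w ∈ S, (if w ∈ d.Nr i then 4 * d.b else 0) ≤ 8 * d.B := by
    have := sum_ite_le S (d.Nr i) (fun _ => 4 * d.b) (by positivity) fun _ => le_rfl
    nlinarith [H.dNr i, H.bB]
  have a3 : ∑ w ∈ S, (#(d.Nr i ∩ d.N w) : ℝ) ≤ d.θ * (2 * d.θ) :=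
    (dbl S (d.Nr i) _ (fun _ _ => inter_subset_left) fun y _ =>
      H.colN S y _ fun w _ hw => (mem_inter.1 hw).2).trans
      (mul_le_mul_of_nonneg_left (H.dNr i) hθ.le)
  have a4 : 2 * d.b * d.Δ * d.W * d.κ / d.n * (d.θ * (2 * d.θ)) ≤ 12 * d.B * d.W * d.κ := by
    rw [div_mul_eq_mul_div, div_le_iff₀ hn]
    have := mul_le_mul H.bB H.θΔ (by positivity) H.B_0
    have := mul_le_mul_of_nonneg_left this (show 0 ≤ 4 * d.W * d.κ by positivity)
    nlinarith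
  have a5 := mul_le_mul_of_nonneg_left a3
    (show 0 ≤ 2 * d.b * d.Δ * d.W * d.κ / d.n by positivity)
  simp only [Gr, dG, sum_add_distrib, ← mul_sum]
  linarith [H.C1]

theorem Inv.Gc_le (I : d.Inv t) (H : d.Hyp) (p : P) : d.Gc t p ≤ d.C := by
  have hW := H.W1
  have hn := H.n0
  have hB := H.B_0
  have a1 : (#{y ∈ t.S | t.f y ∈ d.M p} : ℝ) ≤ d.Δ := by
    refine le_trans ?_ (H.dM p)
    exact_mod_cast card_le_card_of_injOn t.f (fun y hy => (mem_filter.1 hy).2)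
      (I.inj.mono fun y hy => (mem_filter.1 hy).1)
  have a2 : ∑ w ∈ t.S, (#(d.lk t (d.N w) p) : ℝ) ≤ d.θ * d.Δ :=
    (dbl t.S {y ∈ t.S | t.f y ∈ d.M p} _
      (fun w _ y hy => mem_filter.2 ⟨(mem_lk.1 hy).1, (mem_lk.1 hy).2.2⟩) fun y _ =>
      H.colN t.S y _ fun w _ hw => (mem_lk.1 hw).2.1).trans
      (mul_le_mul_of_nonneg_left a1 H.θ0.le)
  have a3 : ∑ w ∈ t.S, (1 + (#(d.lk t (d.N w) p) : ℝ)) ≤ 4 * d.n := by
    rw [sum_add_distrib, sum_const, nsmul_eq_mul, mul_one]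
    linarith [H.cardS t.S, H.θΔ]
  refine (mul_le_mul_of_nonneg_left a3 (by positivity)).trans (le_trans (le_of_eq ?_) H.C2)
  field_simp
  ring

theorem Hyp.dev (H : d.Hyp) {x g s : ℝ} (hs : 0 < s) (h : wt d.Θ d.η d.μ (x / s) g < 1)
    (hg : g ≤ d.C) : |x| ≤ d.η * s := by
  have := abs_le_of_wt H.Θ0 h
    ((mul_le_mul_of_nonneg_left hg (mul_nonneg H.Θ0.le H.μ0.le)).trans H.ΘC)
  rwa [abs_div, abs_of_pos hs, div_le_iff₀ hs] at this

section pot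

theorem devX (H : d.Hyp) (h : d.Φ t < 1) (i : Row V P) : |t.X i - d.X0 i| ≤ d.η * d.sc i := by
  refine H.dev (H.sc0 i) (lt_of_le_of_lt ?_ h) (H.Gr_le t.S i)
  refine le_add_of_le_of_nonneg (single_le_sum (f := fun i => wt d.Θ d.η d.μ
    ((t.X i - d.X0 i) / d.sc i) (d.Gr t.S i)) (fun _ _ => (wt_pos ..).le) (mem_univ i)) ?_
  exact add_nonneg (sum_nonneg fun _ _ => (wt_pos ..).le) (sum_nonneg fun _ _ => (wt_pos ..).le)

theorem Inv.devY (I : d.Inv t) (H : d.Hyp) {p : P} (hp : p ∈ t.F) :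
    |d.Y t p - (d.n - #d.U)| ≤ d.η * d.n := by
  refine H.dev H.n0 (lt_of_le_of_lt ?_ I.pot) (I.Gc_le H p)
  refine le_add_of_nonneg_of_le (sum_nonneg fun _ _ => (wt_pos ..).le)
    (le_add_of_le_of_nonneg ?_ (sum_nonneg fun _ _ => (wt_pos ..).le))
  exact single_le_sum (f := fun p => wt d.Θ d.η d.μ ((d.Y t p - (d.n - #d.U)) / d.n) (d.Gc t p))
    (fun _ _ => (wt_pos ..).le) hp

theorem Inv.devZ (I : d.Inv t) (H : d.Hyp) {p : P} (hp : p ∈ t.F) :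
    |d.Z t p - #d.U| ≤ d.η * d.n := by
  refine H.dev H.n0 (lt_of_le_of_lt ?_ I.pot) (I.Gc_le H p)
  refine le_add_of_nonneg_of_le (sum_nonneg fun _ _ => (wt_pos ..).le)
    (le_add_of_nonneg_of_le (sum_nonneg fun _ _ => (wt_pos ..).le) ?_)
  exact single_le_sum (f := fun p => wt d.Θ d.η d.μ ((d.Z t p - #d.U) / d.n) (d.Gc t p))
    (fun _ _ => (wt_pos ..).le) hp

end pot

theorem Inv.σm (I : d.Inv t) (H : d.Hyp) {p : P} (hp : p ∈ t.F) :
    0 < t.σ p ∧ (#d.U : ℝ) ≤ 2 * d.n * t.σ p := by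
  have a1 : t.c p ≤ d.Y t p := le_add_of_nonneg_right (sum_nonneg fun w _ => I.v0 _ p hp)
  have a2 := (abs_le.1 (I.devY H hp)).2
  have a3 := I.hi p hp
  have a4 := H.hm
  have a5 : (#d.U : ℝ) / 2 ≤ (1 - d.η) * (d.n * t.σ p) := by nlinarith
  have a6 : 0 < d.n * t.σ p := by
    have : 0 < (1 - d.η) * (d.n * t.σ p) := by linarith [H.m0]
    exact (mul_pos_iff_of_pos_left (by linarith [H.η1])).1 this
  exact ⟨(mul_pos_iff_of_pos_left H.n0).1 a6, by nlinarith [H.η0]⟩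

theorem Inv.σ0 (I : d.Inv t) (H : d.Hyp) {p : P} (hp : p ∈ t.F) : 0 < t.σ p := (I.σm H hp).1

theorem Inv.σκ (I : d.Inv t) (H : d.Hyp) {p : P} (hp : p ∈ t.F) : 1 ≤ d.κ * t.σ p := by
  have a1 := mul_le_mul_of_nonneg_left (I.σm H hp).2 H.κ0.le
  have a2 : 2 * d.n * 1 ≤ 2 * d.n * (d.κ * t.σ p) := by nlinarith [H.hκ]
  exact le_of_mul_le_mul_left a2 (by linarith [H.n0])

theorem Inv.vσ0 (I : d.Inv t) (H : d.Hyp) (i : Row V P) {p : P} (hp : p ∈ t.F) :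
    0 ≤ t.v i p / t.σ p := div_nonneg (I.v0 i p hp) (I.σ0 H hp).le

theorem Inv.vσ (I : d.Inv t) (H : d.Hyp) (i : Row V P) {p : P} (hp : p ∈ t.F) :
    t.v i p / t.σ p ≤ d.W * d.κ := by
  rw [div_le_iff₀ (I.σ0 H hp), mul_assoc]
  exact (I.vW H i hp).trans (le_mul_of_one_le_right (by linarith [H.W1]) (I.σκ H hp))

theorem Inv.X_le (I : d.Inv t) (H : d.Hyp) (i : Row V P) : t.X i ≤ (1 + d.η) * d.sc i := by
  linarith [(abs_le.1 (devX H I.pot i)).2, H.X0_le i]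

theorem Inv.X_ge (I : d.Inv t) (H : d.Hyp) (u : V) : (1 - d.η) * d.n ≤ t.X (row u) := by
  have := (abs_le.1 (devX H I.pot (row u))).1
  rw [sc_row, show d.X0 (row u) = d.n from H.X0_inl _] at this
  linarith

theorem Inv.X_pos (I : d.Inv t) (H : d.Hyp) (u : V) : 0 < t.X (row u) :=
  lt_of_lt_of_le (mul_pos (by linarith [H.η1]) H.n0) (I.X_ge H u)

/-- weighted number of free positions next to `p0` -/
theorem Inv.Dsum (I : d.Inv t) (H : d.Hyp) (p0 : P) :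
    ∑ q ∈ t.F, (if q ∈ d.M p0 then 1 / t.σ q else 0) ≤ (1 + d.η) * d.Δ := by
  refine le_trans (le_of_eq (sum_congr rfl fun q hq => ?_)) (I.X_le H (Sum.inr (some p0)))
  rw [I.inr _ q hq]
  simp only [Dat.v0]
  split_ifs <;> simp

theorem Inv.π0 (I : d.Inv t) (H : d.Hyp) (z : V) {q : P} (hq : q ∈ t.F) : 0 ≤ t.π z q :=
  div_nonneg (I.vσ0 H _ hq) (I.X_pos H z).le

theorem Inv.πsum (I : d.Inv t) (H : d.Hyp) (z : V) : ∑ q ∈ t.F, t.π z q = 1 := by
  simp only [St.π]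
  rw [← sum_div]
  exact div_self (I.X_pos H z).ne'

theorem Inv.πh (I : d.Inv t) (H : d.Hyp) (z : V) {q : P} (hq : q ∈ t.F) :
    t.π z q ≤ 2 * d.W * d.κ / d.n := by
  have h1 := I.vσ H (row z) hq
  have h2 := I.X_ge H z
  have h3 : 0 ≤ d.W * d.κ := mul_nonneg (by linarith [H.W1]) H.κ0.le
  have h4 : d.n ≤ 2 * t.X (row z) := by nlinarith [H.η1, H.n0]
  rw [St.π, div_le_div_iff₀ (I.X_pos H z) H.n0]
  nlinarith [H.n0]

theorem Inv.πη (I : d.Inv t) (H : d.Hyp) (z : V) {q : P} (hq : q ∈ t.F) : t.π z q ≤ d.η :=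
  (I.πh H z hq).trans ((div_le_iff₀ H.n0).2 H.hh)

theorem Inv.πerase (I : d.Inv t) (H : d.Hyp) (z : V) {p : P} (hp : p ∈ t.F) :
    ∑ q ∈ t.F.erase p, t.π z q = 1 - t.π z p := by
  rw [← I.πsum H z, ← add_sum_erase _ _ hp]; ring

end Dat

end Nib67
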