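import Mathlib

/-! Balanced colouring of the vertices and the reserved set. -/

namespace Nib67

open Finset

variable {V : Type} [Fintype V] [DecidableEq V]

/-- exponential moment of the number of members of `A` with colour `j` -/
theorem col_moment {K : ℕ} (A : Finset V) (j : Fin K) {t : ℝ} (t0 : 0 ≤ t) (t1 : t ≤ 1) :
    ∑ χ : V → Fin K, Real.exp (t * #{w ∈ A | χ w = j}) ≤
      (K : ℝ) ^ Fintype.card V * Real.exp (#A * ((t + t ^ 2) / K)) := by
  have hK : (0 : ℝ) < K := by exact_mod_cast j.pos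
  have h1 : ∀ χ : V → Fin K, Real.exp (t * #{w ∈ A | χ w = j}) =
      ∏ w, (if w ∈ A ∧ χ w = j then Real.exp t else 1) := fun χ => by
    have : {w ∈ (univ : Finset V) | w ∈ A ∧ χ w = j} = {w ∈ A | χ w = j} := by ext w; simp
    rw [prod_ite, prod_const_one, mul_one, prod_const, ← Real.exp_nat_mul, mul_comm, this]
  have h2 : ∑ χ : V → Fin K, ∏ w, (if w ∈ A ∧ χ w = j then Real.exp t else 1) =
      ∏ w : V, ∑ c : Fin K, (if w ∈ A ∧ c = j then Real.exp t else 1) := by
    rw [prod_univ_sum, Fintype.piFinset_univ]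
  have h3 : Real.exp t ≤ 1 + t + t ^ 2 := by
    have := (abs_le.1 (Real.abs_exp_sub_one_sub_id_le (x := t) (by rwa [abs_of_nonneg t0]))).2
    linarith
  have h4 : ∀ w : V, ∑ c : Fin K, (if w ∈ A ∧ c = j then Real.exp t else 1) ≤
      K * Real.exp (if w ∈ A then (t + t ^ 2) / K else 0) := fun w => by
    by_cases hw : w ∈ A
    · simp only [hw, true_and, if_true]
      have h5 : ∀ c : Fin K, (if c = j then Real.exp t else 1) =
          1 + (if c = j then Real.exp t - 1 else 0) := fun c => by split_ifs <;> ring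
      rw [sum_congr rfl fun c _ => h5 c, sum_add_distrib, sum_ite_eq']
      have h6 := mul_le_mul_of_nonneg_left (Real.add_one_le_exp ((t + t ^ 2) / K)) hK.le
      have h7 : (K : ℝ) * ((t + t ^ 2) / K + 1) = t + t ^ 2 + K := by field_simp
      simp only [sum_const, card_univ, Fintype.card_fin, nsmul_eq_mul, mul_one, mem_univ, if_true]
      linarith
    · simp [hw]
  rw [sum_congr rfl fun χ _ => h1 χ, h2]
  refine (prod_le_prod (fun w _ => sum_nonneg fun c _ => ?_) fun w _ => h4 w).trans (le_of_eq ?_)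
  · split_ifs
    exacts [(Real.exp_pos t).le, zero_le_one]
  · rw [prod_mul_distrib, prod_const, card_univ, ← Real.exp_sum, ← sum_filter, filter_mem_eq_inter,
      univ_inter, sum_const, nsmul_eq_mul]

/-- a colouring that splits every neighbourhood almost evenly -/
theorem colour (N : V → Finset V) {θ η : ℝ} {K : ℕ} (dN : ∀ u, (#(N u) : ℝ) ≤ θ) (θ0 : 0 ≤ θ)
    (η0 : 0 < η) (η1 : η ≤ 1) (hK : 0 < K)
    (h : Fintype.card V * K * Real.exp (-(η ^ 2 * θ / (16 * K))) < 1) :
    ∃ χ : V → ℕ, (∀ w, χ w < K) ∧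
      ∀ u j, (#{w ∈ N u | χ w = j} : ℝ) ≤ #(N u) / K + η * θ / (2 * K) := by
  have hK' : (0 : ℝ) < K := by exact_mod_cast hK
  set t := η / 4 with ht
  have t0 : 0 < t := by positivity
  let F : (V → Fin K) → V × Fin K → ℝ := fun χ x =>
    Real.exp (t * #{w ∈ N x.1 | χ w = x.2}) *
      Real.exp (-(t * (#(N x.1) / K + η * θ / (2 * K))))
  have h1 : ∀ x : V × Fin K, ∑ χ : V → Fin K, F χ x ≤
      (K : ℝ) ^ Fintype.card V * Real.exp (-(η ^ 2 * θ / (16 * K))) := fun x => by
    simp only [F]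
    rw [← sum_mul]
    refine (mul_le_mul_of_nonneg_right (col_moment (N x.1) x.2 t0.le (by linarith))
      (Real.exp_pos _).le).trans ?_
    rw [mul_assoc, ← Real.exp_add]
    refine mul_le_mul_of_nonneg_left (Real.exp_le_exp.2 ?_) (by positivity)
    have h2 : (#(N x.1) : ℝ) * (t ^ 2 / K) ≤ θ * (t ^ 2 / K) :=
      mul_le_mul_of_nonneg_right (dN _) (by positivity)
    have h3 : (#(N x.1) : ℝ) * ((t + t ^ 2) / K) + -(t * (#(N x.1) / K + η * θ / (2 * K))) =
        #(N x.1) * (t ^ 2 / K) - t * (η * θ / (2 * K)) := by ring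
    have h4 : θ * (t ^ 2 / K) - t * (η * θ / (2 * K)) = -(η ^ 2 * θ / (16 * K)) := by
      rw [ht]; field_simp; ring
    linarith
  have h5 : ∑ χ : V → Fin K, ∑ x, F χ x < ∑ _χ : V → Fin K, (1 : ℝ) := by
    rw [sum_comm]
    refine (sum_le_sum fun x _ => h1 x).trans_lt ?_
    simp only [sum_const, card_univ, Fintype.card_prod, Fintype.card_fin, Fintype.card_pi,
      prod_const, nsmul_eq_mul, mul_one]
    push_cast
    have := mul_lt_mul_of_pos_left h (show (0 : ℝ) < (K : ℝ) ^ Fintype.card V by positivity)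
    linarith
  obtain ⟨χ, -, hχ⟩ := exists_lt_of_sum_lt h5
  refine ⟨fun w => χ w, fun w => (χ w).2, fun u j => ?_⟩
  by_cases hj : j < K
  · have h6 : F χ (u, ⟨j, hj⟩) < 1 :=
      (single_le_sum (f := F χ) (fun x _ => by simp only [F]; positivity) (mem_univ _)).trans_lt hχ
    simp only [F] at h6
    rw [← Real.exp_add, Real.exp_lt_one_iff] at h6
    have h7 : {w ∈ N u | (χ w : ℕ) = j} = {w ∈ N u | χ w = ⟨j, hj⟩} := by
      ext w; simp [Fin.ext_iff]
    rw [h7]
    exact le_of_mul_le_mul_left (by linarith) t0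
  · have h7 : {w ∈ N u | (χ w : ℕ) = j} = ∅ :=
      filter_eq_empty_iff.2 fun w _ hw => hj (hw ▸ (χ w).2)
    rw [h7, card_empty, Nat.cast_zero]
    positivity

/-- the reserved set: all heavy vertices and the eligible part of one colour class -/
theorem pickU (N : V → Finset V) (χ : V → ℕ) {θ : ℝ} {K : ℕ} (hK : 0 < K) (θ0 : 0 < θ)
    (Nsym : ∀ u v, u ∈ N v → v ∈ N u) (dN : ∀ u, (#(N u) : ℝ) ≤ θ)
    (ore : ∀ u, ∀ v ∈ N u, (#(N u) : ℝ) + #(N v) ≤ θ) (hχ : ∀ w, χ w < K)
    (hc : ∀ u j, (#{w ∈ N u | χ w = j} : ℝ) ≤ 2 * θ / K) :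
    ∃ U : Finset V, (∀ z ∉ U, (#(N z) : ℝ) ≤ θ / 2) ∧ (Fintype.card V : ℝ) ≤ 4 * K * #U ∧
      ∀ u ∈ U, (#(N u ∩ U) : ℝ) ≤ 3 * θ / K := by
  have hK' : (0 : ℝ) < K := by exact_mod_cast hK
  have hK1 : (1 : ℝ) ≤ K := by exact_mod_cast hK
  set H : Finset V := {u | θ / 2 < #(N u)} with hH
  set E : Finset V := {u | (#(N u ∩ H) : ℝ) ≤ θ / K} with hE
  -- vertices with many heavy neighbours are few
  have h1 : (#(univ \ E) : ℝ) ≤ K * #H := by
    have h2 : ∑ u ∈ univ \ E, (#(N u ∩ H) : ℝ) ≤ θ * #H := by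
      have h3 : ∀ u, (#(N u ∩ H) : ℝ) = ∑ y ∈ H, if y ∈ N u then (1 : ℝ) else 0 := fun u => by
        rw [sum_boole, filter_mem_eq_inter, inter_comm]
      rw [sum_congr rfl fun u _ => h3 u, sum_comm]
      refine (sum_le_sum fun y _ => ?_).trans
        (le_of_eq (by rw [sum_const, nsmul_eq_mul, mul_comm]))
      rw [sum_boole]
      refine le_trans ?_ (dN y)
      exact_mod_cast card_le_card fun u hu => Nsym _ _ (mem_filter.1 hu).2
    have h4 : ∑ _u ∈ univ \ E, θ / K ≤ ∑ u ∈ univ \ E, (#(N u ∩ H) : ℝ) :=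
      sum_le_sum fun u hu => by
        have := (mem_sdiff.1 hu).2
        simp only [hE, mem_filter, mem_univ, true_and, not_le] at this
        exact this.le
    rw [sum_const, nsmul_eq_mul] at h4
    have h5 : θ * #(univ \ E) ≤ θ * (K * #H) := by
      have := mul_le_mul_of_nonneg_left (h4.trans h2) hK'.le
      have h6 : (K : ℝ) * (#(univ \ E) * (θ / K)) = θ * #(univ \ E) := by field_simp
      linarith
    exact le_of_mul_le_mul_left h5 θ0
  -- the largest class inside `E`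
  obtain ⟨j, -, hj⟩ := exists_max_image (range K) (fun j => #{w ∈ E | χ w = j})
    ⟨0, mem_range.2 hK⟩
  have h7 : (#E : ℝ) ≤ K * #{w ∈ E | χ w = j} := by
    have h8 := card_eq_sum_card_fiberwise (s := E) (t := range K) (f := χ)
      fun w _ => mem_coe.2 (mem_range.2 (hχ w))
    have h9 := sum_le_card_nsmul _ _ _ hj
    rw [card_range, smul_eq_mul, ← h8] at h9
    exact_mod_cast h9
  refine ⟨H ∪ {w ∈ E | χ w = j}, fun z hz => ?_, ?_, fun u hu => ?_⟩
  · have := (not_or.1 (mem_union.not.1 hz)).1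
    simpa [hH] using this
  · have h10 : (#(univ \ E) : ℝ) + #E = Fintype.card V := by
      exact_mod_cast card_sdiff_add_card_eq_card (subset_univ E)
    have h11 : (#H : ℝ) ≤ #(H ∪ {w ∈ E | χ w = j}) := by
      exact_mod_cast card_le_card subset_union_left
    have h12 : (#{w ∈ E | χ w = j} : ℝ) ≤ #(H ∪ {w ∈ E | χ w = j}) := by
      exact_mod_cast card_le_card subset_union_right
    have h13 := mul_le_mul_of_nonneg_left h11 hK'.le
    have h14 := mul_le_mul_of_nonneg_left h12 hK'.le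
    have h15 : (0 : ℝ) ≤ K * #(H ∪ {w ∈ E | χ w = j}) := by positivity
    linarith
  · have h16 : (#(N u ∩ (H ∪ {w ∈ E | χ w = j})) : ℝ) ≤ #(N u ∩ H) + #{w ∈ N u | χ w = j} := by
      have : N u ∩ (H ∪ {w ∈ E | χ w = j}) ⊆ N u ∩ H ∪ {w ∈ N u | χ w = j} := fun w hw => by
        simp only [mem_inter, mem_union, mem_filter] at hw ⊢
        tauto
      exact_mod_cast (card_le_card this).trans (card_union_le _ _)
    have h17 : (#(N u ∩ H) : ℝ) ≤ θ / K := by
      rcases mem_union.1 hu with hu | hu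
      · have : N u ∩ H = ∅ := eq_empty_of_forall_notMem fun w hw => by
          have ha := (mem_filter.1 hu).2
          have hb := (mem_filter.1 (mem_inter.1 hw).2).2
          linarith [ore u w (mem_inter.1 hw).1]
        rw [this, card_empty, Nat.cast_zero]
        positivity
      · exact (mem_filter.1 (mem_filter.1 hu).1).2
    have h18 : θ / K + 2 * θ / K = 3 * θ / K := by ring
    linarith [hc u j]

/-- colouring and reserved set together -/
theorem colU (N : V → Finset V) {θ η : ℝ} {K : ℕ} (hK : 0 < K) (θ0 : 0 < θ) (η0 : 0 < η)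
    (η1 : η ≤ 1) (Nsym : ∀ u v, u ∈ N v → v ∈ N u) (dN : ∀ u, (#(N u) : ℝ) ≤ θ)
    (ore : ∀ u, ∀ v ∈ N u, (#(N u) : ℝ) + #(N v) ≤ θ)
    (h : Fintype.card V * K * Real.exp (-(η ^ 2 * θ / (16 * K))) < 1) :
    ∃ (χ : V → ℕ) (U : Finset V), (∀ w, χ w < K) ∧
      (∀ z ∉ U, ∀ j, (#{w ∈ N z | χ w = j} : ℝ) ≤ (1 + η) * θ / (2 * K)) ∧
      (Fintype.card V : ℝ) ≤ 4 * K * #U ∧ ∀ u ∈ U, (#(N u ∩ U) : ℝ) ≤ 3 * θ / K := by
  have hK' : (0 : ℝ) < K := by exact_mod_cast hK
  obtain ⟨χ, h1, h2⟩ := colour N dN θ0.le η0 η1 hK h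
  have h3 : η * θ / (2 * K) ≤ θ / K := by
    rw [div_le_div_iff₀ (by positivity) hK']
    have := mul_le_mul_of_nonneg_right η1 (show 0 ≤ θ * K by positivity)
    have : 0 ≤ θ * K := by positivity
    nlinarith
  obtain ⟨U, h4, h5, h6⟩ := pickU N χ hK θ0 Nsym dN ore h1 fun u j => by
    have h7 := div_le_div_of_nonneg_right (dN u) hK'.le
    have h8 : θ / K + θ / K = 2 * θ / K := by ring
    linarith [h2 u j]
  refine ⟨χ, U, h1, fun z hz j => ?_, h5, h6⟩
  have h7 := div_le_div_of_nonneg_right (h4 z hz) hK'.le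
  have h8 : θ / 2 / K + η * θ / (2 * K) = (1 + η) * θ / (2 * K) := by field_simp
  linarith [h2 z j]

end Nib67
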