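import Pool.Agent.Lib.MP_895a4b_co.NibPot

/-! Weighted random greedy embedding: data, state, one step, invariants. -/

set_option linter.unusedSectionVars false

namespace Nib67

open Finset

/-- the two graphs (as neighbourhood maps), the reserved set, the order, and the constants -/
structure Dat (V P : Type) where
  N : V → Finset V
  M : P → Finset P
  U : Finset V
  χ : V → ℕ
  s : V → ℝ
  n : ℝ
  θ : ℝ
  Δ : ℝ
  η : ℝ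
  β : ℝ
  b : ℝ
  B : ℝ
  W : ℝ
  κ : ℝ
  γ : ℝ
  r : ℝ
  Θ : ℝ
  μ : ℝ
  C : ℝ

/-- rows: pairs of vertices, the unit row, and one row for each position -/
abbrev Row (V P : Type) := (V × V) ⊕ Option P

/-- the row of a vertex -/
def row {V P : Type} (u : V) : Row V P := Sum.inl (u, u)

/-- placed vertices, free positions, embedding, weights, survival weights, used weight -/
structure St (V P : Type) where
  S : Finset V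
  F : Finset P
  f : V → P
  v : Row V P → P → ℝ
  σ : P → ℝ
  c : P → ℝ

variable {V P : Type} [Fintype V] [Fintype P] [DecidableEq V] [DecidableEq P]

namespace Dat

variable (d : Dat V P)

def Nr : Row V P → Finset V
  | Sum.inl x => d.N x.1 ∪ d.N x.2
  | Sum.inr _ => ∅

noncomputable def gr : Row V P → ℝ
  | Sum.inl x => if x.1 ∈ d.U then 0 else d.γ
  | Sum.inr _ => 0

noncomputable def v0 : Row V P → P → ℝ
  | Sum.inr (some p0), p => if p ∈ d.M p0 then 1 else 0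
  | Sum.inr none, _ => 1
  | Sum.inl _, _ => 1

noncomputable def sc : Row V P → ℝ
  | Sum.inr (some _) => d.Δ
  | Sum.inr none => d.n
  | Sum.inl _ => d.n

/-- placed members of `A` sitting next to `p` -/
def lk (t : St V P) (A : Finset V) (p : P) : Finset V := {y ∈ t.S | y ∈ A ∧ t.f y ∈ d.M p}

noncomputable def B0 (S : Finset V) (i : Row V P) : ℝ :=
  ∏ w ∈ S, (1 - if w ∈ d.Nr i then (1 - d.gr i) * d.β / d.s w else 0)

noncomputable def B1 (S : Finset V) (i : Row V P) (y : V) : ℝ :=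
  ∏ w ∈ S, (1 - ((if w ∈ d.Nr i then d.β / d.s w else 0) +
    if w ∈ d.N y then d.r * d.β / d.s w else 0))

end Dat

namespace St

variable (t : St V P)

noncomputable def X (i : Row V P) : ℝ := ∑ p ∈ t.F, t.v i p / t.σ p

noncomputable def π (z : V) (q : P) : ℝ := t.v (row z) q / t.σ q / t.X (row z)

end St

namespace Dat

variable (d : Dat V P) (t : St V P)

noncomputable def φ (z : V) (q : P) (i : Row V P) (p : P) : ℝ :=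
  if z ∈ d.Nr i ∧ q ∈ d.M p then
    (if d.lk t (d.Nr i) p = ∅ ∧ d.lk t (d.N z) q = ∅ then d.gr i else 0)
  else if Disjoint (d.lk t (d.Nr i) p) (d.lk t (d.N z) q) then 1 else 0

noncomputable def ee (z : V) (i : Row V P) (p : P) : ℝ :=
  ∑ q ∈ t.F.erase p, t.π z q * d.φ t z q i p

noncomputable def step (z : V) (q : P) : St V P where
  S := insert z t.S
  F := t.F.erase q
  f := Function.update t.f z q
  v := fun i p => t.v i p * d.φ t z q i p * (1 - t.π z p) / d.ee t z i p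
  σ := fun p => t.σ p * (1 - t.π z p)
  c := fun p => t.c p + t.v (row z) p

noncomputable def X0 (i : Row V P) : ℝ := ∑ p, d.v0 i p

noncomputable def Y (p : P) : ℝ := t.c p + ∑ w ∈ (univ \ d.U) \ t.S, t.v (row w) p

noncomputable def Z (p : P) : ℝ := ∑ u ∈ d.U, t.v (row u) p

noncomputable def dG (i : Row V P) (w : V) : ℝ :=
  8 * d.W * d.κ / d.n + (if w ∈ d.Nr i then 4 * d.b else 0) +
    2 * d.b * d.Δ * d.W * d.κ / d.n * #(d.Nr i ∩ d.N w)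

noncomputable def Gr (S : Finset V) (i : Row V P) : ℝ := ∑ w ∈ S, d.dG i w

noncomputable def Gc (p : P) : ℝ :=
  2 * d.W * d.B / d.n * ∑ w ∈ t.S, (1 + (#(d.lk t (d.N w) p) : ℝ))

noncomputable def Φ : ℝ :=
  ∑ i, wt d.Θ d.η d.μ ((t.X i - d.X0 i) / d.sc i) (d.Gr t.S i) +
    (∑ p ∈ t.F, wt d.Θ d.η d.μ ((d.Y t p - (d.n - #d.U)) / d.n) (d.Gc t p) +
      ∑ p ∈ t.F, wt d.Θ d.η d.μ ((d.Z t p - #d.U) / d.n) (d.Gc t p))

/-- standing assumptions -/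
structure Hyp : Prop where
  hn : d.n = Fintype.card V
  hP : Fintype.card P = Fintype.card V
  Nsym : ∀ u v, u ∈ d.N v → v ∈ d.N u
  Nirr : ∀ u, u ∉ d.N u
  Msym : ∀ p q, p ∈ d.M q → q ∈ d.M p
  dN : ∀ u, (#(d.N u) : ℝ) ≤ d.θ
  dM : ∀ p, (#(d.M p) : ℝ) ≤ d.Δ
  n0 : 0 < d.n
  θ0 : 0 < d.θ
  Δ0 : 0 < d.Δ
  θΔ : d.θ * d.Δ ≤ 3 * d.n
  η0 : 0 < d.η
  η1 : d.η ≤ 1 / 8
  β0 : 0 ≤ d.β
  hβ : (1 + d.η) * d.Δ ≤ d.β * (1 - d.η) ^ 2 * d.n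
  s0 : ∀ w, 0 < d.s w
  sb : ∀ w, d.β ≤ d.b * d.s w
  b0 : 0 ≤ d.b
  b1 : d.b ≤ 1 / 8
  bB : d.b * d.θ ≤ d.B
  hW : Real.exp (6 * d.B) ≤ d.W
  γ0 : 0 ≤ d.γ
  r0 : 0 ≤ d.r
  rγ : d.r ≤ 1 - d.γ
  hκ : 2 * d.n ≤ d.κ * #d.U
  hm : 4 * d.η * d.n ≤ #d.U
  hh : 2 * d.W * d.κ ≤ d.η * d.n
  μ1 : 2 * d.W * d.κ * (1 + 2 * d.Δ) ≤ d.μ * d.n
  μ2 : 2 * d.W * d.κ ≤ d.μ * d.Δ
  μ3 : 4 * d.W * d.θ ≤ d.μ * d.n
  Θ0 : 0 < d.Θ
  Θμ : d.Θ * d.μ ≤ 1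
  ΘC : d.Θ * d.μ * d.C ≤ d.η / 2
  C1 : 8 * d.W * d.κ + 8 * d.B + 12 * d.B * d.W * d.κ ≤ d.C
  C2 : 8 * d.W * d.B ≤ d.C
  Φ0 : 2 * (d.n ^ 2 + 3 * d.n + 1) * Real.exp (-(d.Θ * d.η / 2)) < 1
  H0 : ∀ z ∉ d.U, ∀ S : Finset V, (∀ w ∈ S, w ∉ d.U ∧ d.χ w ≤ d.χ z) → d.s z ≤ d.B0 S (row z)
  H1 : ∀ z ∉ d.U, ∀ y ∉ d.U, ∀ S : Finset V, (∀ w ∈ S, w ∉ d.U ∧ d.χ w ≤ d.χ z) →
    d.γ * d.s z ≤ d.r * d.B1 S (row z) y

/-- assumptions for the last stage -/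
structure HypE (e : ℝ) : Prop where
  e1 : 1 ≤ e
  dU : ∀ u ∈ d.U, (#(d.N u ∩ d.U) : ℝ) ≤ e
  D1 : d.n ≤ 4 * d.Δ * #d.U
  eD : 8192 * d.W ^ 3 * e * d.Δ < d.n
  ηB : 2048 * d.W ^ 3 * (d.η * (5 + 4 * d.B)) ≤ 1
  bad : 4 * d.W * d.θ ≤ d.η ^ 2 * #d.U

/-- invariants of the process -/
structure Inv : Prop where
  sub : ∀ w ∈ t.S, w ∉ d.U
  ord : ∀ w ∈ t.S, ∀ z ∉ t.S, z ∉ d.U → d.χ w ≤ d.χ z
  card : #t.F + #t.S = Fintype.card V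
  inj : Set.InjOn t.f t.S
  out : ∀ y ∈ t.S, t.f y ∉ t.F
  v0 : ∀ i, ∀ p ∈ t.F, 0 ≤ t.v i p
  ent : ∀ i, ∀ p ∈ t.F, t.v i p ≠ 0 →
    (d.lk t (d.Nr i) p = ∅ ∧ t.v i p * d.B0 t.S i ≤ 1) ∨
      ∃ y, d.lk t (d.Nr i) p = {y} ∧ d.lk t (d.N y) (t.f y) = ∅ ∧ t.v i p * d.B1 t.S i y ≤ d.gr i
  mat : ∀ y ∈ t.S, #(d.lk t (d.N y) (t.f y)) ≤ 1
  inr : ∀ o, ∀ p ∈ t.F, t.v (Sum.inr o) p = d.v0 (Sum.inr o) p
  pair : ∀ u ∈ d.U, ∀ u' ∈ d.U, ∀ p ∈ t.F, t.v (row u) p * t.v (row u') p *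
    (1 - d.b) ^ #(d.N u ∩ d.N u' ∩ t.S) ≤ t.v (Sum.inl (u, u')) p
  lo : ∀ p ∈ t.F, t.c p ≤ (1 + d.η) * d.n * (1 - t.σ p)
  hi : ∀ p ∈ t.F, (1 - d.η) * d.n * (1 - t.σ p) ≤ t.c p
  pot : d.Φ t < 1

end Dat

/-- double counting -/
theorem dbl {α β : Type*} [DecidableEq β] (s : Finset α) (T : Finset β) (t : α → Finset β) {k : ℝ}
    (h1 : ∀ a ∈ s, t a ⊆ T) (h2 : ∀ y ∈ T, (#{a ∈ s | y ∈ t a} : ℝ) ≤ k) :
    ∑ a ∈ s, (#(t a) : ℝ) ≤ k * #T := by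
  have h3 : ∀ a ∈ s, (#(t a) : ℝ) = ∑ y ∈ T, if y ∈ t a then (1 : ℝ) else 0 := fun a ha => by
    rw [sum_boole, filter_mem_eq_inter, inter_eq_right.2 (h1 a ha)]
  rw [sum_congr rfl h3, sum_comm]
  refine (sum_le_sum fun y hy => ?_).trans (le_of_eq (by rw [sum_const, nsmul_eq_mul, mul_comm]))
  rw [sum_boole]
  exact h2 y hy

theorem card_le_of_sub {α : Type*} {s t : Finset α} {k : ℝ} (h : s ⊆ t) (hk : (#t : ℝ) ≤ k) :
    (#s : ℝ) ≤ k := le_trans (by exact_mod_cast card_le_card h) hk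

namespace Dat

variable {d : Dat V P} {t : St V P}

@[simp] theorem Nr_row (u : V) : d.Nr (row u) = d.N u := by simp [row, Nr]

@[simp] theorem Nr_inr (o : Option P) : d.Nr (Sum.inr o) = ∅ := rfl

theorem gr_row (u : V) : d.gr (row u) = if u ∈ d.U then 0 else d.γ := rfl

theorem sc_row (u : V) : d.sc (row u) = d.n := rfl

theorem mem_lk {A : Finset V} {p : P} {y : V} :
    y ∈ d.lk t A p ↔ y ∈ t.S ∧ y ∈ A ∧ t.f y ∈ d.M p := by simp [lk]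

theorem Hyp.gr0 (H : d.Hyp) (i : Row V P) : 0 ≤ d.gr i := by
  rcases i with x | o
  · simp only [gr]; split_ifs; exacts [le_rfl, H.γ0]
  · exact le_rfl

theorem Hyp.grγ (H : d.Hyp) (i : Row V P) : d.gr i ≤ d.γ := by
  rcases i with x | o
  · simp only [gr]; split_ifs; exacts [H.γ0, le_rfl]
  · exact H.γ0

theorem Hyp.gr1 (H : d.Hyp) (i : Row V P) : d.gr i ≤ 1 := by linarith [H.grγ i, H.rγ, H.r0]

theorem Hyp.r1 (H : d.Hyp) : d.r ≤ 1 := by linarith [H.rγ, H.γ0]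

theorem Hyp.dNr (H : d.Hyp) (i : Row V P) : (#(d.Nr i) : ℝ) ≤ 2 * d.θ := by
  rcases i with x | o
  · have : (#(d.N x.1 ∪ d.N x.2) : ℝ) ≤ #(d.N x.1) + #(d.N x.2) := by
      exact_mod_cast card_union_le _ _
    simp only [Nr]
    linarith [H.dN x.1, H.dN x.2]
  · simp [H.θ0.le]

theorem Hyp.sc0 (H : d.Hyp) (i : Row V P) : 0 < d.sc i := by
  rcases i with x | _ | p
  exacts [H.n0, H.n0, H.Δ0]

theorem Hyp.X0_le (H : d.Hyp) (i : Row V P) : d.X0 i ≤ d.sc i := by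
  rcases i with x | _ | p
  · simp [X0, v0, sc, H.hn, H.hP]
  · simp [X0, v0, sc, H.hn, H.hP]
  · simpa [X0, v0, sc] using H.dM p

theorem Hyp.X0_inl (H : d.Hyp) (x : V × V) : d.X0 (Sum.inl x) = d.n := by
  simp [X0, v0, H.hn, H.hP]

theorem Hyp.B_0 (H : d.Hyp) : 0 ≤ d.B := le_trans (mul_nonneg H.b0 H.θ0.le) H.bB

theorem Hyp.W1 (H : d.Hyp) : 1 ≤ d.W :=
  le_trans (Real.one_le_exp (by linarith [H.B_0])) H.hW

theorem Hyp.m0 (H : d.Hyp) : (0 : ℝ) < #d.U :=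
  lt_of_lt_of_le (by have := H.η0; have := H.n0; positivity) H.hm

theorem Hyp.κ0 (H : d.Hyp) : 0 < d.κ := by
  by_contra h
  have := mul_nonpos_of_nonpos_of_nonneg (not_lt.1 h) H.m0.le
  linarith [H.hκ, H.n0]

theorem Hyp.μ0 (H : d.Hyp) : 0 < d.μ := by
  have h1 : 0 < d.μ * d.Δ :=
    lt_of_lt_of_le (by have := H.W1; have := H.κ0; positivity) H.μ2
  exact (mul_pos_iff_of_pos_right H.Δ0).1 h1

theorem Hyp.βs (H : d.Hyp) (w : V) : d.β / d.s w ≤ d.b := (div_le_iff₀ (H.s0 w)).2 (H.sb w)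

theorem Hyp.βs0 (H : d.Hyp) (w : V) : 0 ≤ d.β / d.s w := div_nonneg H.β0 (H.s0 w).le

theorem Hyp.colN (H : d.Hyp) (s : Finset V) (y : V) (p : V → Prop) [DecidablePred p]
    (h : ∀ w ∈ s, p w → y ∈ d.N w) : (#{w ∈ s | p w} : ℝ) ≤ d.θ :=
  card_le_of_sub (fun w hw => H.Nsym _ _ (h w (mem_filter.1 hw).1 (mem_filter.1 hw).2)) (H.dN y)

end Dat

end Nib67
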