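import Mathlib

/-! Endgame: a conflict-free perfect matching inside an expanding bipartite graph. -/

namespace Nib67

open Finset

open Classical in
theorem card_link {V P W : Type*} [Fintype V] [Fintype P] (s : Finset W) (t : W → Finset P)
    {d D : ℝ} (hs : (#s : ℝ) ≤ d) (ht : ∀ w, (#(t w) : ℝ) ≤ D) (hD : 0 ≤ D) :
    (#(s.biUnion t) : ℝ) ≤ d * D := by
  have h1 : (#(s.biUnion t) : ℝ) ≤ ∑ w ∈ s, (#(t w) : ℝ) := by exact_mod_cast card_biUnion_le
  refine h1.trans ((sum_le_sum fun w _ => ht w).trans ?_)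
  rw [sum_const, nsmul_eq_mul]
  exact mul_le_mul_of_nonneg_right hs hD

theorem card_sdiff_ge {W : Type*} [DecidableEq W] (s t : Finset W) :
    (#s : ℝ) - #t ≤ #(s \ t) := by
  have : #s ≤ #(s \ t) + #t := by simpa using card_le_card_sdiff_add_card (s := s) (t := t)
  have : (#s : ℝ) ≤ #(s \ t) + #t := by exact_mod_cast this
  linarith

theorem card_union_le' {W : Type*} [DecidableEq W] (s t : Finset W) {x y : ℝ} (hs : (#s : ℝ) ≤ x)
    (ht : (#t : ℝ) ≤ y) : (#(s ∪ t) : ℝ) ≤ x + y := by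
  have : (#(s ∪ t) : ℝ) ≤ #s + #t := by exact_mod_cast card_union_le s t
  linarith

open Classical in
theorem rot {V P : Type*} [Fintype V] [Fintype P] (hc : Fintype.card V = Fintype.card P)
    (a : V → V → Prop) (b : P → P → Prop) (H : V → P → Prop)
    (ha : ∀ u v, a u v → a v u) (hai : ∀ u, ¬ a u u) (hb : ∀ p q, b p q → b q p)
    {d D A : ℝ} (hd1 : 1 ≤ d) (hD1 : 1 ≤ D)
    (hd : ∀ u, (#{v | a u v} : ℝ) ≤ d) (hD : ∀ p, (#{q | b p q} : ℝ) ≤ D)
    (hrow : ∀ u, 2 * A ≤ #{p | H u p}) (hcol : ∀ p, 2 * A ≤ #{u | H u p})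
    (hA : 4 * (d * D) ≤ A)
    (hexp : ∀ (X : Finset V) (Y : Finset P), A ≤ #X → A ≤ #Y →
      ∃ x ∈ X, 2 * (d * D) < #{p ∈ Y | H x p}) :
    ∃ g : V ≃ P, (∀ u, H u (g u)) ∧ ∀ u v, a u v → ¬ b (g u) (g v) := by
  let bad : (V ≃ P) → Finset V := fun g => {w | ¬ H w (g w) ∨ ∃ w', a w w' ∧ b (g w) (g w')}
  obtain ⟨g, -, hg⟩ := exists_min_image (univ : Finset (V ≃ P)) (fun g => #(bad g))
    ⟨Fintype.equivOfCardEq hc, mem_univ _⟩
  suffices h : ∀ u, u ∉ bad g by
    refine ⟨g, fun u => ?_, fun u v h1 h2 => ?_⟩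
    · by_contra h1
      exact h u (by simp [bad, h1])
    · exact h u (by simp only [bad, mem_filter, mem_univ, true_and]; exact Or.inr ⟨v, h1, h2⟩)
  intro u hu
  have hdD : d ≤ d * D := le_mul_of_one_le_right (by linarith) hD1
  have hDd : D ≤ d * D := le_mul_of_one_le_left (by linarith) hd1
  have h1dD : 1 ≤ d * D := hd1.trans hdD
  have hpull : ∀ t : P → Prop, #{x | t (g x)} = #{p | t p} := fun t =>
    card_bijective g g.bijective (by simp)
  -- candidates for the new position of `u`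
  let E1 : Finset V := (({v | a u v} : Finset V) ∪ {u}) ∪ ({v | a u v} : Finset V).biUnion
    fun w => {x | b (g w) (g x)}
  have hE1 : (#E1 : ℝ) ≤ (d + 1) + d * D :=
    card_union_le' _ _ (card_union_le' _ _ (hd u) (by simp))
      (card_link (V := V) _ _ (hd u) (fun w => by rw [hpull (b (g w))]; exact hD _) (by linarith))
  let X : Finset V := ({x | H u (g x)} : Finset V) \ E1
  have hX : A ≤ #X := by
    have := card_sdiff_ge ({x | H u (g x)} : Finset V) E1
    rw [hpull (H u)] at this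
    linarith [hrow u]
  let E2 : Finset V := ((({v | a u v} : Finset V) ∪ {u}) ∪ ({y | b (g u) (g y)} : Finset V)) ∪
    ({w | b (g u) (g w)} : Finset V).biUnion fun w => {y | a w y}
  have hb1 : (#({y | b (g u) (g y)} : Finset V) : ℝ) ≤ D := by rw [hpull (b (g u))]; exact hD _
  have hE2 : (#E2 : ℝ) ≤ ((d + 1) + D) + D * d :=
    card_union_le' _ _ (card_union_le' _ _ (card_union_le' _ _ (hd u) (by simp)) hb1)
      (card_link (V := V) _ _ hb1 hd (by linarith))
  let B : Finset V := ({y | H y (g u)} : Finset V) \ E2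
  have hB : A ≤ #(B.map g.toEmbedding) := by
    have := card_sdiff_ge ({y | H y (g u)} : Finset V) E2
    rw [card_map]
    linarith [hcol (g u)]
  obtain ⟨x, hx, hxc⟩ := hexp X _ hX hB
  let E3 : Finset P := {g x} ∪ ({v | a x v} : Finset V).biUnion fun w => {p | b (g w) p}
  have hE3 : (#E3 : ℝ) ≤ 1 + d * D :=
    card_union_le' _ _ (by simp) (card_link (V := V) _ _ (hd x) (fun w => hD _) (by linarith))
  obtain ⟨p, hp⟩ : ({p ∈ B.map g.toEmbedding | H x p} \ E3).Nonempty := by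
    have := card_sdiff_ge {p ∈ B.map g.toEmbedding | H x p} E3
    have h2 : (0 : ℝ) < #({p ∈ B.map g.toEmbedding | H x p} \ E3) := by linarith
    exact card_pos.1 (by exact_mod_cast h2)
  simp only [mem_sdiff, mem_filter, mem_map, Equiv.coe_toEmbedding] at hp
  obtain ⟨⟨⟨y, hy, rfl⟩, hxy⟩, hy3⟩ := hp
  simp only [X, E1, mem_sdiff, mem_filter, mem_univ, true_and, mem_union, mem_singleton,
    mem_biUnion, not_or, not_exists, not_and] at hx
  simp only [B, E2, mem_sdiff, mem_filter, mem_univ, true_and, mem_union, mem_singleton,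
    mem_biUnion, not_or, not_exists, not_and] at hy
  simp only [E3, mem_filter, mem_univ, true_and, mem_union, mem_singleton,
    mem_biUnion, not_or, not_exists, not_and, EmbeddingLike.apply_eq_iff_eq] at hy3
  obtain ⟨hux, ⟨hax, hxu⟩, hx1⟩ := hx
  obtain ⟨hyu, ⟨⟨hay, hyu'⟩, hby⟩, hy1⟩ := hy
  obtain ⟨hyx, hy2⟩ := hy3
  let g' : V ≃ P := ((Equiv.swap u x).trans (Equiv.swap u y)).trans g
  have e1 : g' u = g x := by
    simp [g', Equiv.swap_apply_of_ne_of_ne hxu (Ne.symm hyx)]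
  have e2 : g' x = g y := by simp [g']
  have e3 : g' y = g u := by
    simp [g', Equiv.swap_apply_of_ne_of_ne hyu' hyx]
  have e4 : ∀ w, w ≠ u → w ≠ x → w ≠ y → g' w = g w := fun w h1 h2 h3 => by
    simp [g', Equiv.swap_apply_of_ne_of_ne h1 h2, Equiv.swap_apply_of_ne_of_ne h1 h3]
  have c1 : ∀ w, a u w → ¬ b (g' u) (g' w) := fun w h1 h2 => by
    have m1 : w ≠ u := by rintro rfl; exact hai _ h1
    have m2 : w ≠ x := by rintro rfl; exact hax h1
    have m3 : w ≠ y := by rintro rfl; exact hay h1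
    rw [e1, e4 w m1 m2 m3] at h2
    exact hx1 w h1 (hb _ _ h2)
  have c2 : ∀ w, a x w → ¬ b (g' x) (g' w) := fun w h1 h2 => by
    by_cases h3 : w = y
    · rw [h3, e2, e3] at h2
      exact hby (hb _ _ h2)
    have m1 : w ≠ u := by rintro rfl; exact hax (ha _ _ h1)
    have m2 : w ≠ x := by rintro rfl; exact hai _ h1
    rw [e2, e4 w m1 m2 h3] at h2
    exact hy2 w h1 (hb _ _ h2)
  have c3 : ∀ w, a y w → ¬ b (g' y) (g' w) := fun w h1 h2 => by
    by_cases h3 : w = x
    · subst h3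
      exact c2 y (ha _ _ h1) (hb _ _ h2)
    have m1 : w ≠ u := by rintro rfl; exact hay (ha _ _ h1)
    have m3 : w ≠ y := by rintro rfl; exact hai _ h1
    rw [e3, e4 w m1 h3 m3] at h2
    exact hy1 w h2 (ha _ _ h1)
  have hsub : bad g' ⊆ (bad g).erase u := by
    intro w hw
    simp only [bad, mem_filter, mem_univ, true_and] at hw
    have n1 : w ≠ u := by
      rintro rfl
      rcases hw with h | ⟨w', h1, h2⟩
      · exact h (e1 ▸ hux)
      · exact c1 w' h1 h2
    have n2 : w ≠ x := by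
      rintro rfl
      rcases hw with h | ⟨w', h1, h2⟩
      · exact h (e2 ▸ hxy)
      · exact c2 w' h1 h2
    have n3 : w ≠ y := by
      rintro rfl
      rcases hw with h | ⟨w', h1, h2⟩
      · exact h (e3 ▸ hyu)
      · exact c3 w' h1 h2
    refine mem_erase.2 ⟨n1, ?_⟩
    simp only [bad, mem_filter, mem_univ, true_and]
    rcases hw with h | ⟨w', h1, h2⟩
    · exact Or.inl (e4 w n1 n2 n3 ▸ h)
    · refine Or.inr ⟨w', h1, ?_⟩
      have m1 : w' ≠ u := by rintro rfl; exact c1 w (ha _ _ h1) (hb _ _ h2)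
      have m2 : w' ≠ x := by rintro rfl; exact c2 w (ha _ _ h1) (hb _ _ h2)
      have m3 : w' ≠ y := by rintro rfl; exact c3 w (ha _ _ h1) (hb _ _ h2)
      rwa [e4 w n1 n2 n3, e4 w' m1 m2 m3] at h2
  have h5 := card_le_card hsub
  have h6 := card_erase_lt_of_mem hu
  have h7 := hg g' (mem_univ _)
  omega

end Nib67
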