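import Pool.Agent.Lib.MP_895a4b_co.NibMart
import Pool.Agent.Lib.MP_895a4b_co.NibRot

/-! The last stage: the reserved vertices are placed without any conflict. -/

set_option linter.unusedSectionVars false

namespace Nib67

open Finset

variable {V P : Type} [Fintype V] [Fintype P] [DecidableEq V] [DecidableEq P]

theorem card_sub {α : Type*} (s : Finset α) (X : Finset s) (p : α → Prop) [DecidablePred p]
    (D : DecidablePred fun x : s => p x.1) :
    #(@filter _ _ D X) = #{x ∈ X.map (Function.Embedding.subtype _) | p x} := by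
  rw [filter_map, card_map]
  congr

theorem map_univ_sub {α : Type*} (s : Finset α) :
    (univ : Finset s).map (Function.Embedding.subtype _) = s := attach_map_val

theorem rot' (U : Finset V) (F : Finset P) (hc : #U = #F) (N : V → Finset V) (M : P → Finset P)
    (w : V → P → ℝ) (ha : ∀ u v, u ∈ N v → v ∈ N u) (hai : ∀ u, u ∉ N u)
    (hb : ∀ p q, p ∈ M q → q ∈ M p) {e D A : ℝ} (he1 : 1 ≤ e) (hD1 : 1 ≤ D)
    (he : ∀ u ∈ U, (#{v ∈ U | v ∈ N u} : ℝ) ≤ e) (hD : ∀ p ∈ F, (#{q ∈ F | q ∈ M p} : ℝ) ≤ D)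
    (hrow : ∀ u ∈ U, 2 * A ≤ #{p ∈ F | w u p ≠ 0}) (hcol : ∀ p ∈ F, 2 * A ≤ #{u ∈ U | w u p ≠ 0})
    (hA : 4 * (e * D) ≤ A)
    (hexp : ∀ X ⊆ U, ∀ Y ⊆ F, A ≤ #X → A ≤ #Y → ∃ x ∈ X, 2 * (e * D) < #{p ∈ Y | w x p ≠ 0}) :
    ∃ g : U ≃ F, (∀ u : U, w u (g u) ≠ 0) ∧ ∀ u v : U, v.1 ∈ N u → (g v).1 ∉ M (g u) := by
  refine rot (V := U) (P := F) (by simpa using hc) (fun u v => v.1 ∈ N u) (fun p q => q.1 ∈ M p)
    (fun u p => w u p ≠ 0) (fun u v => ha _ _) (fun u => hai _) (fun p q => hb _ _) he1 hD1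
    (fun u => ?_) (fun p => ?_) (fun u => ?_) (fun p => ?_) hA fun X Y hX hY => ?_
  · rw [card_sub U univ (fun v => v ∈ N u), map_univ_sub]; exact he u u.2
  · rw [card_sub F univ (fun q => q ∈ M p), map_univ_sub]; exact hD p p.2
  · rw [card_sub F univ (fun p => w u p ≠ 0), map_univ_sub]; exact hrow u u.2
  · rw [card_sub U univ (fun u => w u p ≠ 0), map_univ_sub]; exact hcol p p.2
  · obtain ⟨x, hx, h⟩ := hexp (X.map (Function.Embedding.subtype _))
      (fun x hx => by obtain ⟨y, -, rfl⟩ := mem_map.1 hx; exact y.2)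
      (Y.map (Function.Embedding.subtype _))
      (fun x hx => by obtain ⟨y, -, rfl⟩ := mem_map.1 hx; exact y.2)
      (by rwa [card_map]) (by rwa [card_map])
    obtain ⟨y, hy, rfl⟩ := mem_map.1 hx
    exact ⟨y, hy, by rw [card_sub F Y (fun p => w y p ≠ 0)]; exact h⟩

theorem sum_le_supp {α : Type*} (s : Finset α) (w g : α → ℝ) {k : ℝ} (h0 : ∀ a ∈ s, w a = 0 → g a ≤ 0)
    (h1 : ∀ a ∈ s, g a ≤ k) : ∑ a ∈ s, g a ≤ k * #{a ∈ s | w a ≠ 0} := by
  rw [mul_comm, ← nsmul_eq_mul, ← sum_const, sum_filter]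
  refine sum_le_sum fun a ha => ?_
  split_ifs with h
  exacts [h1 a ha, h0 a ha (not_not.1 h)]

namespace Dat

variable {d : Dat V P} {t : St V P} {e : ℝ}

theorem Inv.σup (I : d.Inv t) (H : d.Hyp) (hS : ∀ w ∉ d.U, w ∈ t.S) {p : P} (hp : p ∈ t.F) :
    d.n / (2 * #d.U) ≤ 1 / t.σ p := by
  have h1 : (univ \ d.U) \ t.S = ∅ :=
    sdiff_eq_empty_iff_subset.2 fun w hw => hS w (mem_sdiff.1 hw).2
  have h2 := (abs_le.1 (I.devY H hp)).1
  rw [Y, h1, sum_empty, add_zero] at h2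
  have h3 := mul_pos H.η0 (mul_pos H.n0 (I.σ0 H hp))
  rw [div_le_div_iff₀ (by linarith [H.m0]) (I.σ0 H hp)]
  nlinarith [I.lo p hp, H.hm, H.m0]

theorem Inv.vσ' (I : d.Inv t) (H : d.Hyp) (i : Row V P) {p : P} (hp : p ∈ t.F) :
    t.v i p / t.σ p ≤ d.W * (2 * d.n / #d.U) := by
  have h1 : 1 ≤ 2 * d.n / #d.U * t.σ p := by
    rw [div_mul_eq_mul_div, le_div_iff₀ H.m0, one_mul]; exact (I.σm H hp).2
  rw [div_le_iff₀ (I.σ0 H hp), mul_assoc]
  exact (I.vW H i hp).trans (le_mul_of_one_le_right (by linarith [H.W1]) h1)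

theorem Inv.term (I : d.Inv t) (H : d.Hyp) (E : d.HypE e) {u u' : V} (hu : u ∈ d.U)
    (hu' : u' ∈ d.U) : ∑ p ∈ t.F, (t.v (row u) p - 1) * (t.v (row u') p - 1) / t.σ p ≤
      d.η * (4 + 4 * d.B) * d.n +
        if d.η * d.θ < #(d.N u ∩ d.N u' ∩ t.S) then 4 * d.W * d.n else 0 := by
  have hn := H.n0
  have hη := H.η0
  have hη1 := H.η1
  have hB := H.B_0
  have hW := H.W1
  have h1 : ∑ p ∈ t.F, (t.v (row u) p - 1) * (t.v (row u') p - 1) / t.σ p =
      ∑ p ∈ t.F, t.v (row u) p * t.v (row u') p / t.σ p - t.X (row u) - t.X (row u') +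
        t.X (Sum.inr none) := by
    simp only [St.X, ← sum_sub_distrib, ← sum_add_distrib]
    refine sum_congr rfl fun p hp => ?_
    rw [I.inr none p hp, Dat.v0]; ring
  have h2 := I.X_ge H u
  have h3 := I.X_ge H u'
  have h4 : t.X (Sum.inr none) ≤ (1 + d.η) * d.n := I.X_le H _
  have h5 : 0 ≤ d.η * d.B * d.n := by positivity
  have h6 : 0 ≤ d.η * d.n := by positivity
  rw [h1]
  split_ifs with hc
  · have h7 : ∑ p ∈ t.F, t.v (row u) p * t.v (row u') p / t.σ p ≤ d.W * t.X (row u') := by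
      rw [St.X, mul_sum]
      refine sum_le_sum fun p hp => ?_
      rw [mul_div_assoc]
      exact mul_le_mul_of_nonneg_right (I.vW H _ hp) (I.vσ0 H _ hp)
    have h8 := mul_le_mul_of_nonneg_left (I.X_le H (row u')) (show 0 ≤ d.W by linarith)
    rw [sc_row] at h8
    have h9 := mul_le_mul_of_nonneg_right hη1 (show 0 ≤ d.W * d.n by positivity)
    have h10 := mul_le_mul_of_nonneg_right hW hn.le
    nlinarith
  · have h7 : 1 - d.η * d.B ≤ (1 - d.b) ^ #(d.N u ∩ d.N u' ∩ t.S) := by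
      have h8 := one_add_mul_le_pow (a := -d.b) (by linarith [H.b1]) #(d.N u ∩ d.N u' ∩ t.S)
      have h9 := mul_le_mul_of_nonneg_left (not_lt.1 hc) H.b0
      have h10 := mul_le_mul_of_nonneg_left H.bB hη.le
      rw [← sub_eq_add_neg] at h8
      nlinarith
    have h8 : (∑ p ∈ t.F, t.v (row u) p * t.v (row u') p / t.σ p) * (1 - d.η * d.B) ≤
        (1 + d.η) * d.n := by
      refine le_trans ?_ (I.X_le H (Sum.inl (u, u')))
      rw [sum_mul]
      refine sum_le_sum fun p hp => ?_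
      rw [div_mul_eq_mul_div]
      exact div_le_div_of_nonneg_right ((mul_le_mul_of_nonneg_left h7
        (mul_nonneg (I.v0 _ p hp) (I.v0 _ p hp))).trans (I.pair u hu u' hu' p hp)) (I.σ0 H hp).le
    have h9 : d.η * (5 + 4 * d.B) ≤ 1 := by
      have h10 : 1 ≤ 2048 * d.W ^ 3 := by linarith [one_le_pow₀ (n := 3) hW]
      exact (le_mul_of_one_le_left (by positivity) h10).trans E.ηB
    have h10 : (1 + d.η) * d.n ≤ (1 + d.η + 4 * (d.η * d.B)) * d.n * (1 - d.η * d.B) := by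
      have : d.η * d.B * d.n * (1 + d.η + 4 * (d.η * d.B)) ≤ d.η * d.B * d.n * 4 :=
        mul_le_mul_of_nonneg_left (by nlinarith) h5
      nlinarith
    have h11 := le_of_mul_le_mul_right (h8.trans h10) (by nlinarith)
    nlinarith

theorem Inv.second (I : d.Inv t) (H : d.Hyp) (E : d.HypE e) {X : Finset V} (hX : X ⊆ d.U) :
    2048 * d.W ^ 3 * ∑ p ∈ t.F, (∑ u ∈ X, (t.v (row u) p - 1)) ^ 2 / t.σ p ≤
      (#d.U : ℝ) ^ 2 * d.n := by
  have hn := H.n0
  have hη := H.η0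
  have hB := H.B_0
  have hW := H.W1
  have hθ := H.θ0
  have hm := H.m0
  have hXm : (#X : ℝ) ≤ #d.U := by exact_mod_cast card_le_card hX
  have h1 : ∑ p ∈ t.F, (∑ u ∈ X, (t.v (row u) p - 1)) ^ 2 / t.σ p =
      ∑ u ∈ X, ∑ u' ∈ X, ∑ p ∈ t.F, (t.v (row u) p - 1) * (t.v (row u') p - 1) / t.σ p := by
    simp only [sq, sum_mul_sum, sum_div]
    rw [sum_comm]
    exact sum_congr rfl fun u _ => sum_comm
  have h2 : ∀ u ∈ X, ∑ u' ∈ X, ∑ p ∈ t.F, (t.v (row u) p - 1) * (t.v (row u') p - 1) / t.σ p ≤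
      d.η * (5 + 4 * d.B) * d.n * #d.U := fun u hu => by
    refine (sum_le_sum fun u' hu' => I.term H E (hX hu) (hX hu')).trans ?_
    rw [sum_add_distrib, sum_const, nsmul_eq_mul, ← sum_filter, sum_const, nsmul_eq_mul]
    have h3 : ∑ u' ∈ X, (#(d.N u ∩ d.N u' ∩ t.S) : ℝ) ≤ d.θ * d.θ :=
      (dbl X (d.N u) _ (fun _ _ => inter_subset_left.trans inter_subset_left) fun y _ =>
        H.colN X y _ fun w _ hw => (mem_inter.1 (mem_inter.1 hw).1).2).trans
        (mul_le_mul_of_nonneg_left (H.dN u) hθ.le)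
    have h4 : (#{u' ∈ X | d.η * d.θ < #(d.N u ∩ d.N u' ∩ t.S)} : ℝ) * (d.η * d.θ) ≤ d.θ * d.θ := by
      rw [← nsmul_eq_mul, ← sum_const]
      exact (sum_le_sum fun u' hu' => (mem_filter.1 hu').2.le).trans
        ((sum_le_sum_of_subset_of_nonneg (filter_subset _ _) fun _ _ _ => by positivity).trans h3)
    generalize (#{u' ∈ X | d.η * d.θ < #(d.N u ∩ d.N u' ∩ t.S)} : ℝ) = k at h4 ⊢
    have h5 : k * d.η ≤ d.θ := le_of_mul_le_mul_right (by linarith) hθ
    have h6 : k * (4 * d.W) ≤ d.η * #d.U :=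
      le_of_mul_le_mul_right (by nlinarith [E.bad]) hη
    have h7 := mul_le_mul_of_nonneg_right h6 hn.le
    have h8 := mul_le_mul_of_nonneg_right hXm
      (show 0 ≤ d.η * (4 + 4 * d.B) * d.n by positivity)
    nlinarith
  have h3 := sum_le_sum h2
  rw [← h1, sum_const, nsmul_eq_mul] at h3
  have h4 := mul_le_mul_of_nonneg_right hXm
    (show 0 ≤ d.η * (5 + 4 * d.B) * d.n * #d.U by positivity)
  have h5 := mul_le_mul_of_nonneg_left (h3.trans h4) (show 0 ≤ 2048 * d.W ^ 3 by positivity)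
  have h6 := mul_le_mul_of_nonneg_right E.ηB (show 0 ≤ (#d.U : ℝ) ^ 2 * d.n by positivity)
  nlinarith

theorem Inv.expand (I : d.Inv t) (H : d.Hyp) (E : d.HypE e) (hS : ∀ w ∉ d.U, w ∈ t.S)
    {X : Finset V} (hX : X ⊆ d.U) {Y : Finset P} (hY : Y ⊆ t.F) (h1 : #d.U / (8 * d.W) ≤ #X)
    (h2 : #d.U / (8 * d.W) ≤ #Y) {k : ℝ} (hk : ∀ x ∈ X, #{p ∈ Y | t.v (row x) p ≠ 0} ≤ k) :
    #d.U ≤ 128 * d.W ^ 2 * k := by
  have hn := H.n0
  have hW := H.W1
  have hm := H.m0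
  have hW0 : 0 < d.W := by linarith
  rw [div_le_iff₀ (by positivity)] at h1 h2
  have ha : (0 : ℝ) < #X := by
    by_contra h
    nlinarith
  have h3 : ∑ p ∈ Y, ((#X : ℝ) ^ 2 * (d.n / (2 * #d.U)) -
      2 * #X * ∑ u ∈ X, t.v (row u) p / t.σ p) ≤
      ∑ p ∈ t.F, (∑ u ∈ X, (t.v (row u) p - 1)) ^ 2 / t.σ p := by
    refine (sum_le_sum fun p hp => ?_).trans (sum_le_sum_of_subset_of_nonneg hY fun p hp _ =>
      div_nonneg (sq_nonneg _) (I.σ0 H hp).le)
    have h4 := mul_le_mul_of_nonneg_left (I.σup H hS (hY hp)) (sq_nonneg (#X : ℝ))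
    have h5 := div_nonneg (sq_nonneg (∑ u ∈ X, t.v (row u) p)) (I.σ0 H (hY hp)).le
    rw [← sum_div, sum_sub_distrib, sum_const, nsmul_eq_mul, mul_one]
    have h6 : (∑ u ∈ X, t.v (row u) p - #X) ^ 2 / t.σ p = (∑ u ∈ X, t.v (row u) p) ^ 2 / t.σ p -
        2 * #X * ((∑ u ∈ X, t.v (row u) p) / t.σ p) + (#X : ℝ) ^ 2 * (1 / t.σ p) := by ring
    linarith
  have h4 : ∑ p ∈ Y, ∑ u ∈ X, t.v (row u) p / t.σ p ≤ #X * (d.W * (2 * d.n / #d.U) * k) := by
    rw [sum_comm, ← nsmul_eq_mul, ← sum_const]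
    refine sum_le_sum fun u hu => ?_
    exact (sum_le_supp Y (t.v (row u)) _ (fun p _ h => by simp [h])
      fun p hp => I.vσ' H _ (hY hp)).trans (mul_le_mul_of_nonneg_left (hk u hu) (by positivity))
  rw [sum_sub_distrib, sum_const, nsmul_eq_mul, ← mul_sum] at h3
  have h5 := mul_le_mul_of_nonneg_left h4 (show 0 ≤ 2 * (#X : ℝ) by positivity)
  have h6 := I.second H E hX
  generalize ∑ p ∈ t.F, (∑ u ∈ X, (t.v (row u) p - 1)) ^ 2 / t.σ p = Q at h3 h6
  generalize ∑ p ∈ Y, ∑ u ∈ X, t.v (row u) p / t.σ p = T at h3 h5 h4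
  generalize (#X : ℝ) = a at *
  generalize (#Y : ℝ) = y at *
  generalize (#d.U : ℝ) = m at *
  obtain ⟨x, hx⟩ : ∃ x, x = d.n / m := ⟨_, rfl⟩
  have hx0 : 0 < x := hx ▸ div_pos hn hm
  have e1 : d.n / (2 * m) = x / 2 := by rw [hx]; field_simp
  have e2 : 2 * d.n / m = 2 * x := by rw [hx]; ring
  have e3 : d.n = m * x := by rw [hx]; field_simp
  rw [e1] at h3
  rw [e2] at h5
  rw [e3] at h6
  have h7 : m ^ 2 ≤ (a * (8 * d.W)) ^ 2 := pow_le_pow_left₀ hm.le h1 2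
  have h8 : 32 * d.W * Q ≤ a ^ 2 * (m * x) := by
    have := mul_le_mul_of_nonneg_right h7 (show 0 ≤ m * x by positivity)
    exact le_of_mul_le_mul_left (by nlinarith) (show 0 < 64 * d.W ^ 2 by positivity)
  have h9 := mul_le_mul_of_nonneg_right h2 (show 0 ≤ a ^ 2 * x by positivity)
  have h10 := mul_le_mul_of_nonneg_left h3 (show 0 ≤ 32 * d.W by positivity)
  have h11 := mul_le_mul_of_nonneg_left h5 (show 0 ≤ 32 * d.W by positivity)
  exact le_of_mul_le_mul_left (by nlinarith) (show 0 < a ^ 2 * x by positivity)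

theorem endgame (H : d.Hyp) (E : d.HypE e) :
    ∃ g : V ≃ P, ∀ u, #{v ∈ d.N u | g v ∈ d.M (g u)} ≤ 1 := by
  obtain ⟨t, I, hS⟩ := H.run
  have hn := H.n0
  have hW := H.W1
  have hm := H.m0
  have hΔ := H.Δ0
  have hη1 := H.η1
  have he := E.e1
  have hW0 : 0 < d.W := by linarith
  have hc : #d.U = #t.F := by
    have h1 : t.S = univ \ d.U := by
      ext w; simpa using ⟨I.sub w, hS w⟩
    have h2 := I.card
    have h3 := card_le_univ d.U
    rw [h1, card_sdiff_of_subset (subset_univ _), card_univ] at h2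
    omega
  have hk : 1024 * d.W ^ 3 * (2 * (e * (4 * d.Δ * #d.U / d.n))) < #d.U := by
    have : 1024 * d.W ^ 3 * (2 * (e * (4 * d.Δ * #d.U / d.n))) =
        8192 * d.W ^ 3 * e * d.Δ * #d.U / d.n := by ring
    rw [this, div_lt_iff₀ hn, mul_comm (#d.U : ℝ)]
    exact mul_lt_mul_of_pos_right E.eD hm
  have hk0 : 0 ≤ 2 * (e * (4 * d.Δ * #d.U / d.n)) := by positivity
  have hW2 : d.W ≤ d.W ^ 2 := by nlinarith
  have hW3 : d.W ^ 2 ≤ d.W ^ 3 := by nlinarith
  obtain ⟨g, hg1, hg2⟩ := rot' d.U t.F hc d.N d.M (fun u p => t.v (row u) p) H.Nsym H.Nirr H.Msym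
    (D := 4 * d.Δ * #d.U / d.n) (A := #d.U / (8 * d.W)) he ((one_le_div hn).2 E.D1)
    (fun u hu => by rw [filter_mem_eq_inter, inter_comm]; exact E.dU u hu)
    (fun p _ => by
      have h1 := I.Dsum H p
      rw [← sum_filter] at h1
      have h2 := (sum_le_sum fun q hq => I.σup H hS (mem_filter.1 hq).1).trans h1
      rw [sum_const, nsmul_eq_mul, ← mul_div_assoc, div_le_iff₀ (by positivity)] at h2
      rw [le_div_iff₀ hn]
      nlinarith [mul_pos hΔ hm])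
    (fun u _ => by
      have h1 := (I.X_ge H u).trans (sum_le_supp t.F (t.v (row u)) _ (fun p _ h => by simp [h])
        fun p hp => I.vσ' H _ hp)
      rw [← mul_div_assoc, div_mul_eq_mul_div, le_div_iff₀ hm] at h1
      rw [← mul_div_assoc, div_le_iff₀ (by positivity)]
      have h2 : 0 ≤ (#{p ∈ t.F | t.v (row u) p ≠ 0} : ℝ) * d.W * d.n := by positivity
      exact le_of_mul_le_mul_right (by nlinarith [mul_pos hn hm]) hn)
    (fun p hp => by
      have h1 : d.Z t p ≤ _ := sum_le_supp d.U (fun u => t.v (row u) p) _ (fun u _ h => h.le)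
        fun u _ => I.vW H _ hp
      have h2 := (abs_le.1 (I.devZ H hp)).1
      rw [← mul_div_assoc, div_le_iff₀ (by positivity)]
      nlinarith [H.hm])
    (by rw [le_div_iff₀ (by positivity)]; nlinarith)
    (fun X hX Y hY h1 h2 => by
      by_contra h
      push Not at h
      have := I.expand H E hS hX hY h1 h2 h
      nlinarith)
  let G : V → P := fun w => if h : w ∈ d.U then (g ⟨w, h⟩).1 else t.f w
  have G1 : ∀ w (h : w ∈ d.U), G w = (g ⟨w, h⟩).1 := fun w h => dif_pos h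
  have G2 : ∀ w ∉ d.U, G w = t.f w := fun w h => dif_neg h
  have hinj : Function.Injective G := fun w w' h => by
    by_cases h1 : w ∈ d.U <;> by_cases h2 : w' ∈ d.U
    · rw [G1 w h1, G1 w' h2] at h
      exact congrArg Subtype.val (g.injective (Subtype.ext h))
    · rw [G1 w h1, G2 w' h2] at h
      exact (I.out w' (hS w' h2) (h ▸ (g _).2)).elim
    · rw [G2 w h1, G1 w' h2] at h
      exact (I.out w (hS w h1) (h ▸ (g _).2)).elim
    · rw [G2 w h1, G2 w' h2] at h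
      exact I.inj (hS w h1) (hS w' h2) h
  have hU : ∀ u ∈ d.U, ∀ v ∈ d.N u, G v ∉ d.M (G u) := fun u hu v hv h => by
    by_cases h1 : v ∈ d.U
    · rw [G1 u hu, G1 v h1] at h
      exact hg2 ⟨u, hu⟩ ⟨v, h1⟩ hv h
    · rw [G1 u hu, G2 v h1] at h
      have h2 := I.lk0 H (i := row u) (if_pos hu) (g ⟨u, hu⟩).2 (hg1 ⟨u, hu⟩)
      exact notMem_empty v (h2 ▸ mem_lk.2 ⟨hS v h1, by simpa using hv, h⟩)
  refine ⟨Equiv.ofBijective G ((Fintype.bijective_iff_injective_and_card G).2 ⟨hinj, H.hP.symm⟩),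
    fun u => ?_⟩
  simp only [Equiv.ofBijective_apply]
  by_cases hu : u ∈ d.U
  · rw [filter_eq_empty_iff.2 (hU u hu)]; simp
  · refine le_trans (card_le_card fun v hv => ?_) (I.mat u (hS u hu))
    obtain ⟨h1, h2⟩ := mem_filter.1 hv
    have h3 : v ∉ d.U := fun h3 => hU v h3 u (H.Nsym _ _ h1) (H.Msym _ _ h2)
    rw [G2 u hu, G2 v h3] at h2
    exact mem_lk.2 ⟨hS v h3, h1, h2⟩

end Dat

end Nib67
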