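import Pool.Agent.Lib.MP_895a4b_co.NibBasic

/-! The probability that an entry loses weight in one step. -/

set_option linter.unusedSectionVars false

namespace Nib67

open Finset

variable {V P : Type} [Fintype V] [Fintype P] [DecidableEq V] [DecidableEq P]

namespace Dat

variable {d : Dat V P} {t : St V P} {z : V}

theorem Hyp.φ0 (H : d.Hyp) (q : P) (i : Row V P) (p : P) : 0 ≤ d.φ t z q i p := by
  unfold φ; split_ifs <;> first | exact H.gr0 i | norm_num

theorem Hyp.φ1 (H : d.Hyp) (q : P) (i : Row V P) (p : P) : d.φ t z q i p ≤ 1 := by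
  unfold φ; split_ifs <;> first | exact H.gr1 i | norm_num

theorem Inv.entz (I : d.Inv t) (H : d.Hyp) (hS : z ∉ t.S) (hU : z ∉ d.U) {q : P} (hq : q ∈ t.F) :
    t.v (row z) q * d.s z ≤ 1 ∧ (d.lk t (d.N z) q ≠ ∅ → t.v (row z) q * d.s z ≤ d.r) := by
  have ho : ∀ w ∈ t.S, w ∉ d.U ∧ d.χ w ≤ d.χ z := fun w hw => ⟨I.sub w hw, I.ord w hw z hS hU⟩
  by_cases h : t.v (row z) q = 0
  · simp [h, H.r0]
  have h0 := I.v0 (row z) q hq
  rcases I.ent _ q hq h with ⟨h1, h2⟩ | ⟨y, h1, -, h2⟩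
  · rw [Nr_row] at h1
    exact ⟨(mul_le_mul_of_nonneg_left (H.H0 z hU _ ho) h0).trans h2, fun h3 => (h3 h1).elim⟩
  · have hy : y ∈ t.S := (mem_lk.1 (h1 ▸ mem_singleton_self y)).1
    have h3 := H.H1 z hU y (I.sub y hy) _ ho
    rw [gr_row, if_neg hU] at h2
    have h4 := mul_le_mul_of_nonneg_right h2 (H.s0 z).le
    have h5 : t.v (row z) q * d.s z ≤ d.r :=
      le_of_mul_le_mul_right (by nlinarith) (H.B1_pos t.S (row z) y)
    exact ⟨h5.trans H.r1, fun _ => h5⟩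

theorem Inv.mass (I : d.Inv t) (H : d.Hyp) (p p0 : P) (g : P → ℝ) {c : ℝ} (hc : 0 ≤ c)
    (hg : ∀ q ∈ t.F, t.v (row z) q * d.s z * g q ≤ if q ∈ d.M p0 then c else 0) :
    ∑ q ∈ t.F.erase p, t.π z q * g q ≤ (1 - d.η) * (c * d.β / d.s z) := by
  have hX := I.X_pos H z
  have hs := H.s0 z
  have hη : 0 < 1 - d.η := by linarith [H.η1]
  have h1 : ∀ q ∈ t.F, t.π z q * g q ≤
      c / (d.s z * t.X (row z)) * if q ∈ d.M p0 then 1 / t.σ q else 0 := fun q hq => by
    have hσ := I.σ0 H hq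
    have h2 : t.π z q * g q = t.v (row z) q * d.s z * g q / (d.s z * t.X (row z) * t.σ q) := by
      rw [St.π]; field_simp
    rw [h2]
    refine (div_le_div_of_nonneg_right (hg q hq) (by positivity)).trans (le_of_eq ?_)
    split_ifs
    · field_simp
    · simp
  refine (sum_le_sum fun q hq => h1 q (mem_of_mem_erase hq)).trans ?_
  refine (sum_le_sum_of_subset_of_nonneg (erase_subset p t.F) fun q hq _ => ?_).trans ?_
  · have hσ := I.σ0 H hq
    split_ifs <;> positivity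
  rw [← mul_sum]
  refine (mul_le_mul_of_nonneg_left (I.Dsum H p0) (by positivity)).trans ?_
  have h3 : (1 + d.η) * d.Δ ≤ d.β * (1 - d.η) * t.X (row z) := by
    have := mul_le_mul_of_nonneg_left (I.X_ge H z) (mul_nonneg H.β0 hη.le)
    nlinarith [H.hβ]
  refine (mul_le_mul_of_nonneg_left h3 (by positivity)).trans (le_of_eq ?_)
  field_simp

theorem Inv.ee_eq (I : d.Inv t) (H : d.Hyp) (i : Row V P) {p : P} (hp : p ∈ t.F) :
    d.ee t z i p = 1 - t.π z p - ∑ q ∈ t.F.erase p, t.π z q * (1 - d.φ t z q i p) := by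
  rw [← I.πerase H z hp, ← sum_sub_distrib]
  exact sum_congr rfl fun q _ => by ring

theorem Inv.ee_le (I : d.Inv t) (H : d.Hyp) (i : Row V P) {p : P} (hp : p ∈ t.F) :
    d.ee t z i p ≤ 1 - t.π z p := by
  rw [I.ee_eq H i hp]
  exact sub_le_self _ (sum_nonneg fun q hq =>
    mul_nonneg (I.π0 H z (mem_of_mem_erase hq)) (by linarith [H.φ1 (t := t) (z := z) q i p]))

theorem Inv.ee_ge (I : d.Inv t) (H : d.Hyp) (i : Row V P) {p : P} (hp : p ∈ t.F) {x : ℝ}
    (hx : 0 ≤ x) (h : ∑ q ∈ t.F.erase p, t.π z q * (1 - d.φ t z q i p) ≤ (1 - d.η) * x) :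
    (1 - t.π z p) * (1 - x) ≤ d.ee t z i p := by
  rw [I.ee_eq H i hp]
  nlinarith [I.πη H z hp]

theorem Inv.ee0 (I : d.Inv t) (H : d.Hyp) (hS : z ∉ t.S) (hU : z ∉ d.U) {i : Row V P} {p : P}
    (hp : p ∈ t.F) (h : d.lk t (d.Nr i) p = ∅) :
    (1 - t.π z p) * (1 - if z ∈ d.Nr i then (1 - d.gr i) * d.β / d.s z else 0) ≤ d.ee t z i p := by
  have hg := H.gr1 i
  split_ifs with hz
  · refine I.ee_ge H i hp (div_nonneg (mul_nonneg (by linarith) H.β0) (H.s0 z).le)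
      (I.mass H p p _ (by linarith) fun q hq => ?_)
    obtain ⟨h1, h2⟩ := I.entz H hS hU hq
    simp only [φ, hz, h, true_and, disjoint_empty_left, if_true]
    split_ifs with h3 h4
    · nlinarith
    · linarith [h2 h4, H.rγ, H.grγ i]
    · simp
  · refine I.ee_ge H i hp le_rfl (le_of_eq ?_)
    simp [φ, hz, h]

theorem Inv.ee1 (I : d.Inv t) (H : d.Hyp) (hS : z ∉ t.S) (hU : z ∉ d.U) {i : Row V P} {p : P}
    (hp : p ∈ t.F) {y : V} (h : d.lk t (d.Nr i) p = {y}) :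
    (1 - t.π z p) * (1 - ((if z ∈ d.Nr i then d.β / d.s z else 0) +
      if z ∈ d.N y then d.r * d.β / d.s z else 0)) ≤ d.ee t z i p := by
  refine I.ee_ge H i hp (H.loss _ _ z).1 ?_
  have h1 : ∑ q ∈ t.F.erase p, t.π z q * (if z ∈ d.Nr i ∧ q ∈ d.M p then 1 else 0) ≤
      (1 - d.η) * if z ∈ d.Nr i then d.β / d.s z else 0 := by
    split_ifs with hz
    · have := I.mass (z := z) H p p (fun q => if z ∈ d.Nr i ∧ q ∈ d.M p then 1 else 0)
        zero_le_one fun q hq => by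
          simp only [hz, true_and]
          split_ifs
          · linarith [(I.entz H hS hU hq).1]
          · simp
      rwa [one_mul] at this
    · simp [hz]
  have h2 : ∑ q ∈ t.F.erase p, t.π z q * (if y ∈ d.lk t (d.N z) q then 1 else 0) ≤
      (1 - d.η) * if z ∈ d.N y then d.r * d.β / d.s z else 0 := by
    split_ifs with hz
    · refine I.mass H p (t.f y) _ H.r0 fun q hq => ?_
      by_cases h3 : y ∈ d.lk t (d.N z) q
      · rw [if_pos h3, if_pos (H.Msym _ _ (mem_lk.1 h3).2.2), mul_one]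
        exact (I.entz H hS hU hq).2 (ne_empty_of_mem h3)
      · rw [if_neg h3, mul_zero]
        split_ifs
        exacts [H.r0, le_rfl]
    · refine le_of_eq ?_
      rw [mul_zero]
      exact sum_eq_zero fun q _ => by
        rw [if_neg fun h3 => hz (H.Nsym _ _ (mem_lk.1 h3).2.1), mul_zero]
  rw [mul_add]
  refine le_trans ?_ (add_le_add h1 h2)
  rw [← sum_add_distrib]
  refine sum_le_sum fun q hq => ?_
  rw [← mul_add]
  refine mul_le_mul_of_nonneg_left ?_ (I.π0 H z (mem_of_mem_erase hq))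
  simp only [φ, h, singleton_ne_empty, false_and, if_false, disjoint_singleton_left]
  split_ifs <;> norm_num

/-- uniform bound for the relative loss -/
noncomputable def xx (d : Dat V P) (t : St V P) (z : V) (i : Row V P) (p : P) : ℝ :=
  (if z ∈ d.Nr i then d.b else 0) + d.b * #(d.lk t (d.Nr i) p ∩ d.N z)

theorem Hyp.xx0 (H : d.Hyp) (i : Row V P) (p : P) : 0 ≤ d.xx t z i p := by
  have := H.b0
  unfold xx; split_ifs <;> positivity

theorem Inv.eex (I : d.Inv t) (H : d.Hyp) (hS : z ∉ t.S) (hU : z ∉ d.U) {i : Row V P} {p : P}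
    (hp : p ∈ t.F) (hv : t.v i p ≠ 0) :
    d.xx t z i p ≤ 1 / 4 ∧ (1 - t.π z p) * (1 - d.xx t z i p) ≤ d.ee t z i p := by
  have hπ : 0 ≤ 1 - t.π z p := by linarith [I.πη H z hp, H.η1]
  have h1 := H.βs z
  have h2 := H.βs0 z
  have h3 := H.b1
  have h4 := H.b0
  rcases I.ent i p hp hv with ⟨h, -⟩ | ⟨y, h, -, -⟩
  · refine ⟨?_, le_trans (mul_le_mul_of_nonneg_left ?_ hπ) (I.ee0 H hS hU hp h)⟩
    · simp only [xx, h, empty_inter, card_empty, Nat.cast_zero, mul_zero, add_zero]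
      split_ifs <;> linarith
    · simp only [xx, h, empty_inter, card_empty, Nat.cast_zero, mul_zero, add_zero, mul_div_assoc]
      split_ifs
      · nlinarith [H.gr0 i]
      · exact le_rfl
  · have h5 : (#({y} ∩ d.N z) : ℝ) = if z ∈ d.N y then 1 else 0 := by
      split_ifs with hz
      · rw [singleton_inter_of_mem (H.Nsym _ _ hz)]; simp
      · rw [singleton_inter_of_notMem fun h6 => hz (H.Nsym _ _ h6)]; simp
    refine ⟨?_, le_trans (mul_le_mul_of_nonneg_left ?_ hπ) (I.ee1 H hS hU hp h)⟩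
    · simp only [xx, h, h5]
      split_ifs <;> linarith
    · simp only [xx, h, h5, mul_div_assoc]
      have h6 := mul_le_mul_of_nonneg_right H.r1 h2
      split_ifs <;> linarith

theorem Inv.ee_half (I : d.Inv t) (H : d.Hyp) (hS : z ∉ t.S) (hU : z ∉ d.U) {i : Row V P} {p : P}
    (hp : p ∈ t.F) (hv : t.v i p ≠ 0) : 1 / 2 ≤ d.ee t z i p := by
  obtain ⟨h1, h2⟩ := I.eex H hS hU hp hv
  have h3 : 7 / 8 ≤ 1 - t.π z p := by linarith [I.πη H z hp, H.η1]
  have h4 := mul_le_mul h3 (show 3 / 4 ≤ 1 - d.xx t z i p by linarith) (by norm_num) (by linarith)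
  linarith

/-- at most one placed neighbour of `z` is in conflict with an admissible position -/
theorem Inv.lkz (I : d.Inv t) {q : P} (hq : q ∈ t.F) (hv : t.v (row z) q ≠ 0) :
    d.lk t (d.N z) q = ∅ ∨ ∃ y, d.lk t (d.N z) q = {y} ∧ d.lk t (d.N y) (t.f y) = ∅ := by
  rcases I.ent _ q hq hv with ⟨h, -⟩ | ⟨y, h, h', -⟩
  · exact Or.inl (by simpa using h)
  · exact Or.inr ⟨y, by simpa using h, h'⟩

theorem π_ne {q : P} (h : t.π z q ≠ 0) : t.v (row z) q ≠ 0 := fun h0 => h (by simp [St.π, h0])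

/-- entries that lose weight -/
theorem Inv.φ_ne (I : d.Inv t) (H : d.Hyp) {q : P} (hq : q ∈ t.F) (hv : t.v (row z) q ≠ 0) :
    ∃ y, ∀ i p, d.φ t z q i p ≠ 1 → (z ∈ d.Nr i ∧ p ∈ d.M q) ∨ (y ∈ d.Nr i ∧ p ∈ d.M (t.f y)) := by
  have key : ∀ y, d.lk t (d.N z) q ⊆ {y} → ∀ i p, d.φ t z q i p ≠ 1 →
      (z ∈ d.Nr i ∧ p ∈ d.M q) ∨ (y ∈ d.Nr i ∧ p ∈ d.M (t.f y)) := fun y hy i p h => by
    by_cases h1 : z ∈ d.Nr i ∧ q ∈ d.M p
    · exact Or.inl ⟨h1.1, H.Msym _ _ h1.2⟩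
    · rw [φ, if_neg h1] at h
      have h2 : ¬ Disjoint (d.lk t (d.Nr i) p) (d.lk t (d.N z) q) := fun h2 => h (if_pos h2)
      obtain ⟨w, h3, h4⟩ := not_disjoint_iff.1 h2
      obtain rfl := mem_singleton.1 (hy h4)
      exact Or.inr ⟨(mem_lk.1 h3).2.1, H.Msym _ _ (mem_lk.1 h3).2.2⟩
  rcases I.lkz hq hv with h | ⟨y, h, -⟩
  · exact ⟨z, key z (h ▸ empty_subset _)⟩
  · exact ⟨y, key y h.le⟩

end Dat

end Nib67
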