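import Pool.Agent.Lib.MP_895a4b_co.NibStep

/-! The potential does not increase on average; the process runs to the end. -/

set_option linter.unusedSectionVars false

namespace Nib67

open Finset

variable {V P : Type} [Fintype V] [Fintype P] [DecidableEq V] [DecidableEq P]

theorem sum_erase_comm (F : Finset P) (g : P → P → ℝ) :
    ∑ q ∈ F, ∑ p ∈ F.erase q, g q p = ∑ p ∈ F, ∑ q ∈ F.erase p, g q p :=
  sum_comm' fun q p => by
    simp only [mem_erase]
    exact ⟨fun h => ⟨⟨h.2.1.symm, h.1⟩, h.2.2⟩, fun h => ⟨h.1.2, h.1.1.symm, h.2⟩⟩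

namespace Dat

variable {d : Dat V P} {t : St V P} {z : V}

theorem Hyp.μsc (H : d.Hyp) (i : Row V P) {k : ℝ} (h0 : d.Nr i = ∅ → k ≤ 0) (h1 : k ≤ 2 * d.Δ) :
    2 * d.W * d.κ * (1 + k) ≤ d.μ * d.sc i := by
  have h2 : 0 ≤ 2 * d.W * d.κ := by have := H.W1; have := H.κ0; positivity
  have h3 := (mul_le_mul_of_nonneg_left (show 1 + k ≤ 1 + 2 * d.Δ by linarith) h2).trans H.μ1
  rcases i with x | _ | p
  · exact h3
  · exact h3
  · exact (mul_le_mul_of_nonneg_left (show 1 + k ≤ 1 by linarith [h0 rfl]) h2).trans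
      (by rw [mul_one]; exact H.μ2)

theorem Inv.row_step (I : d.Inv t) (H : d.Hyp) (hS : z ∉ t.S) (hU : z ∉ d.U) (i : Row V P) :
    ∑ q ∈ t.F, t.π z q * wt d.Θ d.η d.μ (((d.step t z q).X i - d.X0 i) / d.sc i)
      (d.Gr (d.step t z q).S i) ≤ wt d.Θ d.η d.μ ((t.X i - d.X0 i) / d.sc i) (d.Gr t.S i) := by
  have hsc := H.sc0 i
  have hWκ : 0 ≤ d.W * d.κ := mul_nonneg (by linarith [H.W1]) H.κ0.le
  obtain ⟨a, ha⟩ : ∃ a : P → ℝ, a = fun p => t.v i p / t.σ p / d.ee t z i p := ⟨_, rfl⟩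
  have a0 : ∀ p ∈ t.F, 0 ≤ a p := fun p hp => ha ▸ div_nonneg (I.vσ0 H i hp) (I.ee_nonneg H i p)
  have a1 : ∀ p ∈ t.F, a p * d.ee t z i p = t.v i p / t.σ p := fun p hp => by
    by_cases hv : t.v i p = 0
    · simp [ha, hv]
    · exact ha ▸ div_mul_cancel₀ _ (by linarith [I.ee_half H hS hU hp hv])
  have a2 : ∀ p ∈ t.F, a p ≤ 2 * (t.v i p / t.σ p) := fun p hp => by
    by_cases hv : t.v i p = 0
    · simp [ha, hv]
    · nlinarith [a1 p hp, a0 p hp, I.ee_half H hS hU hp hv]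
  have a3 : ∀ p ∈ t.F, a p ≤ 2 * d.W * d.κ := fun p hp => by linarith [a2 p hp, I.vσ H i hp]
  have hX : ∀ q, (d.step t z q).X i = ∑ p ∈ t.F.erase q, a p * d.φ t z q i p := fun q =>
    sum_congr rfl fun p hp => by
      have h1 := (I.π1 H z (mem_of_mem_erase hp)).ne'
      show t.v i p * d.φ t z q i p * (1 - t.π z p) / d.ee t z i p / (t.σ p * (1 - t.π z p)) = _
      rw [ha, div_div, div_eq_mul_inv, mul_inv, mul_inv]
      simp only [div_eq_mul_inv]
      linear_combination (t.v i p * d.φ t z q i p * (d.ee t z i p)⁻¹ * (t.σ p)⁻¹) *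
        mul_inv_cancel₀ h1
  refine wt_step t.F (t.π z) (fun q => (∑ p ∈ t.F, a p - (d.step t z q).X i) / d.sc i) _ _
    (E := (∑ p ∈ t.F, a p - t.X i) / d.sc i) (fun q hq => I.π0 H z hq) (I.πsum H z).le
    (fun q hq hπ => ?_) ?_ (fun q _ => by ring) (fun q _ => ?_) H.Θ0.le H.Θμ
  · have h1 : ∑ p ∈ t.F, a p - (d.step t z q).X i =
        a q + ∑ p ∈ t.F.erase q, a p * (1 - d.φ t z q i p) := by
      rw [hX, ← add_sum_erase _ _ hq, add_sub_assoc, ← sum_sub_distrib]
      congr 1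
      exact sum_congr rfl fun p _ => by ring
    rw [h1]
    refine ⟨div_nonneg (add_nonneg (a0 q hq) (sum_nonneg fun p hp => mul_nonneg
      (a0 p (mem_of_mem_erase hp)) (by linarith [H.φ1 (t := t) (z := z) q i p]))) hsc.le, ?_⟩
    obtain ⟨y, hy⟩ := I.φ_ne H hq (π_ne hπ)
    obtain ⟨T, hT⟩ : ∃ T : Finset P, T = if d.Nr i = ∅ then ∅ else d.M q ∪ d.M (t.f y) := ⟨_, rfl⟩
    have h2 : ∑ p ∈ t.F.erase q, a p * (1 - d.φ t z q i p) ≤ 2 * d.W * d.κ * #T := by
      refine le_trans (sum_le_sum fun p hp => ?_) (sum_ite_le (t.F.erase q) T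
        (fun _ => 2 * d.W * d.κ) (by linarith) fun _ => le_rfl)
      have h3 := mem_of_mem_erase hp
      split_ifs with h4
      · nlinarith [a0 p h3, a3 p h3, H.φ0 (t := t) (z := z) q i p]
      · have : d.φ t z q i p = 1 := by
          by_contra h5
          refine h4 ?_
          rcases hy i p h5 with h6 | h6
          · rw [hT, if_neg (ne_empty_of_mem h6.1)]; exact mem_union_left _ h6.2
          · rw [hT, if_neg (ne_empty_of_mem h6.1)]; exact mem_union_right _ h6.2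
        simp [this]
    have h3 := H.μsc i (k := #T) (fun h => by simp [hT, h]) (by
      rw [hT]
      split_ifs
      · simpa using H.Δ0.le
      · have : (#(d.M q ∪ d.M (t.f y)) : ℝ) ≤ #(d.M q) + #(d.M (t.f y)) := by
          exact_mod_cast card_union_le _ _
        linarith [H.dM q, H.dM (t.f y)])
    rw [div_le_iff₀ hsc]
    linarith [a3 q hq]
  · have h1 : ∑ q ∈ t.F, t.π z q * (d.step t z q).X i = t.X i := by
      simp only [hX, mul_sum]
      rw [sum_erase_comm]
      refine sum_congr rfl fun p hp => ?_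
      rw [← a1 p hp, ee, mul_sum]
      exact sum_congr rfl fun q _ => by ring
    simp only [mul_div_assoc', mul_sub]
    rw [← sum_div, sum_sub_distrib, ← sum_mul, h1, I.πsum H z, one_mul, one_mul]
  · show _ ≤ ∑ w ∈ insert z t.S, d.dG i w
    rw [sum_insert hS, add_comm, Gr]
    refine add_le_add_left ?_ _
    have hX2 : t.X i ≤ 2 * d.sc i := by nlinarith [I.X_le H i, H.η1]
    have hn := H.n0
    have hb := H.b0
    have h1 : ∀ p ∈ t.F, a p - t.v i p / t.σ p ≤
        (4 * d.W * d.κ / d.n + if z ∈ d.Nr i then 2 * d.b else 0) * (t.v i p / t.σ p) +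
          2 * d.b * d.W * d.κ * #(d.lk t (d.Nr i) p ∩ d.N z) := fun p hp => by
      have h2 := I.vσ0 H i hp
      by_cases hv : t.v i p = 0
      · simp only [ha, hv, zero_div, sub_zero, mul_zero, zero_add]
        have := H.κ0; have := H.W1; positivity
      have h3 := (I.eex H hS hU hp hv).2
      have h4 := H.xx0 (t := t) (z := z) i p
      have h5 := I.π0 H z hp
      have h6 : 1 - d.ee t z i p ≤ t.π z p + d.xx t z i p := by nlinarith [mul_nonneg h4 h5]
      have h7 : a p - t.v i p / t.σ p ≤ 2 * (t.v i p / t.σ p) * (t.π z p + d.xx t z i p) := by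
        have := mul_le_mul_of_nonneg_left h6 (a0 p hp)
        have := mul_le_mul_of_nonneg_right (a2 p hp) (add_nonneg h5 h4)
        nlinarith [a1 p hp]
      have h8 := mul_le_mul_of_nonneg_left (I.πh H z hp) h2
      have h9 := mul_le_mul_of_nonneg_right (I.vσ H i hp)
        (show 0 ≤ d.b * #(d.lk t (d.Nr i) p ∩ d.N z) by positivity)
      have h10 : 4 * d.W * d.κ / d.n = 2 * (2 * d.W * d.κ / d.n) := by ring
      rw [h10]
      unfold xx at h7
      split_ifs at h7 ⊢ <;> nlinarith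
    have h2 : ∑ p ∈ t.F, (#(d.lk t (d.Nr i) p ∩ d.N z) : ℝ) ≤ d.Δ * #(d.Nr i ∩ d.N z) :=
      dbl t.F _ _ (fun p _ y hy => mem_inter.2 ⟨(mem_lk.1 (mem_inter.1 hy).1).2.1,
        (mem_inter.1 hy).2⟩) fun y _ => card_le_of_sub (fun p hp =>
          H.Msym _ _ (mem_lk.1 (mem_inter.1 (mem_filter.1 hp).2).1).2.2) (H.dM (t.f y))
    have h3 := sum_le_sum h1
    rw [sum_sub_distrib, sum_add_distrib, ← mul_sum, ← mul_sum] at h3
    have h4 : (0 : ℝ) ≤ 4 * d.W * d.κ / d.n + if z ∈ d.Nr i then 2 * d.b else 0 := by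
      have := H.κ0; have := H.W1
      split_ifs <;> positivity
    have h5 := mul_le_mul_of_nonneg_left hX2 h4
    have h6 := mul_le_mul_of_nonneg_left h2
      (show 0 ≤ 2 * d.b * d.W * d.κ by have := H.κ0; have := H.W1; positivity)
    have h7 : 2 * d.b * d.Δ * d.W * d.κ / d.n * #(d.Nr i ∩ d.N z) * d.sc i =
        2 * d.b * d.W * d.κ * (d.Δ * #(d.Nr i ∩ d.N z)) := by
      rcases i with x | o
      · simp only [sc]; field_simp
      · simp
    have h8 : (8 * d.W * d.κ / d.n + if z ∈ d.Nr i then 4 * d.b else 0) * d.sc i =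
        (4 * d.W * d.κ / d.n + if z ∈ d.Nr i then 2 * d.b else 0) * (2 * d.sc i) := by
      split_ifs <;> ring
    rw [div_le_iff₀ hsc, dG, add_mul, h7, h8]
    unfold St.X at h5 ⊢
    linarith

theorem Inv.col_step (I : d.Inv t) (H : d.Hyp) (hS : z ∉ t.S) (hU : z ∉ d.U) (R : Finset V)
    {p : P} (hp : p ∈ t.F) (c : ℝ) :
    ∑ q ∈ t.F.erase p, t.π z q * wt d.Θ d.η d.μ
      ((c + ∑ w ∈ R, (d.step t z q).v (row w) p) / d.n) (d.Gc (d.step t z q) p) ≤
      wt d.Θ d.η d.μ ((c + ∑ w ∈ R, t.v (row w) p) / d.n) (d.Gc t p) := by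
  have hn := H.n0
  have hW := H.W1
  have hb := H.b0
  have hB := H.B_0
  have hπ := I.π1 H z hp
  have hπ0 := I.π0 H z hp
  obtain ⟨a, ha⟩ : ∃ a : V → ℝ, a = fun w => t.v (row w) p * (1 - t.π z p) / d.ee t z (row w) p :=
    ⟨_, rfl⟩
  have a0 : ∀ w, 0 ≤ a w := fun w =>
    ha ▸ div_nonneg (mul_nonneg (I.v0 _ p hp) hπ.le) (I.ee_nonneg H _ p)
  have a1 : ∀ w, a w * d.ee t z (row w) p = t.v (row w) p * (1 - t.π z p) := fun w => by
    by_cases hv : t.v (row w) p = 0
    · simp [ha, hv]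
    · exact ha ▸ div_mul_cancel₀ _ (by linarith [I.ee_half H hS hU hp hv])
  have a2 : ∀ w, a w ≤ 2 * d.W := fun w => by
    by_cases hv : t.v (row w) p = 0
    · simp only [ha, hv, zero_mul, zero_div]; linarith
    · nlinarith [a1 w, a0 w, I.ee_half H hS hU hp hv, I.vW H (row w) hp,
        mul_nonneg (I.v0 (row w) p hp) hπ0]
  have hv' : ∀ q w, (d.step t z q).v (row w) p = a w * d.φ t z q (row w) p := fun q w => by
    show t.v (row w) p * d.φ t z q (row w) p * (1 - t.π z p) / d.ee t z (row w) p = _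
    rw [ha]; ring
  refine wt_step (t.F.erase p) (t.π z)
    (fun q => (∑ w ∈ R, a w * (1 - d.φ t z q (row w) p)) / d.n) _ _
    (E := (∑ w ∈ R, a w - ∑ w ∈ R, t.v (row w) p) / d.n)
    (fun q hq => I.π0 H z (mem_of_mem_erase hq)) (by rw [I.πerase H z hp]; linarith)
    (fun q hq hπ => ?_) ?_ (fun q _ => ?_) (fun q _ => ?_) H.Θ0.le H.Θμ
  · refine ⟨div_nonneg (sum_nonneg fun w _ => mul_nonneg (a0 w)
      (by linarith [H.φ1 (t := t) (z := z) q (row w) p])) hn.le, ?_⟩
    obtain ⟨y, hy⟩ := I.φ_ne H (mem_of_mem_erase hq) (π_ne hπ)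
    have h2 : ∑ w ∈ R, a w * (1 - d.φ t z q (row w) p) ≤ 2 * d.W * #(d.N z ∪ d.N y) := by
      refine le_trans (sum_le_sum fun w _ => ?_) (sum_ite_le R (d.N z ∪ d.N y)
        (fun _ => 2 * d.W) (by linarith) fun _ => le_rfl)
      split_ifs with h4
      · nlinarith [a0 w, a2 w, H.φ0 (t := t) (z := z) q (row w) p]
      · have : d.φ t z q (row w) p = 1 := by
          by_contra h5
          refine h4 ?_
          rcases hy _ p h5 with h6 | h6
          · exact mem_union_left _ (H.Nsym _ _ (by simpa using h6.1))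
          · exact mem_union_right _ (H.Nsym _ _ (by simpa using h6.1))
        simp [this]
    have h3 := mul_le_mul_of_nonneg_left (H.dNr (Sum.inl (z, y))) (show 0 ≤ 2 * d.W by linarith)
    rw [div_le_iff₀ hn]
    simp only [Nr] at h3
    linarith [H.μ3]
  · simp only [mul_div_assoc', mul_sum]
    rw [← sum_div, sum_comm, I.πerase H z hp, ← sum_sub_distrib, mul_sum]
    congr 1
    refine sum_congr rfl fun w _ => ?_
    have h1 := I.ee_eq (z := z) H (row w) hp
    have h2 : ∑ q ∈ t.F.erase p, t.π z q * (a w * (1 - d.φ t z q (row w) p)) =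
        a w * ∑ q ∈ t.F.erase p, t.π z q * (1 - d.φ t z q (row w) p) := by
      rw [mul_sum]; exact sum_congr rfl fun q _ => by ring
    rw [h2]
    linear_combination a w * h1 - a1 w
  · simp only [hv', mul_sub, mul_one, sum_sub_distrib]; ring
  · have h1 : ∀ A, (#(d.lk t A p) : ℝ) ≤ #(d.lk (d.step t z q) A p) := fun A => by
      rw [lk_step hS]
      split_ifs
      · exact_mod_cast card_le_card (subset_insert _ _)
      · exact le_rfl
    have h2 : (1 + (#(d.lk t (d.N z) p) : ℝ)) + ∑ w ∈ t.S, (1 + (#(d.lk t (d.N w) p) : ℝ)) ≤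
        ∑ w ∈ insert z t.S, (1 + (#(d.lk (d.step t z q) (d.N w) p) : ℝ)) := by
      rw [sum_insert hS]
      exact add_le_add (by linarith [h1 (d.N z)]) (sum_le_sum fun w _ => by linarith [h1 (d.N w)])
    refine le_trans ?_ (mul_le_mul_of_nonneg_left h2 (by positivity))
    rw [mul_add, add_comm, Gc]
    refine add_le_add_left ?_ _
    have h3 : ∀ w ∈ R, a w - t.v (row w) p ≤ 2 * d.W * ((if w ∈ d.N z then d.b else 0) +
        d.b * #(d.lk t (d.N w) p ∩ d.N z)) := fun w _ => by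
      have e1 : d.xx t z (row w) p =
          (if w ∈ d.N z then d.b else 0) + d.b * #(d.lk t (d.N w) p ∩ d.N z) := by
        simp only [xx, Nr_row, show z ∈ d.N w ↔ w ∈ d.N z from ⟨H.Nsym _ _, H.Nsym _ _⟩]
      rw [← e1]
      have h4 := H.xx0 (t := t) (z := z) (row w) p
      by_cases hv : t.v (row w) p = 0
      · simp only [ha, hv, zero_mul, zero_div, sub_zero]; positivity
      have h5 := mul_le_mul_of_nonneg_left (I.eex H hS hU hp hv).2 (a0 w)
      have h6 : a w * (1 - d.xx t z (row w) p) ≤ t.v (row w) p :=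
        le_of_mul_le_mul_right (by nlinarith [a1 w]) hπ
      nlinarith [mul_le_mul_of_nonneg_right (a2 w) h4]
    have h4 := sum_ite_le R (d.N z) (fun _ => d.b) hb fun _ => le_rfl
    have h5 : ∑ w ∈ R, (#(d.lk t (d.N w) p ∩ d.N z) : ℝ) ≤ d.θ * #(d.lk t (d.N z) p) :=
      dbl R _ _ (fun w _ y hy => mem_lk.2 ⟨(mem_lk.1 (mem_inter.1 hy).1).1, (mem_inter.1 hy).2,
        (mem_lk.1 (mem_inter.1 hy).1).2.2⟩) fun y _ =>
          H.colN R y _ fun w _ hw => (mem_lk.1 (mem_inter.1 hw).1).2.1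
    have h6 := sum_le_sum h3
    rw [sum_sub_distrib, ← mul_sum, sum_add_distrib, ← mul_sum] at h6
    have h7 := mul_le_mul_of_nonneg_left (H.dN z) hb
    have h8 := mul_le_mul_of_nonneg_left h5 hb
    have h9 := mul_le_mul_of_nonneg_right H.bB (Nat.cast_nonneg (α := ℝ) #(d.lk t (d.N z) p))
    have h10 : (∑ w ∈ R, if w ∈ d.N z then d.b else 0) +
        d.b * ∑ w ∈ R, (#(d.lk t (d.N w) p ∩ d.N z) : ℝ) ≤ d.B * (1 + #(d.lk t (d.N z) p)) := by
      nlinarith [H.bB]
    have h11 := mul_le_mul_of_nonneg_left h10 (show 0 ≤ 2 * d.W by linarith)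
    rw [div_mul_eq_mul_div]
    exact div_le_div_of_nonneg_right (by linarith) hn.le

theorem Inv.Φ_step (I : d.Inv t) (H : d.Hyp) (hS : z ∉ t.S) (hU : z ∉ d.U) :
    ∑ q ∈ t.F, t.π z q * d.Φ (d.step t z q) ≤ d.Φ t := by
  simp only [Φ, mul_add, sum_add_distrib, mul_sum]
  refine add_le_add ?_ (add_le_add ?_ ?_)
  · rw [sum_comm]
    exact sum_le_sum fun i _ => I.row_step H hS hU i
  · refine (sum_erase_comm t.F _).trans_le (sum_le_sum fun p hp => ?_)
    have hz : z ∈ (univ \ d.U) \ t.S := by simp [hS, hU]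
    have hR : (univ \ d.U) \ insert z t.S = ((univ \ d.U) \ t.S).erase z := sdiff_insert _ _ _
    have e1 : ∀ q, d.Y (d.step t z q) p - (d.n - #d.U) = t.c p + t.v (row z) p - (d.n - #d.U) +
        ∑ w ∈ ((univ \ d.U) \ t.S).erase z, (d.step t z q).v (row w) p := fun q => by
      show t.c p + t.v (row z) p + ∑ w ∈ (univ \ d.U) \ insert z t.S, _ - _ = _
      rw [hR]; ring
    have e2 : d.Y t p - (d.n - #d.U) = t.c p + t.v (row z) p - (d.n - #d.U) +
        ∑ w ∈ ((univ \ d.U) \ t.S).erase z, t.v (row w) p := by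
      rw [Y, ← add_sum_erase _ _ hz]; ring
    simp only [e1, e2]
    exact I.col_step H hS hU _ hp _
  · refine (sum_erase_comm t.F _).trans_le (sum_le_sum fun p hp => ?_)
    have e1 : ∀ t' : St V P, d.Z t' p - #d.U = -#d.U + ∑ w ∈ d.U, t'.v (row w) p := fun t' => by
      rw [Z]; ring
    simp only [e1]
    exact I.col_step H hS hU _ hp _

theorem Hyp.init (H : d.Hyp) : ∃ t : St V P, d.Inv t ∧ t.S = ∅ := by
  have hP : Nonempty P := Fintype.card_pos_iff.1 (H.hP ▸ Fintype.card_pos_iff.2 H.neV)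
  obtain ⟨p0⟩ := hP
  have hv : ∀ i p, 0 ≤ d.v0 i p ∧ d.v0 i p ≤ 1 := fun i p => by
    rcases i with x | _ | p'
    · simp [v0]
    · simp [v0]
    · simp only [v0]; split_ifs <;> simp
  refine ⟨⟨∅, univ, fun _ => p0, d.v0, fun _ => 1, fun _ => 0⟩, ⟨by simp, by simp, by simp [H.hP],
    by simp, by simp, fun i p _ => (hv i p).1, fun i p _ _ => Or.inl ⟨by simp [lk], ?_⟩, by simp,
    fun _ _ _ => rfl, fun u _ u' _ p _ => by simp [v0, row], by simp, by simp, ?_⟩, rfl⟩
  · simpa [B0] using (hv i p).2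
  · have h1 : (#(univ \ d.U) : ℝ) = d.n - #d.U := by
      rw [card_sdiff_of_subset (subset_univ _), card_univ, Nat.cast_sub (card_le_univ _), H.hn]
    have h2 := H.Φ0
    simp only [Φ, St.X, X0, Y, Z, Gr, Gc, row, v0, wt, div_one, sub_self, zero_div, sum_empty,
      sdiff_empty, sum_const, nsmul_eq_mul, mul_one, h1, zero_add, mul_zero, neg_zero,
      Real.exp_zero, sub_zero, card_univ, Fintype.card_sum, Fintype.card_prod, Fintype.card_option,
      H.hP]
    push_cast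
    rw [← H.hn]
    linarith

theorem Hyp.run (H : d.Hyp) : ∃ t : St V P, d.Inv t ∧ ∀ w ∉ d.U, w ∈ t.S := by
  have key : ∀ k, k ≤ #(univ \ d.U) → ∃ t : St V P, d.Inv t ∧ #t.S = k := by
    intro k
    induction k with
    | zero => exact fun _ => (H.init).imp fun t ht => ⟨ht.1, by simp [ht.2]⟩
    | succ k ih =>
      intro hk
      obtain ⟨t, I, ht⟩ := ih (by omega)
      have h1 : ((univ \ d.U) \ t.S).Nonempty :=
        sdiff_nonempty.2 fun h => by have := card_le_card h; omega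
      obtain ⟨z, hz, hmin⟩ := exists_min_image _ d.χ h1
      simp only [mem_sdiff, mem_univ, true_and] at hz hmin
      obtain ⟨q, hq, h2, h3⟩ := exists_of_avg t.F (t.π z) _ (fun q hq => I.π0 H z hq) (I.πsum H z)
        ((I.Φ_step H hz.2 hz.1).trans_lt I.pot)
      exact ⟨_, I.step H hz.2 hz.1 (fun w h4 h5 => hmin w ⟨h5, h4⟩) hq (π_ne h2.ne') h3,
        (card_insert_of_notMem hz.2).trans (by rw [ht])⟩
  obtain ⟨t, I, ht⟩ := key _ le_rfl
  have h1 : t.S = univ \ d.U :=
    eq_of_subset_of_card_le (fun w hw => by simpa using I.sub w hw) ht.ge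
  exact ⟨t, I, fun w hw => by simp [h1, hw]⟩

end Dat

end Nib67
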