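import Pool.Agent.Lib.MP_895a4b_co.NibBasic

/-! The schedule: products of survival factors along the colour classes. -/

set_option linter.unusedSectionVars false

namespace Nib67

open Finset

variable {V P : Type} [Fintype V] [Fintype P] [DecidableEq V] [DecidableEq P]

theorem weier {α : Type*} (s : Finset α) (x : α → ℝ) (h0 : ∀ a, 0 ≤ x a) (h1 : ∀ a, x a ≤ 1) :
    1 - ∑ a ∈ s, x a ≤ ∏ a ∈ s, (1 - x a) := by
  classical
  induction s using Finset.induction_on with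
  | empty => simp
  | insert a s ha ih =>
    rw [sum_insert ha, prod_insert ha]
    have h2 := mul_le_mul_of_nonneg_left ih (sub_nonneg.2 (h1 a))
    have h3 : 0 ≤ x a * ∑ a ∈ s, x a := mul_nonneg (h0 a) (sum_nonneg fun a _ => h0 a)
    nlinarith

theorem class_prod (S : Finset V) (χ : V → ℕ) (J : ℕ) (hS : ∀ w ∈ S, χ w < J) (x : V → ℝ)
    (y : ℕ → ℝ) (h0 : ∀ a, 0 ≤ x a) (h1 : ∀ a, x a ≤ 1) (hy : ∀ j < J, y j ≤ 1)
    (h : ∀ j < J, ∑ w ∈ S with χ w = j, x w ≤ y j) :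
    ∏ j ∈ range J, (1 - y j) ≤ ∏ w ∈ S, (1 - x w) := by
  rw [← prod_fiberwise_of_maps_to (t := range J) (g := χ) fun w hw => mem_range.2 (hS w hw)]
  exact prod_le_prod (fun j hj => sub_nonneg.2 (hy j (mem_range.1 hj))) fun j hj =>
    le_trans (by linarith [h j (mem_range.1 hj)]) (weier _ x h0 h1)

theorem tele {l : ℝ} (hl : 0 ≤ l) (J : ℕ) (h : J * l < 1) :
    ∏ j ∈ range J, (1 - l / (1 - j * l)) = 1 - J * l := by
  induction J with
  | zero => simp
  | succ J ih =>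
    push_cast at h ⊢
    have h1 : (J : ℝ) * l < 1 := by linarith
    have h2 : 1 - J * l ≠ 0 := by linarith
    rw [prod_range_succ, ih h1]
    field_simp
    ring

theorem class_sum (S A : Finset V) (χ : V → ℕ) (j : ℕ) (x : V → ℝ) {c D : ℝ} (hc : 0 ≤ c)
    (hx : ∀ w, χ w = j → x w = c) (hD : (#{w ∈ A | χ w = j} : ℝ) ≤ D) :
    ∑ w ∈ S with χ w = j, (if w ∈ A then x w else 0) ≤ c * D := by
  refine le_trans (le_of_eq (sum_congr rfl fun w hw => ?_)) ((sum_ite_le _ {w ∈ A | χ w = j}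
    (fun _ => c) hc fun _ => le_rfl).trans (mul_le_mul_of_nonneg_left hD hc))
  simp [(mem_filter.1 hw).2, hx w (mem_filter.1 hw).2]

theorem sched (d : Dat V P) (K : ℕ) {l D ρ : ℝ} (hχ : ∀ w, d.χ w < K)
    (hs : ∀ w, d.s w = 1 - (d.χ w + 1) * l) (hl : 0 < l) (hK : K * l < 1)
    (hρ : l ≤ ρ * (1 - K * l)) (hρ1 : ρ ≤ 0.19) (β0 : 0 ≤ d.β) (γ0 : 0 ≤ d.γ) (r0 : 0 ≤ d.r)
    (hr : 1 + d.r ≤ 1.4 * (1 - d.γ)) (hγ : d.γ ^ 2 ≤ d.r ^ 2 * (1 - K * l)) (D0 : 0 ≤ D)
    (hD : (1 - d.γ) * d.β * D * (1 + ρ) ≤ l) (hb : ∀ w, d.β / d.s w ≤ 1 / 2)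
    (hcol : ∀ z ∉ d.U, ∀ j, (#{w ∈ d.N z | d.χ w = j} : ℝ) ≤ D) :
    (∀ z ∉ d.U, ∀ S : Finset V, (∀ w ∈ S, w ∉ d.U ∧ d.χ w ≤ d.χ z) → d.s z ≤ d.B0 S (row z)) ∧
    ∀ z ∉ d.U, ∀ y ∉ d.U, ∀ S : Finset V, (∀ w ∈ S, w ∉ d.U ∧ d.χ w ≤ d.χ z) →
      d.γ * d.s z ≤ d.r * d.B1 S (row z) y := by
  have hγ1 : 0 ≤ 1 - d.γ := by linarith
  have hρ0 : 0 ≤ ρ := by
    by_contra h
    nlinarith
  have hj : ∀ j < K, 1 - K * l ≤ 1 - ((j : ℝ) + 1) * l := fun j hj => by
    have : (j : ℝ) + 1 ≤ K := by exact_mod_cast hj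
    nlinarith
  have hs0 : ∀ w, 0 < d.s w := fun w => by linarith [hj _ (hχ w), hs w]
  have hβ : ∀ w, 0 ≤ d.β / d.s w := fun w => div_nonneg β0 (hs0 w).le
  have hu : ∀ j < K, (1 - d.γ) * d.β / (1 - ((j : ℝ) + 1) * l) * D ≤ l / (1 - j * l) := fun j h => by
    have h1 := hj j h
    have h2 := mul_le_mul_of_nonneg_left h1 hρ0
    have h3 : 0 ≤ (1 - d.γ) * d.β * D := by positivity
    have h4 := mul_le_mul_of_nonneg_left
      (show 1 - j * l ≤ (1 + ρ) * (1 - ((j : ℝ) + 1) * l) by linarith) h3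
    have h5 := mul_le_mul_of_nonneg_right hD (show 0 ≤ 1 - ((j : ℝ) + 1) * l by linarith)
    rw [div_mul_eq_mul_div, div_le_div_iff₀ (by linarith) (by linarith)]
    linarith
  have hu1 : ∀ j < K, 0 ≤ l / (1 - (j : ℝ) * l) ∧ l / (1 - (j : ℝ) * l) ≤ 0.19 := fun j h => by
    have h1 := hj j h
    refine ⟨div_nonneg hl.le (by linarith), ?_⟩
    rw [div_le_iff₀ (by linarith)]
    nlinarith
  have ht : ∀ z, ∏ j ∈ range (d.χ z + 1), (1 - l / (1 - j * l)) = d.s z := fun z => by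
    rw [tele hl.le _ (by push_cast; linarith [hj _ (hχ z)]), hs]; push_cast; rfl
  refine ⟨fun z hz S hS => ?_, fun z hz y hy S hS => ?_⟩
  · rw [← ht z, Dat.B0, Dat.Nr_row, Dat.gr_row, if_neg hz]
    refine class_prod S d.χ _ (fun w hw => Nat.lt_succ_of_le (hS w hw).2) _ _ (fun w => ?_)
      (fun w => ?_) (fun j h => by linarith [(hu1 j (by have := hχ z; omega)).2]) fun j h => ?_
    · split_ifs
      · rw [mul_div_assoc]; exact mul_nonneg hγ1 (hβ w)
      · exact le_rfl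
    · split_ifs
      · rw [mul_div_assoc]; nlinarith [hβ w, hb w]
      · exact zero_le_one
    · have h1 : j < K := by have := hχ z; omega
      exact (class_sum S (d.N z) d.χ j _ (div_nonneg (mul_nonneg hγ1 β0) (by linarith [hj j h1]))
        (fun w hw => by rw [hs, hw]) (hcol z hz j)).trans (hu j h1)
  · have h1 : ∏ j ∈ range (d.χ z + 1), (1 - 1.4 * (l / (1 - j * l))) ≤ d.B1 S (row z) y := by
      rw [Dat.B1, Dat.Nr_row]
      refine class_prod S d.χ _ (fun w hw => Nat.lt_succ_of_le (hS w hw).2) _ _ (fun w => ?_)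
        (fun w => ?_) (fun j h => by linarith [(hu1 j (by have := hχ z; omega)).2]) fun j h => ?_
      · have := hβ w
        have := mul_nonneg r0 (hβ w)
        rw [mul_div_assoc]
        split_ifs <;> linarith
      · have := hβ w
        have := hb w
        have : d.r * (d.β / d.s w) ≤ 1 * (1 / 2) :=
          mul_le_mul (by linarith) (hb w) (hβ w) zero_le_one
        rw [mul_div_assoc]
        split_ifs <;> linarith
      · have h1 : j < K := by have := hχ z; omega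
        have h2 : 0 ≤ d.β / (1 - ((j : ℝ) + 1) * l) := div_nonneg β0 (by linarith [hj j h1])
        have h3 := class_sum S (d.N z) d.χ j (fun w => d.β / d.s w) h2
          (fun w hw => by rw [hs, hw]) (hcol z hz j)
        have h4 := class_sum S (d.N y) d.χ j (fun w => d.r * d.β / d.s w) (mul_nonneg r0 h2)
          (fun w hw => by rw [hs, hw, mul_div_assoc]) (hcol y hy j)
        have h5 := hu j h1
        have h6 := mul_le_mul_of_nonneg_right hr (mul_nonneg h2 D0)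
        rw [mul_div_assoc] at h5
        rw [sum_add_distrib]
        nlinarith
    have h2 : 0 ≤ ∏ j ∈ range (d.χ z + 1), (1 - 1.4 * (l / (1 - j * l))) :=
      prod_nonneg fun j h => by linarith [(hu1 j (by have := hχ z; have := mem_range.1 h; omega)).2]
    have h3 : d.s z ^ 3 ≤ (∏ j ∈ range (d.χ z + 1), (1 - 1.4 * (l / (1 - j * l)))) ^ 2 := by
      rw [← ht z, ← prod_pow, ← prod_pow]
      refine prod_le_prod (fun j h => ?_) fun j h => ?_
      · exact pow_nonneg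
          (by linarith [(hu1 j (by have := hχ z; have := mem_range.1 h; omega)).2]) _
      · obtain ⟨h4, h5⟩ := hu1 j (by have := hχ z; have := mem_range.1 h; omega)
        generalize l / (1 - (j : ℝ) * l) = u at h4 h5
        nlinarith [mul_nonneg h4 (sub_nonneg.2 h5), mul_nonneg h4 (mul_nonneg h4 h4)]
    refine le_trans ?_ (mul_le_mul_of_nonneg_left h1 r0)
    refine (pow_le_pow_iff_left₀ (mul_nonneg γ0 (hs0 z).le) (mul_nonneg r0 h2) two_ne_zero).1 ?_
    have h4 : d.γ ^ 2 ≤ d.r ^ 2 * d.s z :=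
      hγ.trans (mul_le_mul_of_nonneg_left (by linarith [hj _ (hχ z), hs z]) (sq_nonneg _))
    have h5 := mul_le_mul_of_nonneg_right h4 (sq_nonneg (d.s z))
    have h6 := mul_le_mul_of_nonneg_left h3 (sq_nonneg d.r)
    rw [mul_pow, mul_pow]
    nlinarith

end Nib67
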