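import Pool.Agent.Lib.MP_895a4b_co.NibEnd
import Pool.Agent.Lib.MP_895a4b_co.NibSch
import Pool.Agent.Lib.MP_895a4b_co.NibCol

/-! Choice of the constants. -/

set_option linter.unusedSectionVars false

namespace Nib67

open Finset

variable {V P : Type} [Fintype V] [Fintype P] [DecidableEq V] [DecidableEq P]

theorem mk (N : V → Finset V) (M : P → Finset P) (hP : Fintype.card P = Fintype.card V)
    (Nsym : ∀ u v, u ∈ N v → v ∈ N u) (Nirr : ∀ u, u ∉ N u) (Msym : ∀ p q, p ∈ M q → q ∈ M p)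
    {n θ Δ Λ W : ℝ} (K : ℕ) (hn : n = Fintype.card V)
    (ore : ∀ u, ∀ v ∈ N u, (#(N u) : ℝ) + #(N v) ≤ θ) (dM : ∀ p, (#(M p) : ℝ) ≤ Δ)
    (hW : Real.exp (6 * 108) ≤ W) (hK : 100000 * W ^ 3 ≤ K) (hΛ : (K : ℝ) ^ 8 ≤ Λ)
    (hlog : (K : ℝ) ^ 9 * Real.log n ≤ Λ) (h1 : Λ ≤ θ) (h2 : Λ ≤ Δ) (h3 : θ * Λ ≤ n)
    (h4 : Δ * Λ ≤ n) (h5 : θ * Δ ≤ 2.04 * n) :
    ∃ g : V ≃ P, ∀ u, #{v ∈ N u | g v ∈ M (g u)} ≤ 1 := by
  obtain ⟨k, hk⟩ : ∃ k : ℝ, k = K := ⟨_, rfl⟩
  rw [← hk] at hK hΛ hlog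
  have W1 : 1 ≤ W := le_trans (Real.one_le_exp (by norm_num)) hW
  have W3 : W ≤ W ^ 3 := le_self_pow₀ W1 (by norm_num)
  have k1 : 100000 ≤ k := by linarith
  have k0 : 0 < k := by linarith
  have Wk : W ≤ k := by linarith
  have kp : ∀ i : ℕ, 100000 * k ^ i ≤ k ^ (i + 1) := fun i => by
    rw [pow_succ, mul_comm]; exact mul_le_mul_of_nonneg_left k1 (by positivity)
  have p1 := kp 1
  have p2 := kp 2
  have p3 := kp 3
  have p4 := kp 4
  have p5 := kp 5
  have p6 := kp 6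
  have p7 := kp 7
  have p8 := kp 8
  norm_num at p1 p2 p3 p4 p5 p6 p7 p8
  have Λk : k ≤ Λ := by linarith
  have Λ0 : 0 < Λ := by linarith
  have θ0 : 0 < θ := by linarith
  have Δ0 : 0 < Δ := by linarith
  have nΛ : 100000 * Λ ≤ n := by nlinarith
  have n0 : 0 < n := by linarith
  have hK0 : 0 < K := by exact_mod_cast hk ▸ k0
  have dN : ∀ u, (#(N u) : ℝ) ≤ θ := fun u => by
    rcases (N u).eq_empty_or_nonempty with h | ⟨v, hv⟩
    · simp [h, θ0.le]
    · linarith [ore u v hv, Nat.cast_nonneg (α := ℝ) #(N v)]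
  obtain ⟨η, hη⟩ : ∃ η : ℝ, η = 1 / (16 * k) := ⟨_, rfl⟩
  have η0 : 0 < η := by rw [hη]; positivity
  have ηk : η * (16 * k) = 1 := by rw [hη]; field_simp
  have η1 : η ≤ 1 / 1000000 := by nlinarith
  have ηk2 : η ^ 2 * (256 * k ^ 2) = 1 := by rw [hη]; field_simp; norm_num
  have l0 : 0 ≤ Real.log n := Real.log_nonneg (by linarith)
  have hexp : ∀ (i : ℕ) (x : ℝ), i * Real.log n ≤ x → n ^ i * Real.exp (-x) ≤ 1 := fun i x h => by
    rw [Real.exp_neg, mul_inv_le_iff₀ (Real.exp_pos _), one_mul, ← Real.exp_log n0,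
      ← Real.exp_nat_mul]
    exact Real.exp_le_exp.2 h
  obtain ⟨χ, U, hχ, hcol, hU1, hU2⟩ := colU N hK0 θ0 η0 (by linarith) Nsym dN ore (by
    rw [← hn, ← hk]
    refine lt_of_lt_of_le (mul_lt_mul_of_pos_right (show n * k < n ^ 2 by nlinarith)
      (Real.exp_pos _)) (hexp 2 _ ?_)
    have e1 : η ^ 2 * θ / (16 * k) = θ / (4096 * k ^ 3) := by rw [hη]; field_simp; norm_num
    rw [e1, le_div_iff₀ (by positivity)]
    have := mul_le_mul_of_nonneg_right (show 8192 * k ^ 3 ≤ k ^ 9 by linarith) l0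
    push_cast
    linarith)
  rw [← hk] at hcol
  rw [← hn, ← hk] at hU1
  rw [← hk] at hU2
  have m0 : (0 : ℝ) < #U := by
    by_contra h
    nlinarith
  obtain ⟨β, hβ⟩ : ∃ β : ℝ, β = (1 + η) * Δ / ((1 - η) ^ 2 * n) := ⟨_, rfl⟩
  have η2 : 0 < 1 - η := by linarith
  have β0 : 0 ≤ β := by rw [hβ]; positivity
  have βn : β * n ≤ 1.0001 * Δ := by
    have e1 : β * n = (1 + η) * Δ / (1 - η) ^ 2 := by rw [hβ]; field_simp
    rw [e1, div_le_iff₀ (by positivity)]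
    exact (mul_le_mul_of_nonneg_right (show 1 + η ≤ 1.0001 * (1 - η) ^ 2 by nlinarith) Δ0.le).trans
      (le_of_eq (by ring))
  have βθ : β * θ ≤ 2.041 := le_of_mul_le_mul_right (by nlinarith) n0
  have β1 : β ≤ 1 / 1000 := by
    by_contra h
    nlinarith
  obtain ⟨μ, hμ⟩ : ∃ μ : ℝ, μ = 48 * W * k / Λ := ⟨_, rfl⟩
  have μ0 : 0 < μ := by rw [hμ]; positivity
  have μΛ : μ * Λ = 48 * W * k := by rw [hμ]; field_simp
  have Wk0 : 0 < W * k := by positivity
  have Wk2 : W * k ≤ k ^ 2 := by nlinarith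
  have hsl : ∀ w, 0.028 ≤ 1 - ((χ w : ℝ) + 1) * (0.972 / k) := fun w => by
    have : (χ w : ℝ) + 1 ≤ k := by rw [hk]; exact_mod_cast hχ w
    have := mul_le_mul_of_nonneg_right this (show 0 ≤ 0.972 / k by positivity)
    rw [mul_div_cancel₀ _ k0.ne'] at this
    linarith
  let d : Dat V P := ⟨N, M, U, χ, fun w => 1 - (χ w + 1) * (0.972 / k), n, θ, Δ, η, β, β / 0.028,
    108, W, 8 * k, 0.05, 0.3, η / (2 * (11000 * k ^ 2) * μ), μ, 11000 * k ^ 2⟩
  have eK : (K : ℝ) * (0.972 / k) = 0.972 := by rw [← hk, mul_div_cancel₀ _ k0.ne']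
  obtain ⟨H0, H1⟩ := sched d K (l := 0.972 / k) (D := (1 + η) * θ / (2 * k)) (ρ := 0.001) hχ
    (fun _ => rfl) (by positivity) (by rw [eK]; norm_num)
    (by rw [eK, div_le_iff₀ k0]; linarith) (by norm_num) β0 (by norm_num [d]) (by norm_num [d])
    (by norm_num [d]) (by rw [eK]; norm_num [d]) (by positivity)
    (by
      show (1 - 0.05) * β * ((1 + η) * θ / (2 * k)) * (1 + 0.001) ≤ 0.972 / k
      rw [← mul_div_assoc, div_mul_eq_mul_div, div_le_div_iff₀ (by positivity) k0]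
      have := mul_le_mul βθ (show 1 + η ≤ 1.0001 by linarith) (by positivity) (by norm_num)
      nlinarith)
    (fun w => by
      show β / (1 - (χ w + 1) * (0.972 / k)) ≤ 1 / 2
      rw [div_le_iff₀ (by linarith [hsl w])]
      linarith [hsl w])
    hcol
  have eΘ : η / (2 * (11000 * k ^ 2) * μ) * μ = η / (2 * (11000 * k ^ 2)) := by field_simp
  refine Dat.endgame (d := d) (e := 3 * θ / k) ⟨hn, hP, Nsym, Nirr, Msym, dN, dM, n0, θ0, Δ0,
    show θ * Δ ≤ 3 * n by linarith, η0, show η ≤ 1 / 8 by linarith, β0, ?_, fun w => ?_,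
    fun w => ?_, show 0 ≤ β / 0.028 by positivity, ?_, ?_, hW, by norm_num [d], by norm_num [d],
    by norm_num [d], show 2 * n ≤ 8 * k * #U by linarith, ?_, ?_, ?_, ?_, ?_,
    show 0 < η / (2 * (11000 * k ^ 2) * μ) by positivity, ?_, ?_,
    show 8 * W * (8 * k) + 8 * 108 + 12 * 108 * W * (8 * k) ≤ 11000 * k ^ 2 by nlinarith,
    show 8 * W * 108 ≤ 11000 * k ^ 2 by linarith, ?_, H0, H1⟩ ⟨?_, hU2, ?_, ?_, ?_, ?_⟩
  · show (1 + η) * Δ ≤ β * (1 - η) ^ 2 * n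
    rw [hβ]; exact le_of_eq (by field_simp)
  · show 0 < 1 - ((χ w : ℝ) + 1) * (0.972 / k)
    linarith [hsl w]
  · show β ≤ β / 0.028 * (1 - ((χ w : ℝ) + 1) * (0.972 / k))
    rw [div_mul_eq_mul_div, le_div_iff₀ (by norm_num)]
    exact mul_le_mul_of_nonneg_left (hsl w) β0
  · show β / 0.028 ≤ 1 / 8
    rw [div_le_iff₀ (by norm_num)]; linarith
  · show β / 0.028 * θ ≤ 108
    rw [div_mul_eq_mul_div, div_le_iff₀ (by norm_num)]; linarith
  · show 4 * η * n ≤ #U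
    have := mul_le_mul_of_nonneg_left hU1 η0.le
    nlinarith
  · show 2 * W * (8 * k) ≤ η * n
    refine le_of_mul_le_mul_right ?_ (show 0 < 16 * k by positivity)
    have := mul_le_mul_of_nonneg_right Wk2 k0.le
    nlinarith
  · show 2 * W * (8 * k) * (1 + 2 * Δ) ≤ μ * n
    refine le_of_mul_le_mul_right ?_ Λ0
    have := mul_le_mul_of_nonneg_left (show (1 + 2 * Δ) * Λ ≤ 3 * n by linarith) Wk0.le
    rw [mul_right_comm μ, μΛ]
    linarith
  · show 2 * W * (8 * k) ≤ μ * Δ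
    nlinarith [mul_le_mul_of_nonneg_left h2 μ0.le]
  · show 4 * W * θ ≤ μ * n
    refine le_of_mul_le_mul_right ?_ Λ0
    have := mul_le_mul_of_nonneg_left h3 (show 0 ≤ W by linarith)
    have := mul_le_mul_of_nonneg_left k1 (show 0 ≤ W * n by positivity)
    have : 0 ≤ W * n := by positivity
    rw [mul_right_comm μ, μΛ]
    nlinarith
  · show η / (2 * (11000 * k ^ 2) * μ) * μ ≤ 1
    rw [eΘ, div_le_one (by positivity)]; linarith
  · show η / (2 * (11000 * k ^ 2) * μ) * μ * (11000 * k ^ 2) ≤ η / 2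
    rw [eΘ]; exact le_of_eq (by field_simp)
  · show 2 * (n ^ 2 + 3 * n + 1) * Real.exp (-(η / (2 * (11000 * k ^ 2) * μ) * η / 2)) < 1
    refine lt_of_lt_of_le (mul_lt_mul_of_pos_right (show _ < n ^ 3 by nlinarith)
      (Real.exp_pos _)) (hexp 3 _ ?_)
    have e1 : η / (2 * (11000 * k ^ 2) * μ) * η / 2 = Λ / (540672000 * (W * k ^ 5)) := by
      rw [hη, hμ]; field_simp; norm_num
    rw [e1, le_div_iff₀ (by positivity)]
    have e2 : W * k ^ 5 ≤ k ^ 6 := by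
      rw [pow_succ' k 5]; exact mul_le_mul_of_nonneg_right Wk (by positivity)
    have := mul_le_mul_of_nonneg_right
      (show 3 * (540672000 * (W * k ^ 5)) ≤ k ^ 9 by linarith) l0
    push_cast
    linarith
  · rw [le_div_iff₀ k0]; linarith
  · show n ≤ 4 * Δ * #U
    nlinarith
  · show 8192 * W ^ 3 * (3 * θ / k) * Δ < n
    rw [← mul_div_assoc, div_mul_eq_mul_div, div_lt_iff₀ k0]
    have := mul_le_mul_of_nonneg_left h5 (show 0 ≤ W ^ 3 by positivity)
    have := mul_le_mul_of_nonneg_left hK n0.le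
    have : 0 < W ^ 3 * n := by positivity
    nlinarith
  · show 2048 * W ^ 3 * (η * (5 + 4 * 108)) ≤ 1
    nlinarith [mul_le_mul_of_nonneg_left hK η0.le]
  · show 4 * W * θ ≤ η ^ 2 * #U
    refine le_of_mul_le_mul_right ?_ (show 0 < 256 * k ^ 2 * Λ by positivity)
    have e1 : η ^ 2 * #U * (256 * k ^ 2 * Λ) = #U * Λ := by
      linear_combination (#U * Λ) * ηk2
    have e2 : W * k ^ 2 ≤ k ^ 3 := by
      rw [pow_succ' k 2]; exact mul_le_mul_of_nonneg_right Wk (by positivity)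
    have e3 := mul_le_mul e2 (h3.trans hU1) (by positivity) (by positivity)
    have e4 := mul_le_mul_of_nonneg_left (show 4096 * k ^ 4 ≤ Λ by linarith) m0.le
    rw [e1]
    nlinarith

theorem near : ∃ c : ℝ, 0 < c ∧ ∀ (V P : Type) [Fintype V] [Fintype P] [DecidableEq V]
    [DecidableEq P] (N : V → Finset V) (M : P → Finset P) (θ Δ : ℝ),
    Fintype.card P = Fintype.card V → (∀ u v, u ∈ N v → v ∈ N u) → (∀ u, u ∉ N u) →
    (∀ p q, p ∈ M q → q ∈ M p) → (∀ u, ∀ v ∈ N u, (#(N u) : ℝ) + #(N v) ≤ θ) →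
    (∀ p, (#(M p) : ℝ) ≤ Δ) → θ * Δ ≤ 2.04 * Fintype.card V →
    θ * Real.log (Fintype.card V) ≤ c * Fintype.card V →
    Δ * Real.log (Fintype.card V) ≤ c * Fintype.card V → 1 ≤ Δ → 2 ≤ Fintype.card V →
    ∃ g : V ≃ P, ∀ u, #{v ∈ N u | g v ∈ M (g u)} ≤ 1 := by
  obtain ⟨W, hW⟩ : ∃ W : ℝ, Real.exp (6 * 108) ≤ W := ⟨_, le_rfl⟩
  have W1 : 1 ≤ W := le_trans (Real.one_le_exp (by norm_num)) hW
  obtain ⟨K, hK⟩ := exists_nat_ge (100000 * W ^ 3)
  have k1 : (2 : ℝ) ≤ K := by linarith [one_le_pow₀ (n := 3) W1]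
  obtain ⟨G, hG⟩ : ∃ G : ℝ, G = (K : ℝ) ^ 9 := ⟨_, rfl⟩
  have G1 : 1 ≤ G := hG ▸ one_le_pow₀ (by linarith)
  have G4 : G ≤ G ^ 4 := le_self_pow₀ G1 (by norm_num)
  refine ⟨1 / (512 * G ^ 4), by positivity, ?_⟩
  intro V P _ _ _ _ N M θ Δ hP h1 h2 h3 ore dM h4 h5 h6 h7 h8
  obtain ⟨n, hn⟩ : ∃ n : ℝ, n = Fintype.card V := ⟨_, rfl⟩
  rw [← hn] at h4 h5 h6
  have n2 : 2 ≤ n := by rw [hn]; exact_mod_cast h8
  have l1 : 1 / 2 ≤ Real.log n :=
    le_trans (by linarith [Real.log_two_gt_d9]) (Real.log_le_log (by norm_num) n2)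
  rw [one_div, inv_mul_eq_div, le_div_iff₀ (by positivity)] at h5 h6
  have key : ∀ x : ℝ, x * Real.log n * (512 * G ^ 4) ≤ n → x * (G * Real.log n) ≤ n := fun x h => by
    rcases le_total x 0 with h0 | h0
    · exact (mul_nonpos_of_nonpos_of_nonneg h0 (by positivity)).trans (by linarith)
    · have := mul_le_mul_of_nonneg_left (show G ≤ 512 * G ^ 4 by linarith)
        (show 0 ≤ x * Real.log n by positivity)
      linarith
  have nG : 256 * G ^ 4 ≤ n := by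
    have : 1 / 2 ≤ Δ * Real.log n := by nlinarith
    have := mul_le_mul_of_nonneg_right this (show 0 ≤ 512 * G ^ 4 by positivity)
    linarith
  have hΛ : G * Real.log n * (G * Real.log n) ≤ n := by
    obtain ⟨y, y0, hy⟩ : ∃ y : ℝ, 0 < y ∧ n = y ^ 4 := ⟨√(√n), by positivity, by
      rw [show 4 = 2 * 2 from rfl, pow_mul, Real.sq_sqrt (Real.sqrt_nonneg _),
        Real.sq_sqrt (by linarith)]⟩
    have e1 : Real.log n ≤ 4 * y := by
      rw [hy, Real.log_pow]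
      push_cast
      linarith [Real.log_le_sub_one_of_pos y0]
    have e2 : 4 * G ≤ y := (pow_le_pow_iff_left₀ (by positivity) y0.le four_ne_zero).1 (by
      rw [← hy, mul_pow]; linarith)
    have e3 : G * Real.log n ≤ y ^ 2 := by nlinarith
    have := mul_le_mul e3 e3 (by positivity) (by positivity)
    rw [hy] at this ⊢
    linarith
  have hθ := key θ h5
  have hΔ := key Δ h6
  refine mk N M hP h1 h2 h3 (θ := max θ (G * Real.log n)) (Δ := max Δ (G * Real.log n))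
    (Λ := G * Real.log n) K hn (fun u v hv => (ore u v hv).trans (le_max_left _ _))
    (fun p => (dM p).trans (le_max_left _ _)) hW hK ?_ (hG ▸ le_rfl) (le_max_right _ _)
    (le_max_right _ _) ?_ ?_ ?_
  · have : (K : ℝ) ^ 8 * 2 ≤ G := by
      rw [hG, pow_succ _ 8]; exact mul_le_mul_of_nonneg_left k1 (by positivity)
    nlinarith
  · rcases max_cases θ (G * Real.log n) with h | h <;> rw [h.1] <;> assumption
  · rcases max_cases Δ (G * Real.log n) with h | h <;> rw [h.1] <;> assumption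
  · rcases max_cases θ (G * Real.log n) with h | h <;>
      rcases max_cases Δ (G * Real.log n) with h' | h' <;> rw [h.1, h'.1] <;> linarith

end Nib67
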