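import Mathlib

/-! Exponential potential: one averaged step of a bounded martingale. -/

namespace Nib67

open Finset

/-- two-sided exponential weight of a deviation `x` with compensator `g` -/
noncomputable def wt (Θ η μ x g : ℝ) : ℝ :=
  (Real.exp (Θ * x) + Real.exp (-(Θ * x))) * Real.exp (-(Θ * η / 2) - Θ ^ 2 * μ * g)

theorem wt_pos (Θ η μ x g : ℝ) : 0 < wt Θ η μ x g := by
  unfold wt; positivity

theorem abs_le_of_wt {Θ η μ x g : ℝ} (hΘ : 0 < Θ) (h : wt Θ η μ x g < 1)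
    (hg : Θ * μ * g ≤ η / 2) : |x| ≤ η := by
  have h1 : Real.exp (Θ * |x|) ≤ Real.exp (Θ * x) + Real.exp (-(Θ * x)) := by
    rcases abs_cases x with h | h
    · rw [h.1]; linarith [Real.exp_pos (-(Θ * x))]
    · rw [h.1, mul_neg]; linarith [Real.exp_pos (Θ * x)]
  have h2 : Real.exp (Θ * |x|) * Real.exp (-(Θ * η / 2) - Θ ^ 2 * μ * g) < 1 :=
    lt_of_le_of_lt (mul_le_mul_of_nonneg_right h1 (Real.exp_pos _).le) h
  rw [← Real.exp_add, Real.exp_lt_one_iff] at h2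
  have h3 : Θ * (Θ * μ * g) ≤ Θ * (η / 2) := mul_le_mul_of_nonneg_left hg hΘ.le
  have h4 : Θ * |x| ≤ Θ * η := by nlinarith
  exact le_of_mul_le_mul_left h4 hΘ

theorem exp_avg {Q : Type*} (s : Finset Q) (π L : Q → ℝ) {E μ c : ℝ}
    (hπ : ∀ q ∈ s, 0 ≤ π q) (ht : ∑ q ∈ s, π q ≤ 1)
    (hL : ∀ q ∈ s, π q ≠ 0 → 0 ≤ L q ∧ L q ≤ μ) (hE : ∑ q ∈ s, π q * L q = (∑ q ∈ s, π q) * E)
    (hE0 : 0 ≤ E) (hEμ : E ≤ μ) (hc : |c| * μ ≤ 1) :
    ∑ q ∈ s, π q * Real.exp (c * (E - L q)) ≤ Real.exp (c ^ 2 * μ * E) := by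
  have hμ : 0 ≤ μ := hE0.trans hEμ
  have h1 : ∀ q ∈ s, π q * Real.exp (c * (E - L q)) ≤
      π q * (1 + c * E + c ^ 2 * E ^ 2) - (c + 2 * c ^ 2 * E - c ^ 2 * μ) * (π q * L q) := by
    intro q hq
    by_cases h0 : π q = 0
    · simp [h0]
    obtain ⟨ha, hb⟩ := hL q hq h0
    have h2 : |c * (E - L q)| ≤ 1 := by
      rw [abs_mul]
      refine le_trans (mul_le_mul_of_nonneg_left ?_ (abs_nonneg c)) hc
      rw [abs_le]; constructor <;> linarith
    have h3 := (abs_le.1 (Real.abs_exp_sub_one_sub_id_le h2)).2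
    have h4 : c ^ 2 * (L q * L q) ≤ c ^ 2 * (μ * L q) :=
      mul_le_mul_of_nonneg_left (mul_le_mul_of_nonneg_right hb ha) (sq_nonneg c)
    have h5 : Real.exp (c * (E - L q)) ≤
        (1 + c * E + c ^ 2 * E ^ 2) - (c + 2 * c ^ 2 * E - c ^ 2 * μ) * L q := by nlinarith
    have := mul_le_mul_of_nonneg_left h5 (hπ q hq)
    nlinarith
  refine (sum_le_sum h1).trans ?_
  rw [sum_sub_distrib, ← sum_mul, ← mul_sum, hE]
  set t := ∑ q ∈ s, π q
  have ht0 : 0 ≤ t := sum_nonneg hπ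
  have h6 : 0 ≤ c ^ 2 * μ * E := by positivity
  have h7 := Real.add_one_le_exp (c ^ 2 * μ * E)
  have h8 : 0 ≤ t * (c ^ 2 * E ^ 2) := by positivity
  have h9 : t * (c ^ 2 * μ * E + 1) ≤ 1 * (c ^ 2 * μ * E + 1) :=
    mul_le_mul_of_nonneg_right ht (by linarith)
  nlinarith

theorem wt_step {Q : Type*} (s : Finset Q) (π L x' g' : Q → ℝ) {Θ η μ x g E : ℝ}
    (hπ : ∀ q ∈ s, 0 ≤ π q) (ht : ∑ q ∈ s, π q ≤ 1)
    (hL : ∀ q ∈ s, π q ≠ 0 → 0 ≤ L q ∧ L q ≤ μ) (hE : ∑ q ∈ s, π q * L q = (∑ q ∈ s, π q) * E)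
    (hx : ∀ q ∈ s, x' q = x + E - L q) (hg : ∀ q ∈ s, g + E ≤ g' q) (hΘ : 0 ≤ Θ)
    (hΘμ : Θ * μ ≤ 1) :
    ∑ q ∈ s, π q * wt Θ η μ (x' q) (g' q) ≤ wt Θ η μ x g := by
  have ht0 : 0 ≤ ∑ q ∈ s, π q := sum_nonneg hπ
  rcases ht0.eq_or_lt with h0 | h0
  · have := (sum_eq_zero_iff_of_nonneg hπ).1 h0.symm
    rw [sum_eq_zero fun q hq => by rw [this q hq, zero_mul]]
    exact (wt_pos ..).le
  have hE0 : 0 ≤ E := by
    have : 0 ≤ ∑ q ∈ s, π q * L q := sum_nonneg fun q hq => by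
      by_cases h : π q = 0
      · simp [h]
      · exact mul_nonneg (hπ q hq) (hL q hq h).1
    rw [hE] at this
    exact nonneg_of_mul_nonneg_right this h0
  have hEμ : E ≤ μ := by
    have : ∑ q ∈ s, π q * L q ≤ ∑ q ∈ s, π q * μ := sum_le_sum fun q hq => by
      by_cases h : π q = 0
      · simp [h]
      · exact mul_le_mul_of_nonneg_left (hL q hq h).2 (hπ q hq)
    rw [hE, ← sum_mul] at this
    exact le_of_mul_le_mul_left this h0
  have hμ : 0 ≤ μ := hE0.trans hEμ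
  have h1 := exp_avg s π L (c := Θ) hπ ht hL hE hE0 hEμ (by rwa [abs_of_nonneg hΘ])
  have h2 := exp_avg s π L (c := -Θ) hπ ht hL hE hE0 hEμ (by rwa [abs_neg, abs_of_nonneg hΘ])
  rw [neg_sq] at h2
  set K := Real.exp (-(Θ * η / 2) - Θ ^ 2 * μ * (g + E)) with hK
  have h3 : ∀ q ∈ s, π q * wt Θ η μ (x' q) (g' q) ≤
      Real.exp (Θ * x) * K * (π q * Real.exp (Θ * (E - L q))) +
        Real.exp (-(Θ * x)) * K * (π q * Real.exp (-Θ * (E - L q))) := by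
    intro q hq
    have h4 : Real.exp (-(Θ * η / 2) - Θ ^ 2 * μ * g' q) ≤ K := by
      refine Real.exp_le_exp.2 ?_
      have := mul_le_mul_of_nonneg_left (hg q hq) (show 0 ≤ Θ ^ 2 * μ by positivity)
      linarith
    have h5 : Real.exp (Θ * x' q) = Real.exp (Θ * x) * Real.exp (Θ * (E - L q)) := by
      rw [← Real.exp_add, hx q hq]; congr 1; ring
    have h6 : Real.exp (-(Θ * x' q)) = Real.exp (-(Θ * x)) * Real.exp (-Θ * (E - L q)) := by
      rw [← Real.exp_add, hx q hq]; congr 1; ring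
    unfold wt
    refine le_trans (mul_le_mul_of_nonneg_left (mul_le_mul_of_nonneg_left h4 (by positivity))
      (hπ q hq)) (le_of_eq ?_)
    rw [h5, h6]; ring
  refine (sum_le_sum h3).trans ?_
  rw [sum_add_distrib, ← mul_sum, ← mul_sum]
  have h7 : K * Real.exp (Θ ^ 2 * μ * E) = Real.exp (-(Θ * η / 2) - Θ ^ 2 * μ * g) := by
    rw [hK, ← Real.exp_add]; congr 1; ring
  have hK0 : 0 < K := Real.exp_pos _
  unfold wt
  rw [← h7]
  have h8 := mul_le_mul_of_nonneg_left h1 (show 0 ≤ Real.exp (Θ * x) * K by positivity)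
  have h9 := mul_le_mul_of_nonneg_left h2 (show 0 ≤ Real.exp (-(Θ * x)) * K by positivity)
  nlinarith

/-- an average below one is attained with positive weight -/
theorem exists_of_avg {Q : Type*} (s : Finset Q) (π Φ : Q → ℝ) (hπ : ∀ q ∈ s, 0 ≤ π q)
    (ht : ∑ q ∈ s, π q = 1) (h : ∑ q ∈ s, π q * Φ q < 1) : ∃ q ∈ s, 0 < π q ∧ Φ q < 1 := by
  by_contra hc
  push Not at hc
  have : ∑ q ∈ s, π q ≤ ∑ q ∈ s, π q * Φ q := sum_le_sum fun q hq => by
    rcases (hπ q hq).eq_or_lt with h0 | h0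
    · simp [← h0]
    · exact le_mul_of_one_le_right h0.le (hc q hq h0)
  linarith

end Nib67
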