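import Pool.Agent.Lib.MP_895a4b_co.NibKill

/-! One step keeps the combinatorial invariants. -/

set_option linter.unusedSectionVars false

namespace Nib67

open Finset

variable {V P : Type} [Fintype V] [Fintype P] [DecidableEq V] [DecidableEq P]

namespace Dat

variable {d : Dat V P} {t : St V P} {z : V} {q : P}

theorem step_f (hS : z ∉ t.S) {y : V} (hy : y ∈ t.S) : (d.step t z q).f y = t.f y :=
  Function.update_of_ne (fun (h : y = z) => hS (h ▸ hy)) _ _

theorem step_fz : (d.step t z q).f z = q := Function.update_self ..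

theorem lk_step (hS : z ∉ t.S) (A : Finset V) (p : P) : d.lk (d.step t z q) A p =
    if z ∈ A ∧ q ∈ d.M p then insert z (d.lk t A p) else d.lk t A p := by
  ext y
  have h1 : y ∈ d.lk (d.step t z q) A p ↔ (y = z ∧ z ∈ A ∧ q ∈ d.M p) ∨ y ∈ d.lk t A p := by
    rw [mem_lk, mem_lk]
    constructor
    · rintro ⟨h, h2, h3⟩
      rcases mem_insert.1 h with rfl | h
      · exact Or.inl ⟨rfl, h2, by rwa [step_fz] at h3⟩
      · exact Or.inr ⟨h, h2, by rwa [step_f hS h] at h3⟩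
    · rintro (⟨rfl, h2, h3⟩ | ⟨h, h2, h3⟩)
      · exact ⟨mem_insert_self _ _, h2, by rwa [step_fz]⟩
      · exact ⟨mem_insert_of_mem h, h2, by rwa [step_f hS h]⟩
  rw [h1]
  split_ifs with h
  · simp [h]
  · simp [h]

theorem Inv.π1 (I : d.Inv t) (H : d.Hyp) (z : V) {p : P} (hp : p ∈ t.F) : 0 < 1 - t.π z p := by
  linarith [I.πη H z hp, H.η1]

theorem Inv.ee_nonneg (I : d.Inv t) (H : d.Hyp) (i : Row V P) (p : P) : 0 ≤ d.ee t z i p :=
  sum_nonneg fun q hq => mul_nonneg (I.π0 H z (mem_of_mem_erase hq)) (H.φ0 q i p)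

theorem Inv.step_v0 (I : d.Inv t) (H : d.Hyp) (i : Row V P) {p : P} (hp : p ∈ t.F) :
    0 ≤ (d.step t z q).v i p :=
  div_nonneg (mul_nonneg (mul_nonneg (I.v0 i p hp) (H.φ0 q i p)) (I.π1 H z hp).le)
    (I.ee_nonneg H i p)

theorem Inv.step_le (I : d.Inv t) (H : d.Hyp) (hS : z ∉ t.S) (hU : z ∉ d.U) {i : Row V P} {p : P}
    (hp : p ∈ t.F) (hv : t.v i p ≠ 0) {x : ℝ} (h : (1 - t.π z p) * (1 - x) ≤ d.ee t z i p) :
    (d.step t z q).v i p * (1 - x) ≤ t.v i p * d.φ t z q i p := by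
  have h1 : 0 < d.ee t z i p := by linarith [I.ee_half H hS hU hp hv]
  show t.v i p * d.φ t z q i p * (1 - t.π z p) / d.ee t z i p * (1 - x) ≤ _
  rw [div_mul_eq_mul_div, div_le_iff₀ h1, mul_assoc]
  exact mul_le_mul_of_nonneg_left h (mul_nonneg (I.v0 i p hp) (H.φ0 q i p))

theorem Inv.step_ent (I : d.Inv t) (H : d.Hyp) (hS : z ∉ t.S) (hU : z ∉ d.U) (i : Row V P)
    {p : P} (hp : p ∈ t.F) (hv' : (d.step t z q).v i p ≠ 0) :
    (d.lk (d.step t z q) (d.Nr i) p = ∅ ∧ (d.step t z q).v i p * d.B0 (insert z t.S) i ≤ 1) ∨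
      ∃ y, d.lk (d.step t z q) (d.Nr i) p = {y} ∧
        d.lk (d.step t z q) (d.N y) ((d.step t z q).f y) = ∅ ∧
        (d.step t z q).v i p * d.B1 (insert z t.S) i y ≤ d.gr i := by
  have hv : t.v i p ≠ 0 := fun h => hv' (by simp [step, h])
  have hφ : d.φ t z q i p ≠ 0 := fun h => hv' (by simp [step, h])
  have hB0 : 0 ≤ d.B0 t.S i := (H.B1_pos t.S i z).le.trans (H.B1_le t.S i z)
  have k0 : d.lk t (d.Nr i) p = ∅ → t.v i p * d.B0 t.S i ≤ 1 →
      (d.step t z q).v i p * d.B0 (insert z t.S) i ≤ d.φ t z q i p := fun h h1 => by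
    have h2 := mul_le_mul_of_nonneg_right (I.step_le (q := q) H hS hU hp hv (I.ee0 H hS hU hp h)) hB0
    have h3 := mul_le_mul_of_nonneg_left h1 (H.φ0 (t := t) (z := z) q i p)
    rw [B0, prod_insert hS, ← B0]
    nlinarith
  rw [lk_step hS]
  by_cases hc : z ∈ d.Nr i ∧ q ∈ d.M p
  · have h1 : d.lk t (d.Nr i) p = ∅ ∧ d.lk t (d.N z) q = ∅ := by
      by_contra h
      exact hφ (by rw [φ, if_pos hc, if_neg h])
    have h2 : d.φ t z q i p = d.gr i := by rw [φ, if_pos hc, if_pos h1]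
    refine Or.inr ⟨z, by simp [hc, h1.1], ?_, ?_⟩
    · rw [step_fz, lk_step hS, if_neg fun h => H.Nirr z h.1, h1.2]
    · rcases I.ent i p hp hv with ⟨-, h⟩ | ⟨y, h, -⟩
      · exact (mul_le_mul_of_nonneg_left (H.B1_le _ i z) (I.step_v0 H i hp)).trans
          (h2 ▸ k0 h1.1 h)
      · exact absurd (h.symm.trans h1.1) (singleton_ne_empty y)
  · have h1 : Disjoint (d.lk t (d.Nr i) p) (d.lk t (d.N z) q) := by
      by_contra h
      exact hφ (by rw [φ, if_neg hc, if_neg h])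
    have h2 : d.φ t z q i p = 1 := by rw [φ, if_neg hc, if_pos h1]
    rw [if_neg hc]
    rcases I.ent i p hp hv with ⟨h, h3⟩ | ⟨y, h, h3, h4⟩
    · exact Or.inl ⟨h, h2 ▸ k0 h h3⟩
    · have hy : y ∈ t.S := (mem_lk.1 (h ▸ mem_singleton_self y)).1
      refine Or.inr ⟨y, h, ?_, ?_⟩
      · rw [step_f hS hy, lk_step hS, if_neg, h3]
        rintro ⟨h5, h6⟩
        rw [h, disjoint_singleton_left] at h1
        exact h1 (mem_lk.2 ⟨hy, H.Nsym _ _ h5, H.Msym _ _ h6⟩)
      · have h5 := mul_le_mul_of_nonneg_right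
          (I.step_le (q := q) H hS hU hp hv (I.ee1 H hS hU hp h)) (H.B1_pos t.S i y).le
        rw [B1, prod_insert hS, ← B1]
        rw [h2] at h5
        nlinarith

theorem Inv.step_mat (I : d.Inv t) (H : d.Hyp) (hS : z ∉ t.S) (hq : q ∈ t.F)
    (hv : t.v (row z) q ≠ 0) (y : V) (hy : y ∈ insert z t.S) :
    #(d.lk (d.step t z q) (d.N y) ((d.step t z q).f y)) ≤ 1 := by
  rcases mem_insert.1 hy with rfl | hy
  · rw [step_fz, lk_step hS, if_neg fun h => H.Nirr y h.1]
    rcases I.lkz hq hv with h | ⟨w, h, -⟩ <;> simp [h]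
  · rw [step_f hS hy, lk_step hS]
    split_ifs with hc
    · have h1 : y ∈ d.lk t (d.N z) q := mem_lk.2 ⟨hy, H.Nsym _ _ hc.1, H.Msym _ _ hc.2⟩
      rcases I.lkz hq hv with h | ⟨w, h, h2⟩
      · simp [h] at h1
      · obtain rfl : y = w := by simpa [h] using h1
        simp [h2]
    · exact I.mat y hy

/-- rows without tolerance and without link -/
theorem Inv.step_v (I : d.Inv t) (H : d.Hyp) {i : Row V P} (hi : d.gr i = 0) {p : P} (hp : p ∈ t.F)
    (h : d.lk t (d.Nr i) p = ∅) :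
    d.ee t z i p = (if z ∈ d.Nr i then ∑ q ∈ t.F.erase p, t.π z q * (if q ∈ d.M p then 0 else 1)
      else 1 - t.π z p) ∧
    (d.step t z q).v i p = if z ∈ d.Nr i then (if q ∈ d.M p then 0 else t.v i p * ((1 - t.π z p) /
      ∑ q ∈ t.F.erase p, t.π z q * (if q ∈ d.M p then 0 else 1))) else t.v i p := by
  have h1 : d.ee t z i p = (if z ∈ d.Nr i then
      ∑ q ∈ t.F.erase p, t.π z q * (if q ∈ d.M p then 0 else 1) else 1 - t.π z p) := by
    split_ifs with hz
    · simp [ee, φ, hz, h, hi]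
    · rw [← I.πerase H z hp]; simp [ee, φ, hz, h]
  refine ⟨h1, ?_⟩
  show t.v i p * d.φ t z q i p * (1 - t.π z p) / d.ee t z i p = _
  rw [h1]
  have h2 := (I.π1 H z hp).ne'
  split_ifs with hz hq
  · simp [φ, hz, hq, hi]
  · simp [φ, hq, h, mul_div_assoc]
  · simp [φ, hz, h, mul_div_assoc, div_self h2]

theorem Inv.step_pair (I : d.Inv t) (H : d.Hyp) (hS : z ∉ t.S) (hU : z ∉ d.U) {u u' : V}
    (hu : u ∈ d.U) (hu' : u' ∈ d.U) {p : P} (hp : p ∈ t.F) :
    (d.step t z q).v (row u) p * (d.step t z q).v (row u') p *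
      (1 - d.b) ^ #(d.N u ∩ d.N u' ∩ insert z t.S) ≤ (d.step t z q).v (Sum.inl (u, u')) p := by
  have h0 := I.step_v0 (z := z) (q := q) H (Sum.inl (u, u')) hp
  by_cases ha : t.v (row u) p = 0
  · simpa [step, ha] using h0
  by_cases ha' : t.v (row u') p = 0
  · simpa [step, ha'] using h0
  have g1 : d.gr (row u) = 0 := if_pos hu
  have g2 : d.gr (row u') = 0 := if_pos hu'
  have g3 : d.gr (Sum.inl (u, u')) = 0 := if_pos hu
  have l1 := I.lk0 H g1 hp ha
  have l2 := I.lk0 H g2 hp ha'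
  have l3 : d.lk t (d.Nr (Sum.inl (u, u'))) p = ∅ := by
    refine eq_empty_of_forall_notMem fun y hy => ?_
    obtain ⟨h1, h2, h3⟩ := mem_lk.1 hy
    rcases mem_union.1 h2 with h2 | h2
    · exact notMem_empty y (l1 ▸ mem_lk.2 ⟨h1, by simpa using h2, h3⟩)
    · exact notMem_empty y (l2 ▸ mem_lk.2 ⟨h1, by simpa using h2, h3⟩)
  obtain ⟨e1, v1⟩ := I.step_v (z := z) (q := q) H g1 hp l1
  have v2 := (I.step_v (z := z) (q := q) H g2 hp l2).2
  have v3 := (I.step_v (z := z) (q := q) H g3 hp l3).2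
  have hb : 0 ≤ 1 - d.b := by linarith [H.b1]
  have hE : 0 ≤ ∑ q ∈ t.F.erase p, t.π z q * (if q ∈ d.M p then 0 else 1) :=
    sum_nonneg fun q hq => mul_nonneg (I.π0 H z (mem_of_mem_erase hq)) (by split_ifs <;> norm_num)
  have hρ := div_nonneg (I.π1 H z hp).le hE
  have hρ1 : z ∈ d.N u → (1 - t.π z p) /
      (∑ q ∈ t.F.erase p, t.π z q * (if q ∈ d.M p then 0 else 1)) * (1 - d.b) ≤ 1 := fun hz => by
    have h1 := I.ee0 H hS hU hp l1
    have h2 := I.ee_half H hS hU hp ha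
    rw [e1, Nr_row, if_pos hz] at h2
    rw [e1, Nr_row, if_pos hz, if_pos hz, g1, sub_zero, one_mul] at h1
    rw [div_mul_eq_mul_div, div_le_one (by linarith)]
    exact le_trans (mul_le_mul_of_nonneg_left (by linarith [H.βs z]) (I.π1 H z hp).le) h1
  have hk := I.pair u hu u' hu' p hp
  rw [v1, v2, v3]
  generalize (1 - t.π z p) / (∑ q ∈ t.F.erase p, t.π z q * (if q ∈ d.M p then 0 else 1)) = ρ
    at hρ hρ1
  have hw := I.v0 (Sum.inl (u, u')) p hp
  have hN : z ∈ d.Nr (Sum.inl (u, u')) ↔ z ∈ d.N u ∨ z ∈ d.N u' := mem_union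
  simp only [Nr_row, hN]
  by_cases hz : z ∈ d.N u <;> by_cases hz' : z ∈ d.N u'
  · rw [inter_insert_of_mem (mem_inter.2 ⟨hz, hz'⟩),
      card_insert_of_notMem fun h => hS (mem_inter.1 h).2, pow_succ]
    simp only [hz, hz', if_true, true_or]
    split_ifs
    · simp
    · have h1 := mul_le_mul_of_nonneg_right hk hρ
      have h2 : 0 ≤ t.v (row u) p * t.v (row u') p * (1 - d.b) ^ #(d.N u ∩ d.N u' ∩ t.S) * ρ :=
        mul_nonneg (mul_nonneg (mul_nonneg (I.v0 _ p hp) (I.v0 _ p hp)) (pow_nonneg hb _)) hρ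
      have h3 := mul_le_mul_of_nonneg_left (hρ1 hz) h2
      nlinarith
  · rw [inter_insert_of_notMem fun h => hz' (mem_inter.1 h).2]
    simp only [hz, hz', if_true, if_false, true_or]
    split_ifs
    · simp
    · nlinarith [mul_le_mul_of_nonneg_right hk hρ]
  · rw [inter_insert_of_notMem fun h => hz (mem_inter.1 h).1]
    simp only [hz, hz', if_true, if_false, or_true]
    split_ifs
    · simp
    · nlinarith [mul_le_mul_of_nonneg_right hk hρ]
  · rw [inter_insert_of_notMem fun h => hz (mem_inter.1 h).1]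
    simpa only [hz, hz', if_false, or_self] using hk

theorem Inv.step (I : d.Inv t) (H : d.Hyp) (hS : z ∉ t.S) (hU : z ∉ d.U)
    (hmin : ∀ w ∉ t.S, w ∉ d.U → d.χ z ≤ d.χ w) (hq : q ∈ t.F) (hv : t.v (row z) q ≠ 0)
    (hΦ : d.Φ (d.step t z q) < 1) : d.Inv (d.step t z q) where
  sub w hw := by
    rcases mem_insert.1 hw with rfl | hw
    exacts [hU, I.sub w hw]
  ord w hw y hy hyU := by
    have hy' : y ∉ t.S := fun h => hy (mem_insert_of_mem h)
    rcases mem_insert.1 hw with rfl | hw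
    exacts [hmin y hy' hyU, I.ord w hw y hy' hyU]
  card := by
    have h1 := I.card
    have h2 := card_pos.2 ⟨q, hq⟩
    show #(t.F.erase q) + #(insert z t.S) = _
    rw [card_erase_of_mem hq, card_insert_of_notMem hS]
    omega
  inj y hy y' hy' h := by
    rcases mem_insert.1 (mem_coe.1 hy) with h1 | h1 <;>
      rcases mem_insert.1 (mem_coe.1 hy') with h2 | h2
    · rw [h1, h2]
    · rw [h1, step_fz, step_f hS h2] at h
      exact (I.out y' h2 (h ▸ hq)).elim
    · rw [h2, step_fz, step_f hS h1] at h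
      exact (I.out y h1 (h ▸ hq)).elim
    · rw [step_f hS h1, step_f hS h2] at h
      exact I.inj h1 h2 h
  out y hy h := by
    rcases mem_insert.1 hy with rfl | hy
    · rw [step_fz] at h
      exact notMem_erase _ _ h
    · rw [step_f hS hy] at h
      exact I.out y hy (mem_of_mem_erase h)
  v0 i p hp := I.step_v0 H i (mem_of_mem_erase hp)
  ent i p hp h := I.step_ent H hS hU i (mem_of_mem_erase hp) h
  mat := I.step_mat H hS hq hv
  inr o p hp := by
    have hp' := mem_of_mem_erase hp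
    rw [(I.step_v (z := z) (q := q) H (i := Sum.inr o) rfl hp' (by simp [lk])).2]
    simpa using I.inr o p hp'
  pair u hu u' hu' p hp := I.step_pair H hS hU hu hu' (mem_of_mem_erase hp)
  lo p hp := by
    have hp' := mem_of_mem_erase hp
    have h1 : t.σ p * t.π z p * t.X (row z) = t.v (row z) p := by
      have := (I.σ0 H hp').ne'
      have := (I.X_pos H z).ne'
      rw [St.π]; field_simp
    have h2 := mul_le_mul_of_nonneg_left (I.X_le H (row z))
      (mul_nonneg (I.σ0 H hp').le (I.π0 H z hp'))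
    rw [sc_row] at h2
    show t.c p + t.v (row z) p ≤ (1 + d.η) * d.n * (1 - t.σ p * (1 - t.π z p))
    nlinarith [I.lo p hp']
  hi p hp := by
    have hp' := mem_of_mem_erase hp
    have h1 : t.σ p * t.π z p * t.X (row z) = t.v (row z) p := by
      have := (I.σ0 H hp').ne'
      have := (I.X_pos H z).ne'
      rw [St.π]; field_simp
    have h2 := mul_le_mul_of_nonneg_left (I.X_ge H z)
      (mul_nonneg (I.σ0 H hp').le (I.π0 H z hp'))
    show (1 - d.η) * d.n * (1 - t.σ p * (1 - t.π z p)) ≤ t.c p + t.v (row z) p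
    nlinarith [I.hi p hp']
  pot := hΦ

end Dat

end Nib67
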