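import Mathlib

namespace Pool.Agent.Lib.MP_895a4b_co

open Finset

variable {V : Type} [Fintype V] [DecidableEq V]

/-- Sum of a weight over the ordered pairs avoiding a set. -/
def off (c : V → V → ℤ) (S : Finset V) : ℤ := ∑ x ∈ Sᶜ, ∑ y ∈ Sᶜ, c x y

lemma off_insert (c : V → V → ℤ) (hs : ∀ x y, c x y = c y x) (h0 : ∀ x, c x x = 0)
    (S : Finset V) (a : V) (ha : a ∉ S) :
    off c S = off c (insert a S) + 2 * ∑ y ∈ (insert a S)ᶜ, c a y := by
  have hS : Sᶜ = insert a (insert a S)ᶜ := by
    ext x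
    by_cases hx : x = a
    · subst hx; simp [ha]
    · simp [hx]
  have hna : a ∉ (insert a S)ᶜ := by simp
  unfold off
  rw [hS, sum_insert hna, sum_insert hna, h0]
  simp only [sum_insert hna, sum_add_distrib]
  have : ∑ x ∈ (insert a S)ᶜ, c x a = ∑ x ∈ (insert a S)ᶜ, c a x :=
    sum_congr rfl fun x _ => hs x a
  rw [this]; ring

lemma off_congr (c c' : V → V → ℤ) (S : Finset V) (h : ∀ x ∉ S, ∀ y ∉ S, c x y = c' x y) :
    off c S = off c' S :=
  sum_congr rfl fun x hx => sum_congr rfl fun y hy => h x (mem_compl.1 hx) y (mem_compl.1 hy)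

variable (R B : SimpleGraph V) [DecidableRel R.Adj] [DecidableRel B.Adj]

/-- The weight of the pair `x y` under the placement `σ`. -/
def wt (cost : V → V → ℤ) (σ : Equiv.Perm V) (x y : V) : ℤ :=
  if R.Adj x y ∧ B.Adj (σ x) (σ y) then cost x y else 0

lemma wt_symm (cost : V → V → ℤ) (hc : ∀ x y, cost x y = cost y x) (σ : Equiv.Perm V) (x y : V) :
    wt R B cost σ x y = wt R B cost σ y x := by
  unfold wt
  simp only [hc x y, R.adj_comm x y, B.adj_comm (σ x) (σ y)]

lemma wt_self (cost : V → V → ℤ) (σ : Equiv.Perm V) (x : V) : wt R B cost σ x x = 0 := by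
  simp [wt]

/-- Vertices `w` joined to `h` in `R` whose place is joined in `B` to the place of `y`. -/
def lk (σ : Equiv.Perm V) (h y : V) : Finset V := univ.filter fun w => R.Adj h w ∧ B.Adj (σ y) (σ w)

lemma mem_lk {σ : Equiv.Perm V} {h y w : V} :
    w ∈ lk R B σ h y ↔ R.Adj h w ∧ B.Adj (σ y) (σ w) := by simp [lk]

lemma sum_swap_left (cost : V → V → ℤ) (σ : Equiv.Perm V) (h y : V) :
    ∑ w ∈ ({h, y} : Finset V)ᶜ, wt R B cost (σ * Equiv.swap h y) h w
      = ∑ w ∈ lk R B σ h y, cost h w := by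
  unfold lk
  rw [sum_filter]
  have h1 : ∀ w ∈ ({h, y} : Finset V)ᶜ, wt R B cost (σ * Equiv.swap h y) h w
      = if R.Adj h w ∧ B.Adj (σ y) (σ w) then cost h w else 0 := by
    intro w hw
    simp only [mem_compl, mem_insert, mem_singleton, not_or] at hw
    simp [wt, Equiv.swap_apply_of_ne_of_ne hw.1 hw.2]
  rw [sum_congr rfl h1]
  apply sum_subset (subset_univ _)
  intro w _ hw
  simp only [mem_compl, mem_insert, mem_singleton, not_not] at hw
  rcases hw with rfl | rfl <;> simp

lemma sum_at (cost : V → V → ℤ) (σ : Equiv.Perm V) (h : V) :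
    ∑ w ∈ ({h} : Finset V)ᶜ, wt R B cost σ h w = ∑ w ∈ lk R B σ h h, cost h w := by
  unfold lk
  rw [sum_filter]
  apply sum_subset (subset_univ _)
  intro w _ hw
  simp only [mem_compl, mem_singleton, not_not] at hw
  subst hw; simp [wt]

/-- The total weight splits at a vertex. -/
lemma tot_split (cost : V → V → ℤ) (hc : ∀ x y, cost x y = cost y x) (σ : Equiv.Perm V) (h : V) :
    off (wt R B cost σ) ∅ = off (wt R B cost σ) {h} + 2 * ∑ w ∈ lk R B σ h h, cost h w := by
  have := off_insert (wt R B cost σ) (wt_symm R B cost hc σ) (wt_self R B cost σ) ∅ h (by simp)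
  simp only [insert_empty_eq] at this
  rw [this, sum_at]

/-- After exchanging `h` and `y`, the weight off `y`. -/
lemma off_swap (cost : V → V → ℤ) (hc : ∀ x y, cost x y = cost y x)
    (hp : ∀ x y, R.Adj x y → 0 ≤ cost x y) (σ : Equiv.Perm V) (h y : V) (hy : y ≠ h) :
    off (wt R B cost (σ * Equiv.swap h y)) {y}
      ≤ off (wt R B cost σ) {h} + 2 * ∑ w ∈ lk R B σ h y, cost h w := by
  have e1 := off_insert (wt R B cost (σ * Equiv.swap h y)) (wt_symm R B cost hc _)
    (wt_self R B cost _) {y} h (by simpa using hy.symm)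
  have e2 := off_insert (wt R B cost σ) (wt_symm R B cost hc _)
    (wt_self R B cost _) {h} y (by simpa using hy)
  have e3 : off (wt R B cost (σ * Equiv.swap h y)) {h, y} = off (wt R B cost σ) {h, y} := by
    apply off_congr
    intro x hx z hz
    simp only [mem_insert, mem_singleton, not_or] at hx hz
    simp [wt, Equiv.swap_apply_of_ne_of_ne hx.1 hx.2, Equiv.swap_apply_of_ne_of_ne hz.1 hz.2]
  have e4 : (0 : ℤ) ≤ ∑ z ∈ (insert y {h} : Finset V)ᶜ, wt R B cost σ y z := by
    apply sum_nonneg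
    intro z _
    unfold wt
    split_ifs with hz
    · exact hp _ _ hz.1
    · exact le_rfl
  rw [pair_comm y h] at e2 e4
  rw [e1, e3, sum_swap_left, e2]
  linarith

/-- After exchanging `h` and `y`, the common neighbours of `y`. -/
lemma lk_swap (σ : Equiv.Perm V) (h y : V) :
    lk R B (σ * Equiv.swap h y) y y ⊆
      lk R B σ y h ∪ (if R.Adj h y ∧ B.Adj (σ h) (σ y) then {h} else ∅) := by
  intro w hw
  rw [mem_lk] at hw
  obtain ⟨h1, h2⟩ := hw
  by_cases hwh : w = h
  · subst hwh
    simp only [Equiv.Perm.coe_mul, Function.comp_apply, Equiv.swap_apply_right,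
      Equiv.swap_apply_left] at h2
    simp [h1.symm, h2]
  · have hwy : w ≠ y := fun e => by subst e; exact R.irrefl h1
    simp only [Equiv.Perm.coe_mul, Function.comp_apply, Equiv.swap_apply_right,
      Equiv.swap_apply_of_ne_of_ne hwh hwy] at h2
    exact mem_union_left _ ((mem_lk R B).2 ⟨h1, h2⟩)

lemma sum_card_row (σ : Equiv.Perm V) (h : V) :
    ∑ y, (lk R B σ h y).card ≤ R.degree h * B.maxDegree := by
  have e : ∑ y, (lk R B σ h y).card = ∑ w ∈ R.neighborFinset h, B.degree (σ w) := by
    unfold lk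
    simp only [card_filter]
    rw [sum_comm]
    have : ∀ w, (∑ y, if R.Adj h w ∧ B.Adj (σ y) (σ w) then 1 else 0)
        = if R.Adj h w then B.degree (σ w) else 0 := by
      intro w
      by_cases hw : R.Adj h w
      · simp only [hw, true_and, if_true]
        rw [Equiv.sum_comp σ (fun p => if B.Adj p (σ w) then 1 else 0), ← card_filter,
          ← SimpleGraph.card_neighborFinset_eq_degree]
        congr 1
        ext p; simp [B.adj_comm]
      · simp [hw]
    rw [sum_congr rfl fun w _ => this w, ← sum_filter]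
    congr 1
    ext w; simp
  rw [e, ← SimpleGraph.card_neighborFinset_eq_degree, ← smul_eq_mul]
  exact sum_le_card_nsmul _ _ _ fun w _ => B.degree_le_maxDegree _

lemma sum_col (σ : Equiv.Perm V) (h : V) (μ : V → ℕ) (C : ℕ) (hC : ∀ z, μ z * R.degree z ≤ C) :
    ∑ y, ∑ z ∈ lk R B σ y h, μ z ≤ B.maxDegree * C := by
  have e : ∑ y, ∑ z ∈ lk R B σ y h, μ z
      = ∑ z ∈ univ.filter (fun z => B.Adj (σ h) (σ z)), μ z * R.degree z := by
    unfold lk
    simp only [sum_filter]
    rw [sum_comm]
    refine sum_congr rfl fun z _ => ?_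
    by_cases hz : B.Adj (σ h) (σ z)
    · simp only [hz, and_true, if_true]
      rw [← sum_filter, sum_const, smul_eq_mul, mul_comm,
        ← SimpleGraph.card_neighborFinset_eq_degree]
      congr 2
      ext p; simp [R.adj_comm]
    · simp [hz]
  have hc : (univ.filter (fun z => B.Adj (σ h) (σ z))).card ≤ B.maxDegree := by
    refine le_trans ?_ (B.degree_le_maxDegree (σ h))
    rw [← SimpleGraph.card_neighborFinset_eq_degree]
    apply card_le_card_of_injOn σ
    · intro z hz
      simpa using hz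
    · exact σ.injective.injOn
  rw [e]
  calc _ ≤ _ := sum_le_card_nsmul _ _ C fun z _ => hC z
    _ ≤ _ := by rw [smul_eq_mul]; exact Nat.mul_le_mul_right _ hc

end Pool.Agent.Lib.MP_895a4b_co
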